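import Pool.Agent.K6.H78.MF.Alg

/-!
Primitive integer vectors, primitive planes, dual vectors.
-/

set_option autoImplicit false
set_option linter.unusedSectionVars false

namespace Pool.Agent.K6.H78.MF

open Finset

variable {k m N : ℕ}

/-- primitive -/
def Pm {J : Type} (z : J → ℤ) : Prop := ∀ p : ℕ, p.Prime → ¬ ∀ i, (p : ℤ) ∣ z i

theorem Pm.ne {J : Type} {z : J → ℤ} (h : Pm z) : z ≠ 0 := by
  rintro rfl
  exact h 2 Nat.prime_two fun i => by simp

theorem Pm.neg {J : Type} {z : J → ℤ} (h : Pm z) : Pm (-z) := by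
  intro p hp h1
  exact h p hp fun i => by simpa using h1 i

section gcd

variable {J : Type} [Fintype J]

theorem pm_iff {z : J → ℤ} : Pm z ↔ univ.gcd z = 1 := by
  constructor
  · intro h
    by_contra hcon
    have h0 : univ.gcd z ≠ 0 := by
      intro h0
      rw [Finset.gcd_eq_zero_iff] at h0
      exact h.ne (by funext i; exact h0 i (mem_univ i))
    have h1 : (univ.gcd z).natAbs ≠ 1 := by
      intro h1
      apply hcon
      have h2 : 0 ≤ univ.gcd z := Int.nonneg_of_normalize_eq_self Finset.normalize_gcd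
      omega
    obtain ⟨p, hp, hpd⟩ := Nat.exists_prime_and_dvd h1
    refine h p hp fun i => ?_
    have h3 : (p : ℤ) ∣ univ.gcd z := Int.natCast_dvd.2 hpd
    exact h3.trans (Finset.gcd_dvd (mem_univ i))
  · intro h p hp hd
    have h1 : (p : ℤ) ∣ univ.gcd z := Finset.dvd_gcd fun i _ => hd i
    rw [h] at h1
    have h2 := Int.natAbs_dvd_natAbs.2 h1
    simp at h2
    exact hp.one_lt.ne' h2

/-- Bezout -/
theorem Pm.bezout {z : J → ℤ} (h : Pm z) : ∃ c : J → ℤ, ∑ i, c i * z i = 1 := by
  have h1 : Ideal.span (Set.range z) = ⊤ := by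
    by_contra hne
    obtain ⟨M, hM, hle⟩ := Ideal.exists_le_maximal _ hne
    obtain ⟨g, hg⟩ := (IsPrincipalIdealRing.principal M).principal
    have hg' : M = Ideal.span {g} := hg
    have hgz : ∀ i, g ∣ z i := by
      intro i
      have : z i ∈ M := hle (Ideal.subset_span ⟨i, rfl⟩)
      rw [hg'] at this
      exact Ideal.mem_span_singleton.1 this
    have hg1 : g.natAbs ≠ 1 := by
      intro h1
      apply hM.ne_top
      rw [hg', Ideal.span_singleton_eq_top]
      exact Int.isUnit_iff_natAbs_eq.2 h1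
    obtain ⟨p, hp, hpd⟩ := Nat.exists_prime_and_dvd hg1
    exact h p hp fun i => (Int.natCast_dvd.2 hpd).trans (hgz i)
  have h2 : (1 : ℤ) ∈ Ideal.span (Set.range z) := by rw [h1]; trivial
  rw [Ideal.mem_span_range_iff_exists_fun] at h2
  exact h2

theorem exists_pm {x : J → ℚ} (hx : x ≠ 0) :
    ∃ (z : J → ℤ) (c : ℚ), Pm z ∧ c ≠ 0 ∧ x = fun i => c * z i := by
  classical
  obtain ⟨D, hD, hDv⟩ : ∃ D : ℕ, D ≠ 0 ∧ ∀ i, ∃ n : ℤ, (D : ℚ) * x i = n := by
    refine ⟨∏ i, (x i).den, Finset.prod_ne_zero_iff.2 fun i _ => (x i).den_nz, fun i => ?_⟩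
    refine ⟨(∏ j ∈ Finset.univ.erase i, ((x j).den : ℤ)) * (x i).num, ?_⟩
    rw [← Finset.mul_prod_erase Finset.univ _ (Finset.mem_univ i)]
    push_cast
    have h1 := Rat.den_mul_eq_num (x i)
    rw [← h1]
    ring
  choose w hw using hDv
  have hD0 : (D : ℚ) ≠ 0 := by exact_mod_cast hD
  have hw0 : w ≠ 0 := by
    intro h0
    apply hx
    funext i
    have h1 := hw i
    rw [h0, Pi.zero_apply, Int.cast_zero, mul_eq_zero] at h1
    exact h1.resolve_left hD0
  obtain ⟨i₀, hi₀⟩ := Function.ne_iff.1 hw0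
  obtain ⟨z, hz, hz1⟩ := Finset.extract_gcd w ⟨i₀, mem_univ i₀⟩
  set g := univ.gcd w with hg
  have hg0 : g ≠ 0 := by
    intro h0
    apply hi₀
    rw [hz i₀ (mem_univ _), h0, zero_mul]
    rfl
  have hgQ : (g : ℚ) ≠ 0 := by exact_mod_cast hg0
  refine ⟨z, (g : ℚ) / D, pm_iff.2 hz1, div_ne_zero hgQ hD0, ?_⟩
  funext i
  have h1 := hw i
  rw [hz i (mem_univ _)] at h1
  push_cast at h1
  field_simp
  linarith

theorem pm_unique {z z' : J → ℤ} (h : Pm z) (h' : Pm z') {c : ℚ}
    (hc : ∀ i, (z' i : ℚ) = c * z i) : (z' = z ∧ c = 1) ∨ (z' = -z ∧ c = -1) := by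
  obtain ⟨a, ha⟩ := h.bezout
  obtain ⟨b, hb⟩ := h'.bezout
  have h1 : c = ((∑ i, a i * z' i : ℤ) : ℚ) := by
    push_cast
    have h2 : ∀ i, (a i : ℚ) * z' i = c * (a i * z i) := fun i => by rw [hc]; ring
    simp only [h2]
    rw [← mul_sum]
    have h3 : ((∑ i, a i * z i : ℤ) : ℚ) = 1 := by rw [ha]; simp
    push_cast at h3
    rw [h3, mul_one]
  have h2 : c * ((∑ i, b i * z i : ℤ) : ℚ) = 1 := by
    have h3 : ((∑ i, b i * z' i : ℤ) : ℚ) = 1 := by rw [hb]; simp
    push_cast at h3 ⊢
    rw [← h3, mul_sum]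
    refine sum_congr rfl fun i _ => ?_
    rw [hc]
    ring
  rw [h1] at h2
  have h3 : (∑ i, a i * z' i) * (∑ i, b i * z i) = 1 := by exact_mod_cast h2
  rcases Int.isUnit_iff.1 (IsUnit.of_mul_eq_one _ h3) with h4 | h4
  · left
    have h5 : c = 1 := by rw [h1, h4]; simp
    refine ⟨?_, h5⟩
    funext i
    have := hc i
    rw [h5, one_mul] at this
    exact_mod_cast this
  · right
    have h5 : c = -1 := by rw [h1, h4]; simp
    refine ⟨?_, h5⟩
    funext i
    have := hc i
    rw [h5, neg_one_mul] at this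
    rw [Pi.neg_apply]
    exact_mod_cast this

end gcd

/-! ### planes -/

theorem dual_of_pm {v w : Fin N → ℤ} (h : Pm (pl v w)) : ∃ ξ η : Fin N → ℤ,
    (∑ i, v i * ξ i = 1 ∧ ∑ i, w i * ξ i = 0 ∧ ∑ i, v i * η i = 0 ∧ ∑ i, w i * η i = 1) ∧
    ∀ v' w' : Fin N → ℤ, (pl v' w' = pl v w ∨ pl v' w' = -pl v w) →
      v' = fun i => (∑ j, v' j * ξ j) * v i + (∑ j, v' j * η j) * w i := by
  obtain ⟨c, hc⟩ := h.bezout
  rw [Fintype.sum_prod_type] at hc
  unfold pl at hc
  simp only at hc
  have hanti : ∀ x : Fin N → ℤ, ∑ i, ∑ j, (c (i, j) - c (j, i)) * (x i * x j) = 0 := by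
    intro x
    have h1 : ∑ i, ∑ j, (c (i, j) - c (j, i)) * (x i * x j) =
        ∑ i, ∑ j, c (i, j) * (x i * x j) - ∑ i, ∑ j, c (j, i) * (x i * x j) := by
      simp only [sub_mul, sum_sub_distrib]
    rw [h1]
    have h2 : ∑ i, ∑ j, c (j, i) * (x i * x j) = ∑ i, ∑ j, c (i, j) * (x i * x j) := by
      rw [sum_comm]
      refine sum_congr rfl fun i _ => sum_congr rfl fun j _ => by ring
    rw [h2, sub_self]
  have hpair : ∀ x y : Fin N → ℤ, ∑ i, ∑ j, (c (i, j) - c (j, i)) * (x i * y j) =
      ∑ i, ∑ j, c (i, j) * (x i * y j - x j * y i) := by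
    intro x y
    have h1 : ∑ i, ∑ j, (c (i, j) - c (j, i)) * (x i * y j) =
        ∑ i, ∑ j, c (i, j) * (x i * y j) - ∑ i, ∑ j, c (j, i) * (x i * y j) := by
      simp only [sub_mul, sum_sub_distrib]
    have h2 : ∑ i, ∑ j, c (j, i) * (x i * y j) = ∑ i, ∑ j, c (i, j) * (x j * y i) := by
      rw [sum_comm]
    rw [h1, h2, ← sum_sub_distrib]
    refine sum_congr rfl fun i _ => ?_
    rw [← sum_sub_distrib]
    refine sum_congr rfl fun j _ => by ring
  refine ⟨fun i => ∑ j, (c (i, j) - c (j, i)) * w j, fun j => ∑ i, (c (i, j) - c (j, i)) * v i,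
    ⟨?_, ?_, ?_, ?_⟩, ?_⟩
  · have h1 : ∀ i, v i * ∑ j, (c (i, j) - c (j, i)) * w j =
        ∑ j, (c (i, j) - c (j, i)) * (v i * w j) := by
      intro i; rw [mul_sum]; exact sum_congr rfl fun j _ => by ring
    simp only [h1]
    rw [hpair]
    exact hc
  · have h1 : ∀ i, w i * ∑ j, (c (i, j) - c (j, i)) * w j =
        ∑ j, (c (i, j) - c (j, i)) * (w i * w j) := by
      intro i; rw [mul_sum]; exact sum_congr rfl fun j _ => by ring
    simp only [h1]
    exact hanti w
  · have h1 : ∀ j, v j * ∑ i, (c (i, j) - c (j, i)) * v i =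
        ∑ i, (c (i, j) - c (j, i)) * (v i * v j) := by
      intro j; rw [mul_sum]; exact sum_congr rfl fun i _ => by ring
    simp only [h1]
    rw [sum_comm]
    exact hanti v
  · have h1 : ∀ j, w j * ∑ i, (c (i, j) - c (j, i)) * v i =
        ∑ i, (c (i, j) - c (j, i)) * (v i * w j) := by
      intro j; rw [mul_sum]; exact sum_congr rfl fun i _ => by ring
    simp only [h1]
    rw [sum_comm, hpair]
    exact hc
  · intro v' w' hpl
    have hpl' : ∀ a b : Fin N, ∀ i, v' i * pl v w (a, b) + v' a * pl v w (b, i) +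
        v' b * pl v w (i, a) = 0 := by
      intro a b i
      have h0 : v' i * pl v' w' (a, b) + v' a * pl v' w' (b, i) + v' b * pl v' w' (i, a) = 0 := by
        unfold pl
        ring
      rcases hpl with h | h
      · rw [h] at h0; exact h0
      · rw [h] at h0
        simp only [Pi.neg_apply] at h0
        linarith
    funext i
    have h1 : v' i * ∑ a, ∑ b, c (a, b) * (v a * w b - v b * w a) =
        -∑ a, ∑ b, c (a, b) * (v' a * pl v w (b, i) + v' b * pl v w (i, a)) := by
      rw [mul_sum, ← sum_neg_distrib]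
      refine sum_congr rfl fun a _ => ?_
      rw [mul_sum, ← sum_neg_distrib]
      refine sum_congr rfl fun b _ => ?_
      have := hpl' a b i
      unfold pl at this ⊢
      simp only at this ⊢
      linear_combination c (a, b) * this
    rw [hc, mul_one] at h1
    have h2 : ∑ j, v' j * ∑ l, (c (j, l) - c (l, j)) * w l =
        ∑ a, ∑ b, c (a, b) * (v' a * w b - v' b * w a) := by
      rw [← hpair]
      refine sum_congr rfl fun j _ => ?_
      rw [mul_sum]
      exact sum_congr rfl fun l _ => by ring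
    have h3 : ∑ j, v' j * ∑ l, (c (l, j) - c (j, l)) * v l =
        ∑ a, ∑ b, c (a, b) * (v a * v' b - v b * v' a) := by
      rw [← hpair, sum_comm]
      refine sum_congr rfl fun j _ => ?_
      rw [mul_sum]
      exact sum_congr rfl fun l _ => by ring
    rw [h1, h2, h3, sum_mul, sum_mul, ← sum_add_distrib, ← sum_neg_distrib]
    refine sum_congr rfl fun a _ => ?_
    rw [sum_mul, sum_mul, ← sum_add_distrib, ← sum_neg_distrib]
    refine sum_congr rfl fun b _ => ?_
    unfold pl
    simp only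
    ring

/-- passage to a primitive basis -/
theorem exists_prim (v w : Fin N → ℤ) (h : pl v w ≠ 0) : ∃ (v' w' : Fin N → ℤ) (α β γ δ : ℤ),
    Pm (pl v' w') ∧ (v = fun i => α * v' i + β * w' i) ∧ (w = fun i => γ * v' i + δ * w' i) ∧
    α * δ - β * γ ≠ 0 := by
  obtain ⟨p₀, hp₀⟩ := Function.ne_iff.1 h
  obtain ⟨D, hD⟩ : ∃ D, (pl v w p₀).natAbs = D := ⟨_, rfl⟩
  induction D using Nat.strong_induction_on generalizing v w with
  | _ D ih =>
    by_cases hP : Pm (pl v w)
    · exact ⟨v, w, 1, 0, 0, 1, hP, by simp, by simp, by simp⟩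
    · unfold Pm at hP
      push Not at hP
      obtain ⟨p, hp, hpd⟩ := hP
      have hpI : Prime (p : ℤ) := Nat.prime_iff_prime_int.1 hp
      have hp0 : (p : ℤ) ≠ 0 := by exact_mod_cast hp.ne_zero
      -- a new pair with smaller minors
      have hstep : ∃ (v' w' : Fin N → ℤ) (α β γ δ : ℤ), (v = fun i => α * v' i + β * w' i) ∧
          (w = fun i => γ * v' i + δ * w' i) ∧ α * δ - β * γ = p := by
        by_cases hw : ∀ i, (p : ℤ) ∣ w i
        · choose x hx using hw
          exact ⟨v, x, 1, 0, 0, p, by simp, by funext i; rw [hx i]; ring, by ring⟩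
        · push Not at hw
          obtain ⟨i₀, hi₀⟩ := hw
          have hcop : IsCoprime (w i₀) (p : ℤ) := by
            rw [isCoprime_comm]
            exact (Prime.coprime_iff_not_dvd hpI).2 hi₀
          obtain ⟨u, u', hu⟩ := hcop
          have h1 : ∀ j, (p : ℤ) ∣ v j - (v i₀ * u) * w j := by
            intro j
            have h2 := hpd (j, i₀)
            unfold pl at h2
            simp only at h2
            have h3 : v j - (v i₀ * u) * w j =
                (v j * w i₀ - v i₀ * w j) * u + p * (u' * v j) := by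
              linear_combination (-v j) * hu
            rw [h3]
            exact dvd_add (h2.mul_right _) (dvd_mul_right _ _)
          choose x hx using h1
          refine ⟨x, w, p, v i₀ * u, 0, 1, ?_, by simp, by ring⟩
          funext i
          have := hx i
          linarith
      obtain ⟨v', w', α, β, γ, δ, hv, hw, hdet⟩ := hstep
      have hpl : pl v w = fun r => (p : ℤ) * pl v' w' r := by
        funext r
        rw [hv, hw]
        unfold pl
        simp only
        rw [← hdet]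
        ring
      have h2 : pl v' w' p₀ ≠ 0 := by
        intro h0
        apply hp₀
        rw [hpl]
        simp [h0]
      have h3 : (pl v' w' p₀).natAbs < D := by
        rw [← hD, hpl, Int.natAbs_mul, Int.natAbs_natCast]
        have h4 : 0 < (pl v' w' p₀).natAbs := Int.natAbs_pos.2 h2
        have := hp.two_le
        nlinarith
      obtain ⟨v'', w'', a, b, c, d, h4, h5, h6, h7⟩ := ih _ h3 v' w'
        (fun h0 => h2 (by rw [h0]; rfl)) h2 rfl
      refine ⟨v'', w'', α * a + β * c, α * b + β * d, γ * a + δ * c, γ * b + δ * d, h4, ?_, ?_, ?_⟩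
      · rw [hv]
        funext i
        rw [congrFun h5 i, congrFun h6 i]
        ring
      · rw [hw]
        funext i
        rw [congrFun h5 i, congrFun h6 i]
        ring
      · have h8 : (α * a + β * c) * (γ * b + δ * d) - (α * b + β * d) * (γ * a + δ * c) =
            (α * δ - β * γ) * (a * d - b * c) := by ring
        rw [h8, hdet]
        exact mul_ne_zero hp0 h7

/-- primitivity of the tensor -/
theorem pm_T {v w : Fin N → ℤ} {q : Fin m → Fin (k + 1) → ℤ} (h : Pm (pl v w)) :
    Pm (T v w q) ↔ Pm (fun p : Fin m × Fin (k + 1) => q p.1 p.2) := by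
  classical
  constructor
  · intro h1 p hp hd
    refine h1 p hp fun r => ?_
    unfold T
    refine Finset.dvd_sum fun S _ => ?_
    exact (hd (r.1, ci S)).mul_right _
  · intro h1 p hp hd
    obtain ⟨ξ, η, ⟨e1, e2, e3, e4⟩, _⟩ := dual_of_pm h
    refine h1 p hp fun r => ?_
    obtain ⟨S, hS⟩ := exists_ci r.2
    have h2 := q_eq v w q r.1 S ξ η e1 e2 e3 e4
    rw [hS] at h2
    simp only
    rw [h2]
    exact Finset.dvd_sum fun f _ => (hd (r.1, f)).mul_right _

end Pool.Agent.K6.H78.MF
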