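import Mathlib

/-!
Symmetric tensors on a plane: `k`-fold symmetric tensors in the plane spanned by `v`, `w`.
-/

set_option autoImplicit false
set_option linter.unusedSectionVars false

namespace Pool.Agent.K6.H78.MF

open Finset

variable {k m N : ℕ} {R : Type*} [CommRing R]

/-- the cardinality of a subset of `Fin k` as an element of `Fin (k + 1)` -/
def ci (S : Finset (Fin k)) : Fin (k + 1) := ⟨S.card, Nat.lt_succ_of_le (card_finset_fin_le S)⟩

/-- the symmetric multilinear form with coefficients `q`, at the vectors `(x l, y l)` -/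
def Bf (q : Fin (k + 1) → R) (x y : Fin k → R) : R :=
  ∑ S : Finset (Fin k), q (ci S) * ∏ l, if l ∈ S then y l else x l

/-- the symmetric tensors -/
def T (v w : Fin N → R) (q : Fin m → Fin (k + 1) → R) : Fin m × (Fin k → Fin N) → R :=
  fun p => ∑ S : Finset (Fin k), q p.1 (ci S) * ∏ l, if l ∈ S then w (p.2 l) else v (p.2 l)

/-- the minors -/
def pl (v w : Fin N → R) : Fin N × Fin N → R := fun p => v p.1 * w p.2 - v p.2 * w p.1

/-- the value of a form with coefficients `choose k i * q i` -/
def fv (q : Fin (k + 1) → R) (x y : R) : R :=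
  ∑ i : Fin (k + 1), (k.choose i : R) * q i * x ^ (k - i) * y ^ (i : ℕ)

/-- no common zero over the rational numbers -/
def NZ (q : Fin m → Fin (k + 1) → ℚ) : Prop :=
  ∀ x y : ℚ, (x ≠ 0 ∨ y ≠ 0) → ∃ j, fv (q j) x y ≠ 0

theorem T_eq (v w : Fin N → R) (q : Fin m → Fin (k + 1) → R) (p : Fin m × (Fin k → Fin N)) :
    T v w q p = Bf (q p.1) (fun l => v (p.2 l)) (fun l => w (p.2 l)) := rfl

theorem Bf_const (q : Fin (k + 1) → R) (x y : R) : Bf q (fun _ => x) (fun _ => y) = fv q x y := by
  classical
  unfold Bf fv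
  have h1 : ∀ S : Finset (Fin k), (∏ l, if l ∈ S then y else x) = x ^ (k - S.card) * y ^ S.card := by
    intro S
    rw [prod_ite, prod_const, prod_const]
    have h2 : (univ.filter fun l => l ∈ S) = S := by ext; simp
    have h3 : (univ.filter fun l => l ∉ S) = Sᶜ := by ext; simp
    rw [h2, h3, card_compl, Fintype.card_fin, mul_comm]
  simp only [h1]
  rw [← Finset.sum_fiberwise (s := (univ : Finset (Finset (Fin k)))) (g := fun S => ci S)]
  refine sum_congr rfl fun i _ => ?_
  have h4 : ∀ S ∈ univ.filter (fun S : Finset (Fin k) => ci S = i),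
      q (ci S) * (x ^ (k - S.card) * y ^ S.card) = q i * x ^ (k - i) * y ^ (i : ℕ) := by
    intro S hS
    rw [mem_filter] at hS
    have h5 : S.card = (i : ℕ) := by rw [← hS.2]; rfl
    rw [hS.2, h5]
    ring
  rw [sum_congr rfl h4, sum_const, nsmul_eq_mul]
  have h6 : (univ.filter fun S : Finset (Fin k) => ci S = i) = powersetCard i univ := by
    ext S
    simp only [mem_filter, mem_univ, true_and, mem_powersetCard, subset_univ]
    constructor
    · intro h; rw [← h]; rfl
    · intro h; exact Fin.ext h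
  rw [h6, card_powersetCard, card_univ, Fintype.card_fin]
  ring

/-- the value on a pattern of zeros and ones -/
theorem Bf_pattern (q : Fin (k + 1) → R) (S : Finset (Fin k)) :
    Bf q (fun l => if l ∈ S then 0 else 1) (fun l => if l ∈ S then 1 else 0) = q (ci S) := by
  classical
  unfold Bf
  rw [Finset.sum_eq_single S]
  · have h : (∏ l : Fin k, if l ∈ S then (if l ∈ S then (1 : R) else 0) else
        (if l ∈ S then 0 else 1)) = 1 := by
      apply prod_eq_one
      intro l _
      by_cases h : l ∈ S <;> simp [h]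
    rw [h, mul_one]
  · intro S' _ hne
    obtain ⟨l, hl⟩ : ∃ l, ¬ (l ∈ S' ↔ l ∈ S) := by
      by_contra hcon
      push Not at hcon
      exact hne (Finset.ext hcon)
    have h0 : (∏ l : Fin k, if l ∈ S' then (if l ∈ S then (1 : R) else 0) else
        (if l ∈ S then 0 else 1)) = 0 := by
      apply prod_eq_zero (mem_univ l)
      by_cases h1 : l ∈ S' <;> by_cases h2 : l ∈ S <;> simp_all
    rw [h0, mul_zero]
  · simp

theorem Bf_perm (q : Fin (k + 1) → R) (x y : Fin k → R) (σ : Equiv.Perm (Fin k)) :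
    Bf q (fun l => x (σ l)) (fun l => y (σ l)) = Bf q x y := by
  classical
  unfold Bf
  refine Fintype.sum_equiv (Equiv.finsetCongr σ) _ _ fun S => ?_
  have h1 : ci (Equiv.finsetCongr σ S) = ci S := by
    apply Fin.ext
    simp [ci, Equiv.finsetCongr]
  rw [h1]
  congr 1
  refine Fintype.prod_equiv σ _ _ fun l => ?_
  have h2 : σ l ∈ Equiv.finsetCongr σ S ↔ l ∈ S := by
    simp [Equiv.finsetCongr]
  by_cases h : l ∈ S
  · rw [if_pos h, if_pos (h2.2 h)]
  · rw [if_neg h, if_neg (fun h' => h (h2.1 h'))]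

/-- the coefficients after a change of basis -/
def cb (α β γ δ : R) (q : Fin (k + 1) → R) : Fin (k + 1) → R := fun i =>
  Bf q (fun l => if (l : ℕ) < i then β else α) (fun l => if (l : ℕ) < i then δ else γ)

theorem Bf_pat2 (α β γ δ : R) (q : Fin (k + 1) → R) (S : Finset (Fin k)) :
    Bf q (fun l => if l ∈ S then β else α) (fun l => if l ∈ S then δ else γ) =
      cb α β γ δ q (ci S) := by
  classical
  -- a permutation sending the initial segment to `S`
  set I : Finset (Fin k) := univ.filter fun l => (l : ℕ) < S.card with hI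
  have hcard : I.card = S.card := by
    have h0 := card_finset_fin_le S
    have h1 : I = (univ : Finset (Fin S.card)).map (Fin.castLEEmb h0) := by
      ext l
      simp only [hI, mem_filter, mem_univ, true_and, mem_map, Fin.castLEEmb_apply]
      constructor
      · intro h
        exact ⟨⟨l, h⟩, by ext; rfl⟩
      · rintro ⟨a, rfl⟩
        exact a.2
    rw [h1, card_map, card_univ, Fintype.card_fin]
  have e1 : {l // l ∈ I} ≃ {l // l ∈ S} := Finset.equivOfCardEq hcard
  have e2 : {l // ¬ l ∈ I} ≃ {l // ¬ l ∈ S} := by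
    refine Fintype.equivOfCardEq ?_
    rw [Fintype.card_subtype_compl, Fintype.card_subtype_compl]
    simp [hcard]
  set σ : Equiv.Perm (Fin k) := (Equiv.sumCompl (· ∈ I)).symm.trans
    ((Equiv.sumCongr e1 e2).trans (Equiv.sumCompl (· ∈ S))) with hσ
  have hσm : ∀ l, σ l ∈ S ↔ (l : ℕ) < S.card := by
    intro l
    by_cases h : l ∈ I
    · have h1 : σ l = (e1 ⟨l, h⟩ : Fin k) := by
        simp only [hσ, Equiv.trans_apply]
        rw [Equiv.sumCompl_symm_apply_of_pos h]
        simp
      rw [h1]
      refine ⟨fun _ => ?_, fun _ => (e1 ⟨l, h⟩).2⟩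
      simpa [hI] using h
    · have h1 : σ l = (e2 ⟨l, h⟩ : Fin k) := by
        simp only [hσ, Equiv.trans_apply]
        rw [Equiv.sumCompl_symm_apply_of_neg h]
        simp
      rw [h1]
      refine ⟨fun h2 => absurd h2 (e2 ⟨l, h⟩).2, fun h2 => ?_⟩
      exact absurd (by simpa [hI] using h2) h
  rw [← Bf_perm q _ _ σ]
  unfold cb ci
  congr 1 <;> funext l
  · by_cases h : σ l ∈ S
    · rw [if_pos h, if_pos ((hσm l).1 h)]
    · rw [if_neg h, if_neg (fun h' => h ((hσm l).2 h'))]
  · by_cases h : σ l ∈ S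
    · rw [if_pos h, if_pos ((hσm l).1 h)]
    · rw [if_neg h, if_neg (fun h' => h ((hσm l).2 h'))]

/-- change of basis -/
theorem Bf_cb (α β γ δ : R) (q : Fin (k + 1) → R) (x y : Fin k → R) :
    Bf q (fun l => α * x l + β * y l) (fun l => γ * x l + δ * y l) = Bf (cb α β γ δ q) x y := by
  classical
  have h1 : ∀ S : Finset (Fin k), (∏ l, if l ∈ S then γ * x l + δ * y l else α * x l + β * y l) =
      ∑ S' : Finset (Fin k), (∏ l, if l ∈ S' then y l else x l) *
        ∏ l, (if l ∈ S then (if l ∈ S' then δ else γ) else (if l ∈ S' then β else α)) := by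
    intro S
    have h2 : ∀ l, (if l ∈ S then γ * x l + δ * y l else α * x l + β * y l) =
        (if l ∈ S then δ else β) * y l + (if l ∈ S then γ else α) * x l := by
      intro l
      by_cases h : l ∈ S <;> simp [h] <;> ring
    simp only [h2]
    rw [Finset.prod_add]
    rw [Finset.powerset_univ]
    refine sum_congr rfl fun S' _ => ?_
    rw [← Finset.prod_mul_distrib, ← Finset.prod_mul_prod_compl S', Finset.compl_eq_univ_sdiff]
    congr 1
    · refine prod_congr rfl fun l hl => ?_
      rw [if_pos hl]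
      by_cases h : l ∈ S <;> simp [h, hl] <;> ring
    · refine prod_congr rfl fun l hl => ?_
      have hl' : l ∉ S' := by simpa using hl
      rw [if_neg hl']
      by_cases h : l ∈ S <;> simp [h, hl'] <;> ring
  conv_lhs => unfold Bf
  simp only [h1, mul_sum]
  rw [sum_comm]
  conv_rhs => unfold Bf
  refine sum_congr rfl fun S' _ => ?_
  rw [← Bf_pat2]
  unfold Bf
  rw [sum_mul]
  refine sum_congr rfl fun S _ => ?_
  ring

theorem T_cb (α β γ δ : R) (v w : Fin N → R) (q : Fin m → Fin (k + 1) → R) :
    T (fun i => α * v i + β * w i) (fun i => γ * v i + δ * w i) q =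
      T v w (fun j => cb α β γ δ (q j)) := by
  funext p
  rw [T_eq, T_eq]
  exact Bf_cb α β γ δ (q p.1) (fun l => v (p.2 l)) (fun l => w (p.2 l))

theorem fv_cb (α β γ δ : R) (q : Fin (k + 1) → R) (x y : R) :
    fv (cb α β γ δ q) x y = fv q (α * x + β * y) (γ * x + δ * y) := by
  rw [← Bf_const, ← Bf_const]
  exact (Bf_cb α β γ δ q (fun _ => x) (fun _ => y)).symm

/-- evaluation of the tensor at functionals -/
theorem T_eval (v w : Fin N → R) (q : Fin m → Fin (k + 1) → R) (j : Fin m)
    (ζ : Fin k → Fin N → R) :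
    ∑ f : Fin k → Fin N, T v w q (j, f) * ∏ l, ζ l (f l) =
      Bf (q j) (fun l => ∑ i, v i * ζ l i) (fun l => ∑ i, w i * ζ l i) := by
  classical
  unfold T Bf
  simp only [sum_mul]
  rw [sum_comm]
  refine sum_congr rfl fun S _ => ?_
  have h1 : ∀ f : Fin k → Fin N, q j (ci S) * (∏ l, if l ∈ S then w (f l) else v (f l)) *
      ∏ l, ζ l (f l) = q j (ci S) * ∏ l, ((if l ∈ S then w (f l) else v (f l)) * ζ l (f l)) := by
    intro f
    rw [prod_mul_distrib]
    ring
  simp only [h1]
  rw [← mul_sum]
  congr 1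
  have h2 := Finset.prod_univ_sum (fun _ : Fin k => (univ : Finset (Fin N)))
    (fun l i => (if l ∈ S then w i else v i) * ζ l i)
  rw [Fintype.piFinset_univ] at h2
  rw [← h2]
  refine prod_congr rfl fun l _ => ?_
  by_cases h : l ∈ S
  · simp [h]
  · simp [h]

/-- the coefficients are values at dual vectors -/
theorem q_eq (v w : Fin N → R) (q : Fin m → Fin (k + 1) → R) (j : Fin m) (S : Finset (Fin k))
    (ξ η : Fin N → R) (h1 : ∑ i, v i * ξ i = 1) (h2 : ∑ i, w i * ξ i = 0)
    (h3 : ∑ i, v i * η i = 0) (h4 : ∑ i, w i * η i = 1) :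
    q j (ci S) = ∑ f : Fin k → Fin N, T v w q (j, f) * ∏ l, (if l ∈ S then η (f l) else ξ (f l)) := by
  classical
  have h := T_eval v w q j (fun l => if l ∈ S then η else ξ)
  have h5 : ∀ f : Fin k → Fin N, (∏ l, (if l ∈ S then η else ξ) (f l)) =
      ∏ l, (if l ∈ S then η (f l) else ξ (f l)) := by
    intro f
    refine prod_congr rfl fun l _ => ?_
    by_cases h : l ∈ S <;> simp [h]
  simp only [h5] at h
  rw [h, ← Bf_pattern (q j) S]
  congr 1 <;> funext l
  · by_cases h : l ∈ S
    · simp [h, h3]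
    · simp [h, h1]
  · by_cases h : l ∈ S
    · simp [h, h4]
    · simp [h, h2]

theorem exists_ci (i : Fin (k + 1)) : ∃ S : Finset (Fin k), ci S = i := by
  have h : (i : ℕ) ≤ (univ : Finset (Fin k)).card := by
    rw [card_univ, Fintype.card_fin]
    have := i.2
    omega
  obtain ⟨S, _, hS⟩ := Finset.exists_subset_card_eq h
  exact ⟨S, Fin.ext hS⟩

/-- homogeneity -/
theorem T_smul (a b c : R) (v w : Fin N → R) (q : Fin m → Fin (k + 1) → R) :
    T (fun i => a * v i) (fun i => b * w i) (fun j i => c * q j i) = fun p =>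
      ∑ S : Finset (Fin k), c * (a ^ (k - S.card) * b ^ S.card) *
        (q p.1 (ci S) * ∏ l, if l ∈ S then w (p.2 l) else v (p.2 l)) := by
  classical
  funext p
  unfold T
  refine sum_congr rfl fun S _ => ?_
  have h1 : (∏ l, if l ∈ S then b * w (p.2 l) else a * v (p.2 l)) =
      (a ^ (k - S.card) * b ^ S.card) * ∏ l, if l ∈ S then w (p.2 l) else v (p.2 l) := by
    have h2 : ∀ l, (if l ∈ S then b * w (p.2 l) else a * v (p.2 l)) =
        (if l ∈ S then b else a) * (if l ∈ S then w (p.2 l) else v (p.2 l)) := by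
      intro l
      by_cases h : l ∈ S <;> simp [h]
    simp only [h2]
    rw [prod_mul_distrib]
    congr 1
    rw [prod_ite, prod_const, prod_const]
    have h2 : (univ.filter fun l => l ∈ S) = S := by ext; simp
    have h3 : (univ.filter fun l => l ∉ S) = Sᶜ := by ext; simp
    rw [h2, h3, card_compl, Fintype.card_fin, mul_comm]
  rw [h1]
  ring

theorem T_smul' (a c : R) (v w : Fin N → R) (q : Fin m → Fin (k + 1) → R) :
    T (fun i => a * v i) (fun i => a * w i) (fun j i => c * q j i) = fun p =>
      (c * a ^ k) * T v w q p := by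
  rw [T_smul]
  funext p
  unfold T
  rw [mul_sum]
  refine sum_congr rfl fun S _ => ?_
  have h1 : a ^ (k - S.card) * a ^ S.card = a ^ k := by
    rw [← pow_add]
    congr 1
    have := card_finset_fin_le S
    omega
  rw [h1]

end Pool.Agent.K6.H78.MF
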