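import Pool.Agent.K6.H78.MF.Pts

/-!
The real part of the height.
-/

set_option autoImplicit false
set_option linter.unusedSectionVars false
set_option linter.deprecated false
set_option linter.unusedVariables false

namespace Pool.Agent.K6.H78.MF

open Finset Filter Topology

variable {k m N : ℕ}

/-- pairs of nonzero vectors which give points over `K` -/
def Cn (k m N : ℕ) (K : Type*) [Field K] :
    Set ((Fin N × Fin N → K) × (Fin m × (Fin k → Fin N) → K)) :=
  {x | x.1 ≠ 0 ∧ x.2 ≠ 0 ∧ ∃ (v w : Fin N → K) (q : Fin m → Fin (k + 1) → K),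
    x.1 = pl v w ∧ x.2 = T v w q}

/-- local factors -/
structure LF (k m N : ℕ) {K : Type*} [NormedField K]
    (φ : (Fin N × Fin N → K) → (Fin m × (Fin k → Fin N) → K) → ℝ) : Prop where
  continuous : ContinuousOn
    (fun x : (Fin N × Fin N → K) × (Fin m × (Fin k → Fin N) → K) => φ x.1 x.2) (Cn k m N K)
  positive : ∀ x ∈ Cn k m N K, 0 < φ x.1 x.2
  invariant : ∀ x ∈ Cn k m N K, ∀ s t : K, s ≠ 0 → t ≠ 0 → φ (s • x.1) (t • x.2) = φ x.1 x.2

theorem T_ne {K : Type*} [Field K] {v w : Fin N → K} (h : pl v w ≠ 0)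
    {q : Fin m → Fin (k + 1) → K} (hq : q ≠ 0) : T v w q ≠ 0 := by
  classical
  obtain ⟨⟨a, b⟩, hab⟩ := Function.ne_iff.1 h
  have hD : v a * w b - v b * w a ≠ 0 := hab
  have hne : a ≠ b := by
    rintro rfl
    apply hD
    ring
  set D := v a * w b - v b * w a with hDdef
  have hs : ∀ (x : Fin N → K) (s t : K),
      ∑ i, x i * ((Pi.single a s + Pi.single b t : Fin N → K) i) = x a * s + x b * t := by
    intro x s t
    simp only [Pi.add_apply, mul_add, sum_add_distrib]
    rw [Finset.sum_eq_single a, Finset.sum_eq_single b]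
    · simp
    · intro i _ hi; simp [hi]
    · simp
    · intro i _ hi; simp [hi]
    · simp
  obtain ⟨j, hj⟩ := Function.ne_iff.1 hq
  obtain ⟨i, hi⟩ := Function.ne_iff.1 hj
  obtain ⟨S, hS⟩ := exists_ci i
  intro h0
  apply hi
  rw [← hS, q_eq v w q j S (Pi.single a (w b / D) + Pi.single b (-(w a / D)))
    (Pi.single a (-(v b / D)) + Pi.single b (v a / D))]
  · rw [h0]
    simp
  · rw [hs]
    field_simp
    rw [hDdef]
    ring
  · rw [hs]
    ring
  · rw [hs]
    ring
  · rw [hs]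
    field_simp
    rw [hDdef]
    ring

section top

variable {R : Type*} [CommRing R] [TopologicalSpace R] [IsTopologicalRing R]

theorem cont_pl' : Continuous fun u : Ix k m N → R => pl (V u) (W u) := by
  unfold pl V W
  fun_prop

theorem cont_T' : Continuous fun u : Ix k m N → R => T (V u) (W u) (Qc u) := by
  classical
  refine continuous_pi fun p => ?_
  unfold T
  refine continuous_finset_sum _ fun S _ => ?_
  refine Continuous.mul ?_ (continuous_finset_prod _ fun l _ => ?_)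
  · unfold Qc
    exact continuous_apply _
  · by_cases hl : l ∈ S
    · simp only [hl, if_true]
      unfold W
      exact continuous_apply _
    · simp only [hl, if_false]
      unfold V
      exact continuous_apply _

end top

theorem Qc_ne {K : Type*} [Field K] {u : Ix k m N → K}
    (h : (fun ji : Fin m × Fin (k + 1) => Qc u ji.1 ji.2) ≠ 0) : Qc u ≠ 0 := by
  intro h0
  apply h
  funext ji
  rw [h0]
  rfl

theorem mem_Cn {K : Type*} [Field K] {v w : Fin N → K} {q : Fin m → Fin (k + 1) → K}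
    (h : pl v w ≠ 0) (hq : q ≠ 0) : (pl v w, T v w q) ∈ Cn k m N K :=
  ⟨h, T_ne h hq, v, w, q, rfl, rfl⟩

theorem pl_ne_of_Gm {v w : Fin N → ℝ} (h : 0 < Gm v w) : pl v w ≠ 0 := by
  intro h0
  have h1 := lagrange v w
  rw [h0] at h1
  simp at h1
  linarith

theorem Om_mem {u : Ix k m N → ℝ} (h : u ∈ Om k m N) :
    (pl (V u) (W u), T (V u) (W u) (Qc u)) ∈ Cn k m N ℝ :=
  mem_Cn (pl_ne_of_Gm h.1) (Qc_ne h.2)

/-- the compact set of orthonormal triples -/
def Kc (k m N : ℕ) : Set (Ix k m N → ℝ) :=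
  {u | sq (V u) = 1 ∧ sq (W u) = 1 ∧ bl (V u) (W u) = 0 ∧ ‖Qv u‖ = 1}

theorem Kc_compact : IsCompact (Kc k m N) := by
  refine Metric.isCompact_of_isClosed_isBounded ?_ ?_
  · have e : Kc k m N = {u | sq (V u) = 1} ∩ {u | sq (W u) = 1} ∩ {u | bl (V u) (W u) = 0} ∩
        {u | ‖Qv u‖ = 1} := by
      ext u
      simp only [Kc, Set.mem_setOf_eq, Set.mem_inter_iff]
      tauto
    rw [e]
    exact (((isClosed_eq cont_sqV continuous_const).inter
      (isClosed_eq cont_sqW continuous_const)).inter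
      (isClosed_eq cont_bl continuous_const)).inter (isClosed_eq cont_Qv.norm continuous_const)
  · rw [isBounded_iff_forall_norm_le]
    refine ⟨1, fun u hu => ?_⟩
    obtain ⟨h1, h2, _, h4⟩ := hu
    rw [pi_norm_le_iff_of_nonneg zero_le_one]
    intro i
    rw [Real.norm_eq_abs]
    rcases i with (i | i) | ji
    · have h5 := abs_le_nv (V u) i
      unfold nv at h5
      rw [h1, Real.sqrt_one] at h5
      exact h5
    · have h5 := abs_le_nv (W u) i
      unfold nv at h5
      rw [h2, Real.sqrt_one] at h5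
      exact h5
    · have h3 := (norm_le_pi_norm (Qv u) ji).trans h4.le
      rw [Real.norm_eq_abs] at h3
      exact h3

theorem Kc_sub : Kc k m N ⊆ Om k m N := by
  rintro u ⟨h1, h2, h3, h4⟩
  refine ⟨?_, ?_⟩
  · unfold Gm
    rw [h1, h2, h3]
    norm_num
  · intro h0
    rw [h0, norm_zero] at h4
    norm_num at h4

/-- orthonormal bases -/
theorem exists_Kc {u : Ix k m N → ℝ} (h : u ∈ Om k m N) : ∃ u' ∈ Kc k m N, ∃ s t : ℝ, s ≠ 0 ∧
    t ≠ 0 ∧ pl (V u) (W u) = s • pl (V u') (W u') ∧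
    T (V u) (W u) (Qc u) = t • T (V u') (W u') (Qc u') := by
  classical
  obtain ⟨hG, hQ⟩ := h
  set v := V u with hv
  set w := W u with hw
  have hsv : 0 < sq v := by
    rcases (sq_nonneg' v).lt_or_eq with h3 | h3
    · exact h3
    · exfalso
      have h4 := Gm_le v w
      rw [← h3, zero_mul] at h4
      linarith
  set a := nv v with ha
  have ha0 : 0 < a := nv_pos hsv
  have ha2 : a ^ 2 = sq v := nv_sq v
  set b := Real.sqrt (Gm v w / sq v) with hb
  have hb0 : 0 < b := Real.sqrt_pos.2 (by positivity)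
  have hb2 : b ^ 2 = Gm v w / sq v := Real.sq_sqrt (by positivity)
  set v' : Fin N → ℝ := fun i => a⁻¹ * v i + 0 * w i with hv'
  set w' : Fin N → ℝ := fun i => (-(bl v w) / (sq v * b)) * v i + b⁻¹ * w i with hw'
  have e1 : sq v' = 1 := by
    rw [hv', sq_comb, ← ha2]
    field_simp
    ring
  have e3 : bl v' w' = 0 := by
    rw [hv', hw', bl_comb]
    field_simp
    ring
  have e2 : sq w' = 1 := by
    rw [hw', sq_comb]
    have h1 : (-(bl v w) / (sq v * b)) ^ 2 * sq v + 2 * (-(bl v w) / (sq v * b)) * b⁻¹ * bl v w +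
        b⁻¹ ^ 2 * sq w = (Gm v w / sq v) / b ^ 2 := by
      unfold Gm
      field_simp
      ring
    rw [h1, hb2]
    exact div_self (by positivity)
  have hv2 : v = fun i => a * v' i + 0 * w' i := by
    funext i
    rw [hv']
    field_simp
    ring
  have hw2 : w = fun i => (bl v w / a) * v' i + b * w' i := by
    funext i
    rw [hv', hw']
    simp only
    have h1 : bl v w / a * (a⁻¹ * v i + 0 * w i) = bl v w / sq v * v i := by
      rw [← ha2]
      field_simp
      ring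
    rw [h1]
    field_simp
    ring
  set q₁ : Fin m → Fin (k + 1) → ℝ := fun j => cb a 0 (bl v w / a) b (Qc u j) with hq₁
  have hT₁ : T v w (Qc u) = T v' w' q₁ := by
    rw [hq₁, ← T_cb, ← hv2, ← hw2]
  have hp₁ : pl v w = fun p => (a * b) * pl v' w' p := by
    conv_lhs => rw [hv2, hw2]
    rw [pl_comb]
    funext p
    ring
  have hTne : T v w (Qc u) ≠ 0 := T_ne (pl_ne_of_Gm hG) (Qc_ne hQ)
  have hq₁0 : (fun ji : Fin m × Fin (k + 1) => q₁ ji.1 ji.2) ≠ 0 := by
    intro h0
    apply hTne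
    rw [hT₁]
    have h1 : q₁ = 0 := by
      funext j i
      exact congrFun h0 (j, i)
    rw [h1]
    funext p
    unfold T
    simp
  set c := ‖(fun ji : Fin m × Fin (k + 1) => q₁ ji.1 ji.2)‖ with hc
  have hc0 : 0 < c := norm_pos_iff.2 hq₁0
  refine ⟨glue v' w' (c⁻¹ • fun ji : Fin m × Fin (k + 1) => q₁ ji.1 ji.2), ⟨e1, e2, e3, ?_⟩,
    a * b, c, by positivity, hc0.ne', ?_, ?_⟩
  · rw [glue_Qv, norm_smul, norm_inv, Real.norm_eq_abs, abs_of_pos hc0, ← hc]
    exact inv_mul_cancel₀ hc0.ne'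
  · rw [glue_V, glue_W, hp₁]
    rfl
  · rw [glue_V, glue_W, hT₁]
    have h1 : Qc (glue v' w' (c⁻¹ • fun ji : Fin m × Fin (k + 1) => q₁ ji.1 ji.2)) =
        fun j i => c⁻¹ * q₁ j i := rfl
    rw [h1, T_smulq]
    funext p
    rw [Pi.smul_apply, smul_eq_mul]
    field_simp

/-- the real part of the height -/
noncomputable def Ph (e : ℕ) (φ : (Fin N × Fin N → ℝ) → (Fin m × (Fin k → Fin N) → ℝ) → ℝ)
    (u : Ix k m N → ℝ) : ℝ :=
  ‖pl (V u) (W u)‖ ^ e * ‖T (V u) (W u) (Qc u)‖ ^ (m * (k + 1)) *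
    φ (pl (V u) (W u)) (T (V u) (W u) (Qc u))

theorem RH_of_LF {e : ℕ} (he : 2 * N = 2 * e + m * k * (k + 1))
    {φ : (Fin N × Fin N → ℝ) → (Fin m × (Fin k → Fin N) → ℝ) → ℝ} (h : LF k m N φ) :
    RH k m N e (Ph e φ) := by
  have hcomp : ContinuousOn (fun u : Ix k m N → ℝ => φ (pl (V u) (W u)) (T (V u) (W u) (Qc u)))
      (Om k m N) := by
    have h1 := h.continuous.comp (f := fun u : Ix k m N → ℝ => (pl (V u) (W u),
      T (V u) (W u) (Qc u))) (s := Om k m N) (cont_pl'.prodMk cont_T').continuousOn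
      (fun u hu => Om_mem hu)
    exact h1
  refine ⟨?_, ?_, ?_, ?_⟩
  · exact (((cont_pl' (k := k) (m := m) (N := N) (R := ℝ)).norm.pow e).mul
      ((cont_T' (R := ℝ)).norm.pow _)).continuousOn.mul hcomp
  · intro u hu
    have h1 := Om_mem hu
    have h2 := norm_pos_iff.2 h1.1
    have h3 := norm_pos_iff.2 h1.2.1
    have h4 := h.positive _ h1
    simp only at h2 h3 h4
    unfold Ph
    positivity
  · intro a b ha hb u hu
    have h1 := Om_mem hu
    have e1 : pl (V (sc a b u)) (W (sc a b u)) = (a ^ 2) • pl (V u) (W u) := by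
      rw [V_sc, W_sc]
      funext p
      unfold pl
      rw [Pi.smul_apply, smul_eq_mul]
      ring
    have e2 : T (V (sc a b u)) (W (sc a b u)) (Qc (sc a b u)) =
        (b * a ^ k) • T (V u) (W u) (Qc u) := by
      rw [V_sc, W_sc, Qc_sc, T_smul']
      rfl
    have h2 := h.invariant _ h1 (a ^ 2) (b * a ^ k) (by positivity) (by positivity)
    simp only at h2
    unfold Ph
    rw [e1, e2, h2, norm_smul, norm_smul, Real.norm_eq_abs, Real.norm_eq_abs,
      abs_of_pos (by positivity : (0 : ℝ) < a ^ 2), abs_of_pos (by positivity : (0 : ℝ) < b * a ^ k),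
      mul_pow, mul_pow, mul_pow, ← pow_mul, ← pow_mul]
    have h3 : a ^ (2 * N) = a ^ (2 * e) * a ^ (k * (m * (k + 1))) := by
      rw [← pow_add, he]
      congr 1
      ring
    rw [h3]
    ring
  · obtain ⟨κ, hκ, hκ'⟩ : ∃ κ : ℝ, 0 < κ ∧ ∀ u ∈ Kc k m N,
        κ ≤ φ (pl (V u) (W u)) (T (V u) (W u) (Qc u)) := by
      by_cases hne : (Kc k m N).Nonempty
      · obtain ⟨u₀, hu₀, hmin⟩ := Kc_compact.exists_isMinOn hne (hcomp.mono Kc_sub)
        exact ⟨_, h.positive _ (Om_mem (Kc_sub hu₀)), fun u hu => hmin hu⟩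
      · exact ⟨1, one_pos, fun u hu => absurd ⟨u, hu⟩ hne⟩
    refine ⟨κ, hκ, fun u hu => ?_⟩
    obtain ⟨u', hu', s, t, hs, ht, e1, e2⟩ := exists_Kc hu
    have h1 := h.invariant _ (Om_mem (Kc_sub hu')) s t hs ht
    simp only at h1
    have h2 := hκ' u' hu'
    rw [← h1, ← e1, ← e2] at h2
    unfold Ph
    have h3 : 0 ≤ ‖pl (V u) (W u)‖ ^ e * ‖T (V u) (W u) (Qc u)‖ ^ (m * (k + 1)) := by positivity
    calc κ * (‖T (V u) (W u) (Qc u)‖ ^ (m * (k + 1)) * ‖pl (V u) (W u)‖ ^ e) =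
        ‖pl (V u) (W u)‖ ^ e * ‖T (V u) (W u) (Qc u)‖ ^ (m * (k + 1)) * κ := by ring
      _ ≤ _ := mul_le_mul_of_nonneg_left h2 h3

end Pool.Agent.K6.H78.MF
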