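import Pool.Agent.K6.H78.MF.Low
import Pool.Agent.Y288.KE.Abs

/-!
The number of representatives of bounded height.
-/

set_option autoImplicit false
set_option linter.unusedSectionVars false
set_option linter.deprecated false
set_option linter.unusedVariables false

namespace Pool.Agent.K6.H78.MF

open Finset MeasureTheory Filter Topology

variable {k m N : ℕ}

/-- the weights -/
noncomputable def wt (k m N : ℕ) : Fin 2 → ℝ := ![((m * (k + 1) : ℕ) : ℝ) / 2, (N : ℝ)]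

/-- the sides -/
def aa : Fin 2 → Fin 2 → ℝ := fun l i => if l = i then 1 else 0

theorem aa_sum (l : Fin 2) (y : Fin 2 → ℝ) : ∑ i, aa l i * y i = y l := by
  unfold aa
  fin_cases l <;> simp [Fin.sum_univ_two]

open Pool.Agent.Y714.KE in
theorem yy_one (k₁ : Fin 2 → ℤ) (t : ℝ) : yy (wt k m N) 0 k₁ t 1 = (k₁ 1 : ℝ) := by
  unfold yy
  simp

open Pool.Agent.Y714.KE in
theorem yy_zero (k₁ : Fin 2 → ℤ) (t : ℝ) : yy (wt k m N) 0 k₁ t 0 =
    ((1 / 2) * Real.log t - N * (k₁ 1 : ℝ)) / (((m * (k + 1) : ℕ) : ℝ) / 2) := by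
  unfold yy
  have h : (univ : Finset (Fin 2)).erase 0 = {1} := by decide
  rw [if_pos rfl, h, sum_singleton]
  simp [wt]

open Pool.Agent.Y714.KE in
theorem yy_t (hm : 1 ≤ m) (k₁ : Fin 2 → ℤ) {t : ℝ} (ht : 0 < t) :
    Real.exp (k₁ 1 : ℝ) ^ (2 * N) * Real.exp (yy (wt k m N) 0 k₁ t 0) ^ (m * (k + 1)) = t := by
  rw [yy_zero, ← Real.exp_nat_mul, ← Real.exp_nat_mul, ← Real.exp_add]
  have hR : (0 : ℝ) < ((m * (k + 1) : ℕ) : ℝ) := by
    exact_mod_cast Nat.mul_pos hm (by omega)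
  have h : ((2 * N : ℕ) : ℝ) * (k₁ 1 : ℝ) + ((m * (k + 1) : ℕ) : ℝ) *
      (((1 / 2) * Real.log t - N * (k₁ 1 : ℝ)) / (((m * (k + 1) : ℕ) : ℝ) / 2)) = Real.log t := by
    field_simp
    push_cast
    ring
  rw [h, Real.exp_log ht]

/-- the index of the cell -/
noncomputable def ix (z : Ix k m N → ℤ) : ℤ := ⌊Real.log (Gm (cr (V z)) (cr (W z))) / 4⌋

theorem ix_iff {z : Ix k m N → ℤ} (h : GG z) (n : ℤ) :
    ix z = n ↔ Real.exp (n : ℝ) ^ 4 ≤ Gm (cr (V z)) (cr (W z)) ∧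
      Gm (cr (V z)) (cr (W z)) < Real.exp 4 * Real.exp (n : ℝ) ^ 4 := by
  have hG : 0 < Gm (cr (V z)) (cr (W z)) := by
    rw [Gm_cr]
    have := h.gm
    exact_mod_cast (by omega : 0 < Gm (V z) (W z))
  unfold ix
  rw [Int.floor_eq_iff, le_div_iff₀ (by norm_num), div_lt_iff₀ (by norm_num),
    Real.le_log_iff_exp_le hG, Real.log_lt_iff_lt_exp hG, ← Real.exp_nat_mul, ← Real.exp_add]
  have e1 : ((4 : ℕ) : ℝ) * (n : ℝ) = (n : ℝ) * 4 := by push_cast; ring
  have e2 : ((n : ℝ) + 1) * 4 = 4 + (n : ℝ) * 4 := by ring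
  rw [e1, e2]

/-- the asymptotic formula for sets of representatives -/
theorem asm {e : ℕ} (he : 2 * N = 2 * e + m * k * (k + 1)) (hkm : 2 ≤ k * m) (hm : 1 ≤ m)
    (hN : 3 ≤ N) {Φ : (Ix k m N → ℝ) → ℝ} (hΦ : RH k m N e Φ) {S₀ : Finset ℕ}
    {f : (Ix k m N → ℤ) → ℝ} (hf : FH k m N S₀ f) (hSI : SI Φ f) {RR : Set (Ix k m N → ℤ)}
    (hR : Reps RR) : ∃ c : ℝ, 0 < c ∧
      Tendsto (fun B : ℝ => ({z | z ∈ RR ∧ Φ (cr z) * f z ≤ B}.ncard : ℝ) / (B * Real.log B))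
        atTop (𝓝 c) := by
  classical
  have hR1 : 1 ≤ m * (k + 1) := Nat.mul_pos hm (by omega)
  have hR0 : (0 : ℝ) < ((m * (k + 1) : ℕ) : ℝ) := by exact_mod_cast hR1
  have hN0 : (0 : ℝ) < N := by exact_mod_cast (by omega : 0 < N)
  have hw : ∀ i, 0 < wt k m N i := by
    intro i
    fin_cases i
    · show (0 : ℝ) < ((m * (k + 1) : ℕ) : ℝ) / 2
      positivity
    · exact hN0
  obtain ⟨Vp, hVp, habs⟩ := Pool.Agent.Y288.KE.abs Pool.Agent.Y592.KE.LPC.lpc (Fin 2) (Fin 2) 0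
    (wt k m N) aa hw (by
      refine ⟨1 / (2 * wt k m N 0) + 1 / (2 * wt k m N 1), fun y hy hl i => ?_⟩
      have h0 : 0 ≤ y 0 := by
        have := hl 0
        rwa [aa_sum] at this
      have h1 : 0 ≤ y 1 := by
        have := hl 1
        rwa [aa_sum] at this
      rw [Fin.sum_univ_two] at hy
      have w0 := hw 0
      have w1 := hw 1
      have a0 : 0 ≤ wt k m N 0 * y 0 := by positivity
      have a1 : 0 ≤ wt k m N 1 * y 1 := by positivity
      have b0 : y 0 ≤ 1 / (2 * wt k m N 0) := by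
        rw [le_div_iff₀ (by positivity)]
        linarith
      have b1 : y 1 ≤ 1 / (2 * wt k m N 1) := by
        rw [le_div_iff₀ (by positivity)]
        linarith
      have c0 : 0 < 1 / (2 * wt k m N 0) := by positivity
      have c1 : 0 < 1 / (2 * wt k m N 1) := by positivity
      fin_cases i
      · show |y 0| ≤ _
        rw [abs_of_nonneg h0]
        linarith
      · show |y 1| ≤ _
        rw [abs_of_nonneg h1]
        linarith) (by
      refine ⟨![1 / (4 * wt k m N 0), 1 / (4 * wt k m N 1)], ?_, fun l => ?_⟩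
      · have w0 := hw 0
        have w1 := hw 1
        rw [Fin.sum_univ_two]
        simp only [Matrix.cons_val_zero, Matrix.cons_val_one]
        field_simp
        norm_num
      · rw [aa_sum]
        have w0 := hw 0
        have w1 := hw 1
        fin_cases l
        · show 0 < 1 / (4 * wt k m N 0)
          positivity
        · show 0 < 1 / (4 * wt k m N 1)
          positivity)
  obtain ⟨C, hC, hcc⟩ := cell_crude he hm (by omega) hΦ hf hR
  obtain ⟨c₀, L₀, hc₀, hL₀, hlow⟩ := cell_lower he hkm hm hN hΦ hf hSI hR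
  set F : (Fin 2 → ℤ) → ℝ → ℝ := fun k₁ t =>
    ((Fs RR Φ f (Real.exp (k₁ 1 : ℝ))
      (Real.exp (Pool.Agent.Y714.KE.yy (wt k m N) 0 k₁ t 0))).ncard : ℝ) with hF
  -- uniform statement about cells
  have hcells : ∀ L : ℝ, 0 < L → ∀ ε : ℝ, 0 < ε → ∃ t₀ : ℝ, 1 ≤ t₀ ∧ ∀ t, t₀ ≤ t → ∀ k₁ : Fin 2 → ℤ,
      (∀ l, ε * Real.log t ≤ ∑ i, aa l i * Pool.Agent.Y714.KE.yy (wt k m N) 0 k₁ t i) →
      L ≤ Real.exp (k₁ 1 : ℝ) ∧
      L ≤ Real.exp (Pool.Agent.Y714.KE.yy (wt k m N) 0 k₁ t 0) := by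
    intro L hL ε hε
    refine ⟨max 1 (Real.exp (Real.log L / ε)), le_max_left _ _, fun t ht k₁ hk => ?_⟩
    have ht1 : 1 ≤ t := (le_max_left _ _).trans ht
    have ht0 : 0 < t := by linarith
    have h1 : Real.log L / ε ≤ Real.log t := by
      rw [Real.le_log_iff_exp_le ht0]
      exact (le_max_right _ _).trans ht
    rw [div_le_iff₀ hε] at h1
    have h2 := hk 0
    have h3 := hk 1
    rw [aa_sum] at h2 h3
    rw [yy_one] at h3
    constructor
    · rw [← Real.exp_log hL]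
      exact Real.exp_le_exp.2 (by linarith)
    · rw [← Real.exp_log hL]
      exact Real.exp_le_exp.2 (by linarith)
  have hlim : ∀ η : ℝ, 0 < η → ∃ ℓ : ℝ, c₀ - η ≤ ℓ ∧ ∀ ε : ℝ, 0 < ε → ∃ t₀ : ℝ, ∀ t, t₀ ≤ t →
      ∀ k₁ : Fin 2 → ℤ, k₁ 0 = 0 →
      (∀ l, ε * Real.log t ≤ ∑ i, aa l i * Pool.Agent.Y714.KE.yy (wt k m N) 0 k₁ t i) →
      |F k₁ t / t - ℓ| ≤ η := by
    intro η hη
    obtain ⟨ℓ, L, hL, h⟩ := cell_limit he hkm hm hN hΦ hf hSI hR η hη
    refine ⟨ℓ, ?_, fun ε hε => ?_⟩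
    · have h1 := h (max L L₀) (max L L₀) (le_max_left _ _) (le_max_left _ _)
      have h2 := hlow (max L L₀) (max L L₀) (le_max_right _ _) (le_max_right _ _)
      have h3 : 0 < max L L₀ ^ (2 * N) * max L L₀ ^ (m * (k + 1)) := by positivity
      rw [← le_div_iff₀ h3] at h2
      have h4 := (abs_le.1 h1).2
      linarith
    · obtain ⟨t₀, ht₀, ht⟩ := hcells L hL ε hε
      refine ⟨t₀, fun t htt k₁ hk0 hk => ?_⟩
      obtain ⟨h1, h2⟩ := ht t htt k₁ hk
      have h3 := h _ _ h1 h2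
      rw [yy_t hm k₁ (by linarith : 0 < t)] at h3
      exact h3
  obtain ⟨c, hc0, hc1, hc2⟩ := habs F (max C (Real.log C)) (fun _ _ => Nat.cast_nonneg _) (by
      intro k₁ t ht
      have h1 := (hcc (Real.exp (k₁ 1 : ℝ)) (Real.exp (Pool.Agent.Y714.KE.yy (wt k m N) 0 k₁ t 0))
        (Real.exp_pos _) (Real.exp_pos _)).2.1
      rw [yy_t hm k₁ (by linarith : 0 < t)] at h1
      exact h1.trans (mul_le_mul_of_nonneg_right (le_max_left _ _) (by linarith))) (by
      intro k₁ t ht hne l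
      have h1 := (hcc (Real.exp (k₁ 1 : ℝ)) (Real.exp (Pool.Agent.Y714.KE.yy (wt k m N) 0 k₁ t 0))
        (Real.exp_pos _) (Real.exp_pos _)).2.2
      have h2 : (Fs RR Φ f (Real.exp (k₁ 1 : ℝ))
          (Real.exp (Pool.Agent.Y714.KE.yy (wt k m N) 0 k₁ t 0))).Nonempty := by
        rw [Set.nonempty_iff_ne_empty]
        intro h0
        apply hne
        rw [hF]
        simp only
        rw [h0, Set.ncard_empty, Nat.cast_zero]
      obtain ⟨h3, h4⟩ := h1 h2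
      have hlog : ∀ x : ℝ, 1 ≤ C * Real.exp x → -Real.log C ≤ x := by
        intro x hx
        have h5 := Real.log_le_log one_pos hx
        rw [Real.log_one, Real.log_mul hC.ne' (Real.exp_pos _).ne', Real.log_exp] at h5
        linarith
      have h5 := hlog _ h3
      have h6 := hlog _ h4
      have h7 : Real.log C ≤ max C (Real.log C) := le_max_right _ _
      rw [aa_sum]
      fin_cases l
      · show _ ≤ Pool.Agent.Y714.KE.yy (wt k m N) 0 k₁ t 0
        linarith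
      · show _ ≤ Pool.Agent.Y714.KE.yy (wt k m N) 0 k₁ t 1
        rw [yy_one]
        linarith) (by
      intro η hη
      obtain ⟨ℓ, _, h⟩ := hlim η hη
      exact ⟨ℓ, h⟩)
  have hcpos : 0 < c := by
    obtain ⟨ℓ, hℓ, h⟩ := hlim (c₀ / 4) (by positivity)
    have h1 := hc1 (c₀ / 4) ℓ (by positivity) h
    have h2 := (abs_le.1 h1).1
    linarith
  refine ⟨c * Vp, by positivity, ?_⟩
  refine hc2.congr' ?_
  filter_upwards [eventually_ge_atTop 1] with t ht
  have ht0 : 0 < t := by linarith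
  have hcard : Fintype.card (Fin 2) - 1 = 1 := rfl
  rw [hcard, pow_one]
  congr 1
  -- the partition
  set A : Set (Ix k m N → ℤ) := {z | z ∈ RR ∧ Φ (cr z) * f z ≤ t} with hA
  have hmem : ∀ (n : ℤ) (z : Ix k m N → ℤ), z ∈ Fs RR Φ f (Real.exp (n : ℝ))
      (Real.exp (Pool.Agent.Y714.KE.yy (wt k m N) 0 ![0, n] t 0)) ↔ z ∈ A ∧ ix z = n := by
    intro n z
    have h1 := yy_t (k := k) (m := m) (N := N) hm ![0, n] ht0
    have h2 : (![0, n] : Fin 2 → ℤ) 1 = n := rfl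
    rw [h2] at h1
    unfold Fs
    rw [Set.mem_setOf_eq, h1, hA, Set.mem_setOf_eq]
    constructor
    · rintro ⟨h3, h4, h5⟩
      exact ⟨⟨h3, h4⟩, (ix_iff (hR.good z h3) n).2 h5⟩
    · rintro ⟨⟨h3, h4⟩, h5⟩
      exact ⟨h3, h4, (ix_iff (hR.good z h3) n).1 h5⟩
  obtain ⟨Mn, hMn⟩ : ∃ Mn : ℕ, ∀ z ∈ A, |ix z| ≤ Mn := by
    obtain ⟨n₁, hn₁⟩ := exists_nat_ge (|Real.log C| + (|Real.log C| * ((m * (k + 1) : ℕ) : ℝ) / 2 +
      (1 / 2) * Real.log t) / N)
    refine ⟨n₁, fun z hz => ?_⟩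
    have h1 : z ∈ Fs RR Φ f (Real.exp (ix z : ℝ))
      (Real.exp (Pool.Agent.Y714.KE.yy (wt k m N) 0 ![0, ix z] t 0)) := (hmem (ix z) z).2 ⟨hz, rfl⟩
    obtain ⟨h3, h4⟩ := (hcc _ _ (Real.exp_pos _) (Real.exp_pos _)).2.2 ⟨z, h1⟩
    have hlog : ∀ x : ℝ, 1 ≤ C * Real.exp x → -Real.log C ≤ x := by
      intro x hx
      have h5 := Real.log_le_log one_pos hx
      rw [Real.log_one, Real.log_mul hC.ne' (Real.exp_pos _).ne', Real.log_exp] at h5
      linarith
    have h5 := hlog _ h3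
    have h6 := hlog _ h4
    rw [yy_zero, le_div_iff₀ (by positivity)] at h5
    have h7 : (![0, ix z] : Fin 2 → ℤ) 1 = ix z := rfl
    rw [h7] at h5
    have h8 := le_abs_self (Real.log C)
    have h8' : 0 ≤ |Real.log C| := abs_nonneg _
    have h9 : 0 ≤ Real.log t := Real.log_nonneg ht
    have h10 : 0 ≤ (|Real.log C| * ((m * (k + 1) : ℕ) : ℝ) / 2 + (1 / 2) * Real.log t) / N := by
      positivity
    have h11 : (ix z : ℝ) ≤ (|Real.log C| * ((m * (k + 1) : ℕ) : ℝ) / 2 +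
        (1 / 2) * Real.log t) / N := by
      rw [le_div_iff₀ hN0]
      have h12 : -(|Real.log C| * (((m * (k + 1) : ℕ) : ℝ) / 2)) ≤
          -Real.log C * (((m * (k + 1) : ℕ) : ℝ) / 2) := by
        rw [← neg_mul]
        exact mul_le_mul_of_nonneg_right (by linarith) (by positivity)
      linarith
    have h13 : |(ix z : ℝ)| ≤ n₁ := by
      rw [abs_le]
      constructor <;> linarith
    exact_mod_cast h13
  have hAf : A.Finite := by
    have h1 : A ⊆ ⋃ n ∈ Finset.Icc (-(Mn : ℤ)) Mn, Fs RR Φ f (Real.exp (n : ℝ))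
      (Real.exp (Pool.Agent.Y714.KE.yy (wt k m N) 0 ![0, n] t 0)) := by
      intro z hz
      rw [Set.mem_iUnion₂]
      exact ⟨ix z, Finset.mem_Icc.2 (abs_le.1 (hMn z hz)), (hmem (ix z) z).2 ⟨hz, rfl⟩⟩
    refine Set.Finite.subset ?_ h1
    exact Set.Finite.biUnion (Finset.finite_toSet _) fun n _ =>
      (hcc _ _ (Real.exp_pos _) (Real.exp_pos _)).1
  have hsum : (A.ncard : ℝ) = ∑ n ∈ Finset.Icc (-(Mn : ℤ)) Mn, F ![0, n] t := by
    rw [Set.ncard_eq_toFinset_card _ hAf, Finset.card_eq_sum_card_fiberwise (f := ix)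
      (t := Finset.Icc (-(Mn : ℤ)) Mn) (fun z hz => by
        rw [Set.Finite.coe_toFinset] at hz
        exact Finset.mem_coe.2 (Finset.mem_Icc.2 (abs_le.1 (hMn z hz))))]
    push_cast
    refine sum_congr rfl fun n _ => ?_
    rw [hF]
    simp only
    have h1 : (![0, n] : Fin 2 → ℤ) 1 = n := rfl
    rw [h1, ← Set.ncard_coe_finset]
    congr 2
    ext z
    rw [hmem, Finset.mem_coe, mem_filter, Set.Finite.mem_toFinset]
  rw [hsum]
  show ∑ᶠ k₁ ∈ {k₁ : Fin 2 → ℤ | k₁ 0 = 0}, F k₁ t = _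
  rw [finsum_mem_eq_sum_of_inter_support_eq (fun k₁ => F k₁ t)
    (t := (Finset.Icc (-(Mn : ℤ)) Mn).image fun n => (![0, n] : Fin 2 → ℤ))]
  · rw [sum_image]
    intro a _ b _ hab
    have := congrFun hab 1
    simpa using this
  · ext k₁
    constructor
    · rintro ⟨h1, h2⟩
      refine ⟨?_, h2⟩
      have hk : k₁ = ![0, k₁ 1] := by
        funext i
        fin_cases i
        · exact h1
        · rfl
      rw [Finset.mem_coe, mem_image]
      refine ⟨k₁ 1, ?_, hk.symm⟩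
      have h3 : (Fs RR Φ f (Real.exp (k₁ 1 : ℝ))
          (Real.exp (Pool.Agent.Y714.KE.yy (wt k m N) 0 k₁ t 0))).Nonempty := by
        rw [Set.nonempty_iff_ne_empty]
        intro h0
        apply h2
        rw [hF]
        simp only
        rw [h0, Set.ncard_empty, Nat.cast_zero]
      obtain ⟨z, hz⟩ := h3
      have h4 : Pool.Agent.Y714.KE.yy (wt k m N) 0 k₁ t 0 =
          Pool.Agent.Y714.KE.yy (wt k m N) 0 ![0, k₁ 1] t 0 := by rw [← hk]
      rw [h4] at hz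
      obtain ⟨h5, h6⟩ := (hmem (k₁ 1) z).1 hz
      rw [← h6]
      exact Finset.mem_Icc.2 (abs_le.1 (hMn z h5))
    · rintro ⟨h1, h2⟩
      refine ⟨?_, h2⟩
      rw [Finset.mem_coe, mem_image] at h1
      obtain ⟨n, _, rfl⟩ := h1
      rfl

end Pool.Agent.K6.H78.MF
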