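import Pool.Agent.K6.H78.MF.Err

/-!
The number of reduced triples in a cell.
-/

set_option autoImplicit false
set_option linter.unusedSectionVars false
set_option linter.deprecated false
set_option linter.unusedVariables false

namespace Pool.Agent.K6.H78.MF

open Finset MeasureTheory Filter

variable {k m N : ℕ}

/-- sign changes -/
def sg (ε ε' : ℤ) (z : Ix k m N → ℤ) : Ix k m N → ℤ :=
  Sum.elim (fun i => ε * z (Sum.inl i)) (fun ji => ε' * z (Sum.inr ji))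

/-- good integer triples -/
def GG (z : Ix k m N → ℤ) : Prop := Good (V z) (W z) (Qc z)

theorem GG.lc {z : Ix k m N → ℤ} (h : GG z) {p : ℕ} (hp : p.Prime) : Lc p z :=
  ⟨h.hpl p hp, h.hq p hp⟩

theorem GG_iff {z : Ix k m N → ℤ} : GG z ↔ (∀ p : ℕ, p.Prime → Lc p z) ∧
    NZ (fun j i => ((Qc z j i : ℤ) : ℚ)) := by
  constructor
  · intro h
    exact ⟨fun p hp => h.lc hp, h.hnz⟩
  · rintro ⟨h1, h2⟩
    exact ⟨fun p hp => (h1 p hp).1, fun p hp => (h1 p hp).2, h2⟩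

/-- sets of representatives -/
structure Reps (RR : Set (Ix k m N → ℤ)) : Prop where
  good : ∀ z ∈ RR, GG z
  wr : ∀ z ∈ RR, WR (V z) (W z)
  ex : ∀ z, GG z → SR (V z) (W z) → ∃ ε ε' : ℤ, (ε = 1 ∨ ε = -1) ∧ (ε' = 1 ∨ ε' = -1) ∧
    sg ε ε' z ∈ RR
  uniq : ∀ z ∈ RR, SR (V z) (W z) → ∀ ε ε' : ℤ, (ε = 1 ∨ ε = -1) → (ε' = 1 ∨ ε' = -1) →
    sg ε ε' z ∈ RR → sg ε ε' z = z

theorem sg_sg (ε ε' δ δ' : ℤ) (z : Ix k m N → ℤ) : sg ε ε' (sg δ δ' z) = sg (ε * δ) (ε' * δ') z := by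
  funext i
  unfold sg
  rcases i with i | i
  · simp only [Sum.elim_inl]; ring
  · simp only [Sum.elim_inr]; ring

theorem sg_one (z : Ix k m N → ℤ) : sg 1 1 z = z := by
  funext i
  unfold sg
  rcases i with i | i <;> simp

theorem GG.sg {z : Ix k m N → ℤ} (h : GG z) {ε ε' : ℤ} (hε : ε = 1 ∨ ε = -1)
    (hε' : ε' = 1 ∨ ε' = -1) : GG (MF.sg ε ε' z) := Good.signs h hε hε'

theorem sd_sg (Y Z : ℝ) (ε ε' : ℤ) (z : Ix k m N → ℤ) :
    sd Y Z (sg ε ε' z) = sc (ε : ℝ) (ε' : ℝ) (sd Y Z z) := by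
  funext i
  unfold sd sc sg ys
  rcases i with i | i
  · simp only [Sum.elim_inl]; push_cast; ring
  · simp only [Sum.elim_inr]; push_cast; ring

theorem Dm_sg {K R₀ : ℝ} {ε ε' : ℤ} (hε : ε = 1 ∨ ε = -1) (hε' : ε' = 1 ∨ ε' = -1)
    {u : Ix k m N → ℝ} : sc (ε : ℝ) (ε' : ℝ) u ∈ Dm k m N K R₀ ↔ u ∈ Dm k m N K R₀ := by
  have e2 : (ε : ℝ) ^ 2 = 1 := by rcases hε with h | h <;> rw [h] <;> norm_num
  have e4 : (ε : ℝ) ^ 4 = 1 := by rcases hε with h | h <;> rw [h] <;> norm_num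
  have e' : (ε' : ℝ) ≠ 0 := by rcases hε' with h | h <;> rw [h] <;> norm_num
  have en : ‖(ε' : ℝ)‖ = 1 := by rcases hε' with h | h <;> rw [h] <;> norm_num
  unfold Dm SR
  simp only [Set.mem_setOf_eq]
  rw [Gm_sc, V_sc, W_sc, sq_mul', sq_mul', bl_mul', Qv_sc, norm_smul, e2, e4, en]
  simp only [one_mul, ne_eq, smul_eq_zero, e', false_or]

theorem SR_sg {ε ε' : ℤ} (hε : ε = 1 ∨ ε = -1) {z : Ix k m N → ℤ} :
    SR (V (sg ε ε' z)) (W (sg ε ε' z)) ↔ SR (V z) (W z) := by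
  have e2 : ε * ε = 1 := by rcases hε with h | h <;> rw [h] <;> norm_num
  have h1 : sq (V (sg ε ε' z)) = sq (V z) := by
    unfold sq V sg
    refine sum_congr rfl fun i _ => ?_
    simp only [Sum.elim_inl]
    linear_combination (z (Sum.inl (Sum.inl i)) * z (Sum.inl (Sum.inl i))) * e2
  have h2 : sq (W (sg ε ε' z)) = sq (W z) := by
    unfold sq W sg
    refine sum_congr rfl fun i _ => ?_
    simp only [Sum.elim_inl]
    linear_combination (z (Sum.inl (Sum.inr i)) * z (Sum.inl (Sum.inr i))) * e2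
  have h3 : bl (V (sg ε ε' z)) (W (sg ε ε' z)) = bl (V z) (W z) := by
    unfold bl V W sg
    refine sum_congr rfl fun i _ => ?_
    simp only [Sum.elim_inl]
    linear_combination (z (Sum.inl (Sum.inl i)) * z (Sum.inl (Sum.inr i))) * e2
  unfold SR
  rw [h1, h2, h3]

/-- four signs -/
theorem four {RR : Set (Ix k m N → ℤ)} (hR : Reps RR) (P : (Ix k m N → ℤ) → Prop)
    (hP : ∀ z, GG z → ∀ ε ε' : ℤ, (ε = 1 ∨ ε = -1) → (ε' = 1 ∨ ε' = -1) → P z → P (sg ε ε' z))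
    (hfin : {z | GG z ∧ SR (V z) (W z) ∧ P z}.Finite) :
    {z | GG z ∧ SR (V z) (W z) ∧ P z}.ncard = 4 * {z | z ∈ RR ∧ SR (V z) (W z) ∧ P z}.ncard := by
  classical
  have hAf : {z | z ∈ RR ∧ SR (V z) (W z) ∧ P z}.Finite :=
    hfin.subset fun z hz => ⟨hR.good z hz.1, hz.2⟩
  rw [Set.ncard_eq_toFinset_card _ hfin, Set.ncard_eq_toFinset_card _ hAf]
  set A := hAf.toFinset with hA
  set B := hfin.toFinset with hB
  have hcard : (A ×ˢ (({1, -1} : Finset ℤ) ×ˢ ({1, -1} : Finset ℤ))).card = 4 * A.card := by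
    rw [card_product, card_product, card_pair (by norm_num)]
    ring
  rw [← hcard]
  symm
  refine Finset.card_bij (fun x _ => sg x.2.1 x.2.2 x.1) ?_ ?_ ?_
  · rintro ⟨z, ε, ε'⟩ hx
    rw [mem_product, mem_product, hA, Set.Finite.mem_toFinset, mem_insert, mem_singleton,
      mem_insert, mem_singleton] at hx
    obtain ⟨⟨h1, h2, h3⟩, h4, h5⟩ := hx
    rw [hB, Set.Finite.mem_toFinset]
    simp only at h1 h2 h3 h4 h5 ⊢
    exact ⟨(hR.good z h1).sg h4 h5, (SR_sg h4).2 h2, hP z (hR.good z h1) _ _ h4 h5 h3⟩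
  · rintro ⟨z, ε, ε'⟩ hx ⟨z', δ, δ'⟩ hx' he
    rw [mem_product, mem_product, hA, Set.Finite.mem_toFinset, mem_insert, mem_singleton,
      mem_insert, mem_singleton] at hx hx'
    obtain ⟨⟨h1, h2, h3⟩, h4, h5⟩ := hx
    obtain ⟨⟨h1', h2', h3'⟩, h4', h5'⟩ := hx'
    simp only at h1 h2 h3 h4 h5 h1' h2' h3' h4' h5' he ⊢
    have s1 : δ * ε = 1 ∨ δ * ε = -1 := by
      rcases h4 with h | h <;> rcases h4' with h' | h' <;> rw [h, h'] <;> norm_num
    have s2 : δ' * ε' = 1 ∨ δ' * ε' = -1 := by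
      rcases h5 with h | h <;> rcases h5' with h' | h' <;> rw [h, h'] <;> norm_num
    have e1 : δ * δ = 1 := by rcases h4' with h | h <;> rw [h] <;> norm_num
    have e2 : δ' * δ' = 1 := by rcases h5' with h | h <;> rw [h] <;> norm_num
    have h6 : sg (δ * ε) (δ' * ε') z = z' := by
      rw [← sg_sg, he, sg_sg, e1, e2, sg_one]
    have h7 := hR.uniq z h1 h2 (δ * ε) (δ' * ε') s1 s2 (by rw [h6]; exact h1')
    have hzz : z' = z := by rw [← h6, h7]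
    subst hzz
    have hgood := hR.good _ h1
    -- compare the signs
    have hv : V z' ≠ 0 := by
      intro h0
      have := hgood.hpl.ne
      apply this
      funext p
      unfold pl
      rw [h0]
      simp
    obtain ⟨i, hi⟩ := Function.ne_iff.1 hv
    obtain ⟨ji, hji⟩ := Function.ne_iff.1 hgood.hq.ne
    have a1 := congrFun he (Sum.inl (Sum.inl i))
    have a2 := congrFun he (Sum.inr ji)
    unfold sg at a1 a2
    simp only [Sum.elim_inl, Sum.elim_inr] at a1 a2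
    have b1 : ε = δ := by
      have h8 : (ε - δ) * z' (Sum.inl (Sum.inl i)) = 0 := by linear_combination a1
      have := (mul_eq_zero.1 h8).resolve_right hi
      linarith
    have b2 : ε' = δ' := by
      have h8 : (ε' - δ') * z' (Sum.inr ji) = 0 := by linear_combination a2
      have := (mul_eq_zero.1 h8).resolve_right hji
      linarith
    rw [b1, b2]
  · intro z hz
    rw [hB, Set.Finite.mem_toFinset] at hz
    obtain ⟨h1, h2, h3⟩ := hz
    obtain ⟨ε, ε', hε, hε', hm⟩ := hR.ex z h1 h2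
    refine ⟨(sg ε ε' z, ε, ε'), ?_, ?_⟩
    · rw [mem_product, mem_product, hA, Set.Finite.mem_toFinset, mem_insert, mem_singleton,
        mem_insert, mem_singleton]
      exact ⟨⟨hm, (SR_sg hε).2 h2, hP z h1 _ _ hε hε' h3⟩, hε, hε'⟩
    · simp only
      have e1 : ε * ε = 1 := by rcases hε with h | h <;> rw [h] <;> norm_num
      have e2 : ε' * ε' = 1 := by rcases hε' with h | h <;> rw [h] <;> norm_num
      rw [sg_sg, e1, e2, sg_one]

/-- sign invariance of the height -/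
def SI (Φ : (Ix k m N → ℝ) → ℝ) (f : (Ix k m N → ℤ) → ℝ) : Prop :=
  ∀ z, GG z → ∀ ε ε' : ℤ, (ε = 1 ∨ ε = -1) → (ε' = 1 ∨ ε' = -1) →
    Φ (cr (sg ε ε' z)) * f (sg ε ε' z) = Φ (cr z) * f z

/-- the representatives in a cell -/
def Fs (RR : Set (Ix k m N → ℤ)) (Φ : (Ix k m N → ℝ) → ℝ) (f : (Ix k m N → ℤ) → ℝ) (Y Z : ℝ) :
    Set (Ix k m N → ℤ) :=
  {z | z ∈ RR ∧ Φ (cr z) * f z ≤ Y ^ (2 * N) * Z ^ (m * (k + 1)) ∧
    Y ^ 4 ≤ Gm (cr (V z)) (cr (W z)) ∧ Gm (cr (V z)) (cr (W z)) < Real.exp 4 * Y ^ 4}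

theorem GG.gm {z : Ix k m N → ℤ} (h : GG z) : 1 ≤ Gm (V z) (W z) := by
  have h1 := lagrange (V z) (W z)
  obtain ⟨p, hp⟩ := Function.ne_iff.1 h.hpl.ne
  have h2 : 0 < ∑ p, pl (V z) (W z) p ^ 2 := by
    refine lt_of_lt_of_le (b := pl (V z) (W z) p ^ 2) ?_ ?_
    · exact (sq_pos_iff).2 hp
    · exact single_le_sum (f := fun p => pl (V z) (W z) p ^ 2) (fun _ _ => sq_nonneg _) (mem_univ p)
  omega

theorem GG.om {z : Ix k m N → ℤ} (h : GG z) : cr z ∈ Om k m N := by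
  refine ⟨?_, ?_⟩
  · rw [V_cr, W_cr, Gm_cr]
    have := h.gm
    exact_mod_cast (by omega : 0 < Gm (V z) (W z))
  · intro h0
    apply h.hq.ne
    funext ji
    have := congrFun h0 ji
    have h2 : ((z (Sum.inr ji) : ℤ) : ℝ) = 0 := this
    have h3 : z (Sum.inr ji) = 0 := by exact_mod_cast h2
    exact h3

theorem scale_iff {e : ℕ} {Φ : (Ix k m N → ℝ) → ℝ} (hΦ : RH k m N e Φ) {z : Ix k m N → ℤ}
    (h : GG z) {Y Z : ℝ} (hY : 0 < Y) (hZ : 0 < Z) (f : ℝ) :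
    Φ (cr z) * f ≤ Y ^ (2 * N) * Z ^ (m * (k + 1)) ↔ Φ (sd Y Z z) * f ≤ 1 := by
  have h1 : sd Y Z z ∈ Om k m N := by
    rw [sd_eq]
    exact Om_sc (inv_pos.2 hY) (inv_pos.2 hZ) h.om
  have h2 : Φ (cr z) = Y ^ (2 * N) * Z ^ (m * (k + 1)) * Φ (sd Y Z z) := by
    rw [cr_eq hY hZ z, hΦ.scal Y Z hY hZ _ h1]
  have h3 : 0 < Y ^ (2 * N) * Z ^ (m * (k + 1)) := by positivity
  rw [h2, mul_assoc]
  constructor
  · intro h4
    by_contra hc
    rw [not_le] at hc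
    nlinarith
  · intro h4
    nlinarith

theorem Gm_sd {Y Z : ℝ} (hY : 0 < Y) (hZ : 0 < Z) (z : Ix k m N → ℤ) :
    Gm (cr (V z)) (cr (W z)) = Y ^ 4 * Gm (V (sd Y Z z)) (W (sd Y Z z)) := by
  rw [← Gm_sc Y Z, ← cr_eq hY hZ z]
  rfl

/-- the trichotomy -/
theorem tri {e : ℕ} (he : 2 * N = 2 * e + m * k * (k + 1)) (hm : 1 ≤ m) (hN : 1 ≤ N)
    {Φ : (Ix k m N → ℝ) → ℝ} (hΦ : RH k m N e Φ) {S₀ : Finset ℕ} {f : (Ix k m N → ℤ) → ℝ}
    (hf : FH k m N S₀ f) : ∃ A : ℝ, Real.exp 4 ≤ A ∧ ∀ RR : Set (Ix k m N → ℤ), Reps RR →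
    (∀ K Y Z : ℝ, 0 < Y → 0 < Z → ∀ z ∈ Fs RR Φ f Y Z, K * nv (cr (V z)) ≤ nv (cr (W z)) →
      z ∈ Wset k m N A Y Z K) ∧
    ∀ K : ℝ, 1 ≤ K → ∃ R₀ : ℝ, 0 < R₀ ∧ ∀ Y Z : ℝ, 0 < Y → 0 < Z →
      ∀ z ∈ Fs RR Φ f Y Z, nv (cr (W z)) < K * nv (cr (V z)) → sd Y Z z ∈ Dc k m N K R₀ := by
  obtain ⟨m₁, M₁, hm₁, hbd⟩ := hf.bd
  obtain ⟨κ, hκ, hlow⟩ := hΦ.low
  set R := m * (k + 1) with hR
  have hR1 : 1 ≤ R := by
    rw [hR]
    exact Nat.mul_pos hm (by omega)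
  have hN0 : (0 : ℝ) < N := by exact_mod_cast hN
  set A : ℝ := max (Real.exp 4) ((N : ℝ) ^ e / (κ * m₁)) with hA
  have hA4 : Real.exp 4 ≤ A := le_max_left _ _
  have hA1 : 1 ≤ A := (Real.one_le_exp (by norm_num)).trans hA4
  have hA0 : 0 < A := by linarith
  have hAR : (N : ℝ) ^ e / (κ * m₁) ≤ A ^ R := by
    calc (N : ℝ) ^ e / (κ * m₁) ≤ A := le_max_right _ _
      _ = A ^ 1 := (pow_one A).symm
      _ ≤ A ^ R := pow_le_pow_right₀ hA1 hR1
  -- the bound for the tensor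
  have hTb : ∀ RR : Set (Ix k m N → ℤ), Reps RR → ∀ Y Z : ℝ, 0 < Y → 0 < Z → ∀ z ∈ Fs RR Φ f Y Z,
      ‖T (cr (V z)) (cr (W z)) (fun j => cr (Qc z j))‖ ≤ A * (Z * Y ^ k) := by
    intro RR hRR Y Z hY hZ z hz
    obtain ⟨h1, h2, h3, h4⟩ := hz
    have hg := hRR.good z h1
    have h5 := hlow (cr z) hg.om
    rw [V_cr, W_cr, Qc_cr] at h5
    have h6 := (hbd z fun p hp => hg.lc (hf.prime p hp)).1
    have h7 := hΦ.pos (cr z) hg.om
    have h8 : m₁ * Φ (cr z) ≤ Y ^ (2 * N) * Z ^ R := by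
      calc m₁ * Φ (cr z) ≤ f z * Φ (cr z) := mul_le_mul_of_nonneg_right h6 h7.le
        _ = Φ (cr z) * f z := mul_comm _ _
        _ ≤ _ := h2
    have h9 : Y ^ 2 / N ≤ ‖pl (cr (V z)) (cr (W z))‖ := by
      rw [div_le_iff₀ hN0]
      apply le_of_sq_le_sq _ (by positivity)
      have := pl_bound (cr (V z)) (cr (W z))
      nlinarith
    have h10 : (Y ^ 2 / N) ^ e ≤ ‖pl (cr (V z)) (cr (W z))‖ ^ e :=
      pow_le_pow_left₀ (by positivity) h9 e
    set τ := ‖T (cr (V z)) (cr (W z)) (fun j => cr (Qc z j))‖ with hτ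
    have h11 : τ ^ R * (Y ^ 2 / N) ^ e * (κ * m₁) ≤ Y ^ (2 * N) * Z ^ R := by
      calc τ ^ R * (Y ^ 2 / N) ^ e * (κ * m₁) ≤
          τ ^ R * ‖pl (cr (V z)) (cr (W z))‖ ^ e * (κ * m₁) := by gcongr
        _ = m₁ * (κ * (τ ^ R * ‖pl (cr (V z)) (cr (W z))‖ ^ e)) := by ring
        _ ≤ m₁ * Φ (cr z) := mul_le_mul_of_nonneg_left h5 hm₁.le
        _ ≤ _ := h8
    have h12 : Y ^ (2 * N) * Z ^ R = (Y ^ 2) ^ e * (Z * Y ^ k) ^ R := by
      rw [mul_pow, ← pow_mul, ← pow_mul]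
      have : 2 * N = 2 * e + k * R := by
        rw [he, hR]; ring
      rw [this, pow_add]
      ring
    have h13 : τ ^ R ≤ (A * (Z * Y ^ k)) ^ R := by
      rw [mul_pow]
      have hY2 : (0 : ℝ) < (Y ^ 2) ^ e := by positivity
      have hNe : (0 : ℝ) < (N : ℝ) ^ e := by positivity
      have h14 : τ ^ R ≤ (N : ℝ) ^ e / (κ * m₁) * (Z * Y ^ k) ^ R := by
        rw [div_mul_eq_mul_div, le_div_iff₀ (by positivity)]
        rw [h12, div_pow] at h11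
        have h15 : τ ^ R * ((Y ^ 2) ^ e / (N : ℝ) ^ e) * (κ * m₁) =
            (Y ^ 2) ^ e * (τ ^ R * (κ * m₁)) / (N : ℝ) ^ e := by ring
        rw [h15, div_le_iff₀ hNe] at h11
        have h16 : (Y ^ 2) ^ e * (τ ^ R * (κ * m₁)) ≤
            (Y ^ 2) ^ e * ((N : ℝ) ^ e * (Z * Y ^ k) ^ R) := by
          calc _ ≤ _ := h11
            _ = _ := by ring
        exact le_of_mul_le_mul_left h16 hY2
      exact h14.trans (mul_le_mul_of_nonneg_right hAR (by positivity))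
    exact le_of_pow_le_pow_left₀ (by omega) (by positivity) h13
  refine ⟨A, hA4, fun RR hRR => ⟨?_, ?_⟩⟩
  · intro K Y Z hY hZ z hz hK
    have hTz := hTb RR hRR Y Z hY hZ z hz
    obtain ⟨h1, h2, h3, h4⟩ := hz
    have hg := hRR.good z h1
    refine ⟨hRR.wr z h1, h3, ?_, hK, ?_, ?_⟩
    · refine h4.le.trans ?_
      exact mul_le_mul_of_nonneg_right hA4 (by positivity)
    · obtain ⟨j, hj⟩ := hg.hnz 0 1 (Or.inr one_ne_zero)
      refine ⟨j, ?_⟩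
      rw [fv_zero_left] at hj
      intro h0
      apply hj
      simp only
      rw [h0]
      simp
    · rw [← T_cr]
      exact hTz
  · intro K hK
    have hK0 : 0 < K := by linarith
    refine ⟨(2 * N * K) ^ k * A + 1, by positivity, ?_⟩
    intro Y Z hY hZ z hz hlt
    have hTz := hTb RR hRR Y Z hY hZ z hz
    obtain ⟨h1, h2, h3, h4⟩ := hz
    have hg := hRR.good z h1
    have hWR : WR (cr (V z)) (cr (W z)) := WR_cr.2 (hRR.wr z h1)
    have hG : 0 < Gm (cr (V z)) (cr (W z)) := lt_of_lt_of_le (by positivity) h3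
    obtain ⟨hv, hw⟩ := hWR.pos hG
    have ha := nv_pos hv
    have hb := nv_pos hw
    have hab : nv (cr (V z)) ≤ nv (cr (W z)) := Real.sqrt_le_sqrt hWR.1
    have hYa : Y ≤ K * nv (cr (V z)) := by
      have h5 : Y ^ 4 ≤ (K * nv (cr (V z))) ^ 4 := by
        calc Y ^ 4 ≤ Gm (cr (V z)) (cr (W z)) := h3
          _ ≤ sq (cr (V z)) * sq (cr (W z)) := Gm_le _ _
          _ = nv (cr (V z)) ^ 2 * nv (cr (W z)) ^ 2 := by rw [nv_sq, nv_sq]
          _ ≤ (K * nv (cr (V z))) ^ 2 * (K * nv (cr (V z))) ^ 2 := by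
            apply mul_le_mul (pow_le_pow_left₀ ha.le (by nlinarith) 2)
              (pow_le_pow_left₀ hb.le hlt.le 2) (by positivity) (by positivity)
          _ = _ := by ring
      exact le_of_pow_le_pow_left₀ (by norm_num) (by positivity) h5
    have hq : ∀ ji : Fin m × Fin (k + 1), |Qv (sd Y Z z) ji| ≤ (2 * N * K) ^ k * A := by
      intro ji
      have h5 := q_bound hWR hG (fun j => cr (Qc z j)) ji.1 ji.2
      have h6 : (Y / K) ^ k ≤ nv (cr (V z)) ^ (k - (ji.2 : ℕ)) * nv (cr (W z)) ^ (ji.2 : ℕ) := by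
        have h7 : Y / K ≤ nv (cr (V z)) := by
          rw [div_le_iff₀ hK0]; linarith
        calc (Y / K) ^ k ≤ nv (cr (V z)) ^ k := pow_le_pow_left₀ (by positivity) h7 k
          _ = nv (cr (V z)) ^ (k - (ji.2 : ℕ)) * nv (cr (V z)) ^ (ji.2 : ℕ) := by
            rw [← pow_add]
            congr 1
            have := ji.2.2
            omega
          _ ≤ _ := by gcongr
      have h8 : |(cr (Qc z ji.1) ji.2)| * (Y / K) ^ k ≤ (2 * N) ^ k * (A * (Z * Y ^ k)) := by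
        calc _ ≤ |(cr (Qc z ji.1) ji.2)| *
              (nv (cr (V z)) ^ (k - (ji.2 : ℕ)) * nv (cr (W z)) ^ (ji.2 : ℕ)) := by gcongr
          _ ≤ (2 * N) ^ k * ‖T (cr (V z)) (cr (W z)) (fun j => cr (Qc z j))‖ := h5
          _ ≤ _ := by gcongr
      have h9 : Qv (sd Y Z z) ji = cr (Qc z ji.1) ji.2 / Z := rfl
      rw [h9, abs_div, abs_of_pos hZ, div_le_iff₀ hZ]
      rw [div_pow] at h8
      have hYk : 0 < Y ^ k := by positivity
      have hKk : 0 < K ^ k := by positivity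
      have h10 : |(cr (Qc z ji.1) ji.2)| * (Y ^ k / K ^ k) = |(cr (Qc z ji.1) ji.2)| * Y ^ k / K ^ k := by
        ring
      rw [h10, div_le_iff₀ hKk] at h8
      have h11 : |(cr (Qc z ji.1) ji.2)| * Y ^ k ≤ ((2 * N * K) ^ k * A * Z) * Y ^ k := by
        calc _ ≤ _ := h8
          _ = _ := by rw [mul_pow (2 * (N : ℝ)) K]; ring
      exact le_of_mul_le_mul_right h11 hYk
    have hGs := Gm_sd hY hZ z
    have hY4 : 0 < Y ^ 4 := by positivity
    refine ⟨?_, ?_, ?_, ?_, ?_⟩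
    · rw [sd_eq]
      exact (WR_sc (inv_pos.2 hY)).2 hWR
    · rw [hGs] at h3
      by_contra hc
      rw [not_le] at hc
      nlinarith
    · rw [hGs] at h4
      have h5 : Y ^ 4 * Gm (V (sd Y Z z)) (W (sd Y Z z)) < Y ^ 4 * Real.exp 4 := by linarith
      exact (lt_of_mul_lt_mul_left h5 hY4.le).le
    · rw [sd_eq, V_sc, W_sc, sq_mul', sq_mul', V_cr, W_cr]
      have h5 : sq (cr (W z)) ≤ K ^ 2 * sq (cr (V z)) := by
        rw [← nv_sq, ← nv_sq, ← mul_pow]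
        exact pow_le_pow_left₀ hb.le hlt.le 2
      have h6 : 0 ≤ Y⁻¹ ^ 2 := by positivity
      calc Y⁻¹ ^ 2 * sq (cr (W z)) ≤ Y⁻¹ ^ 2 * (K ^ 2 * sq (cr (V z))) :=
            mul_le_mul_of_nonneg_left h5 h6
        _ = _ := by ring
    · rw [pi_norm_le_iff_of_nonneg (by positivity)]
      intro ji
      rw [Real.norm_eq_abs]
      exact (hq ji).trans (by linarith)

end Pool.Agent.K6.H78.MF
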