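import Pool.Agent.K6.H78.MF.Tail
import Pool.Agent.Y379.KF.Crt
import Pool.Agent.Y988.KF.Prod

/-!
The local conditions.
-/

set_option autoImplicit false
set_option linter.unusedSectionVars false

namespace Pool.Agent.K6.H78.MF

open Finset

variable {k m N : ℕ}

/-- the local condition -/
def Tp (k m N p : ℕ) : Set (Ix k m N → ZMod p) :=
  {t | pl (V t) (W t) ≠ 0 ∧ (fun ji : Fin m × Fin (k + 1) => Qc t ji.1 ji.2) ≠ 0}

/-- the local condition for integer triples -/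
def Lc (p : ℕ) (z : Ix k m N → ℤ) : Prop :=
  (¬ ∀ r, (p : ℤ) ∣ pl (V z) (W z) r) ∧ ¬ ∀ ji : Fin m × Fin (k + 1), (p : ℤ) ∣ Qc z ji.1 ji.2

theorem mem_Tp {p : ℕ} {z : Ix k m N → ℤ} :
    (fun i => (z i : ZMod p)) ∈ Tp k m N p ↔ Lc p z := by
  unfold Tp Lc
  rw [Set.mem_setOf_eq]
  refine and_congr (not_congr ?_) (not_congr ?_)
  · rw [funext_iff]
    refine forall_congr' fun r => ?_
    rw [← ZMod.intCast_zmod_eq_zero_iff_dvd]
    unfold pl V W
    push_cast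
    rfl
  · rw [funext_iff]
    refine forall_congr' fun r => ?_
    rw [← ZMod.intCast_zmod_eq_zero_iff_dvd]
    rfl

theorem card_Ix : Fintype.card (Ix k m N) = 2 * N + m * (k + 1) := by
  rw [Fintype.card_sum, Fintype.card_sum, Fintype.card_prod, Fintype.card_fin, Fintype.card_fin,
    Fintype.card_fin]
  ring

theorem card_compl_Tp (hN : 3 ≤ N) (hR : 2 ≤ m * (k + 1)) (p : ℕ) (hp : p.Prime) :
    ((Tp k m N p)ᶜ).ncard ≤ 3 * p ^ (2 * N + m * (k + 1) - 2) := by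
  classical
  have : Fact p.Prime := ⟨hp⟩
  set g₁ : (Fin N ⊕ Fin N → ZMod p) × (Fin m × Fin (k + 1) → ZMod p) → (Ix k m N → ZMod p) :=
    fun x => Sum.elim x.1 x.2 with hg₁
  have hsub : (Tp k m N p)ᶜ ⊆ g₁ '' (Dp N p ×ˢ Set.univ) ∪ g₁ '' (Set.univ ×ˢ {0}) := by
    intro t ht
    have h1 : pl (V t) (W t) = 0 ∨ (fun ji : Fin m × Fin (k + 1) => Qc t ji.1 ji.2) = 0 := by
      by_contra hcon
      push Not at hcon
      exact ht hcon
    have h2 : g₁ (fun i => t (Sum.inl i), fun i => t (Sum.inr i)) = t := by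
      funext i
      rcases i with i | i <;> rfl
    rcases h1 with h1 | h1
    · left
      exact ⟨(fun i => t (Sum.inl i), fun i => t (Sum.inr i)), ⟨h1, Set.mem_univ _⟩, h2⟩
    · right
      exact ⟨(fun i => t (Sum.inl i), fun i => t (Sum.inr i)), ⟨Set.mem_univ _, h1⟩, h2⟩
  have h1 := Set.ncard_le_ncard hsub (Set.toFinite _)
  have h2 : (g₁ '' (Dp N p ×ˢ Set.univ)).ncard ≤ 2 * p ^ (2 * N + m * (k + 1) - 2) := by
    refine (Set.ncard_image_le (Set.toFinite _)).trans ?_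
    rw [Set.ncard_prod, Set.ncard_univ, Nat.card_eq_fintype_card, Fintype.card_fun,
      Fintype.card_prod, Fintype.card_fin, Fintype.card_fin, ZMod.card]
    calc (Dp N p).ncard * p ^ (m * (k + 1)) ≤ 2 * p ^ (N + 1) * p ^ (m * (k + 1)) :=
          Nat.mul_le_mul_right _ (card_Dp p hp)
      _ = 2 * p ^ (N + 1 + m * (k + 1)) := by rw [mul_assoc, ← pow_add]
      _ ≤ _ := Nat.mul_le_mul_left _ (Nat.pow_le_pow_right hp.pos (by omega))
  have h3 : (g₁ '' (Set.univ ×ˢ {0})).ncard ≤ p ^ (2 * N + m * (k + 1) - 2) := by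
    refine (Set.ncard_image_le (Set.toFinite _)).trans ?_
    rw [Set.ncard_prod, Set.ncard_univ, Nat.card_eq_fintype_card, Fintype.card_fun,
      Fintype.card_sum, Fintype.card_fin, ZMod.card, Set.ncard_singleton, mul_one]
    exact Nat.pow_le_pow_right hp.pos (by omega)
  have h4 := Set.ncard_union_le (g₁ '' (Dp N p ×ˢ Set.univ)) (g₁ '' (Set.univ ×ˢ {0}))
  omega

theorem Tp_nonempty (hN : 2 ≤ N) (hm : 1 ≤ m) (p : ℕ) (hp : p.Prime) : (Tp k m N p).Nonempty := by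
  have : Fact p.Prime := ⟨hp⟩
  set i₀ : Fin N := ⟨0, by omega⟩
  set i₁ : Fin N := ⟨1, by omega⟩
  have h01 : i₀ ≠ i₁ := by
    intro h
    have := congrArg Fin.val h
    simp [i₀, i₁] at this
  refine ⟨Sum.elim (Sum.elim (Pi.single i₀ 1) (Pi.single i₁ 1)) fun _ => 1, ?_, ?_⟩
  · intro h
    have := congrFun h (i₀, i₁)
    unfold pl V W at this
    simp [h01, h01.symm] at this
  · intro h
    have := congrFun h (⟨0, by omega⟩, 0)
    simp [Qc] at this

/-- the densities -/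
noncomputable def dn (k m N p : ℕ) : ℝ := (Tp k m N p).ncard / (p : ℝ) ^ (2 * N + m * (k + 1))

theorem dn_facts (hN : 3 ≤ N) (hm : 1 ≤ m) (hR : 2 ≤ m * (k + 1)) (p : ℕ) (hp : p.Prime) :
    0 < dn k m N p ∧ dn k m N p ≤ 1 ∧ 1 - dn k m N p ≤ 3 / (p : ℝ) ^ 2 := by
  have : Fact p.Prime := ⟨hp⟩
  have hp0 : (0 : ℝ) < p := by exact_mod_cast hp.pos
  have hpn : (0 : ℝ) < (p : ℝ) ^ (2 * N + m * (k + 1)) := by positivity
  have hne := Tp_nonempty (k := k) (N := N) (by omega) hm p hp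
  have h1 : 0 < (Tp k m N p).ncard := (Set.ncard_pos (Set.toFinite _)).2 hne
  have htot : (Tp k m N p).ncard + ((Tp k m N p)ᶜ).ncard = p ^ (2 * N + m * (k + 1)) := by
    rw [Set.ncard_add_ncard_compl, Nat.card_eq_fintype_card, Fintype.card_fun, ZMod.card, card_Ix]
  have htotR : ((Tp k m N p).ncard : ℝ) + (((Tp k m N p)ᶜ).ncard : ℝ) =
      (p : ℝ) ^ (2 * N + m * (k + 1)) := by exact_mod_cast htot
  have h2 : (((Tp k m N p)ᶜ).ncard : ℝ) ≤ 3 * (p : ℝ) ^ (2 * N + m * (k + 1) - 2) := by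
    exact_mod_cast card_compl_Tp hN hR p hp
  refine ⟨div_pos (by exact_mod_cast h1) hpn, ?_, ?_⟩
  · unfold dn
    rw [div_le_one hpn, ← htotR]
    have : (0 : ℝ) ≤ (((Tp k m N p)ᶜ).ncard : ℝ) := Nat.cast_nonneg _
    linarith
  · unfold dn
    have h3 : 1 - ((Tp k m N p).ncard : ℝ) / (p : ℝ) ^ (2 * N + m * (k + 1)) =
        (((Tp k m N p)ᶜ).ncard : ℝ) / (p : ℝ) ^ (2 * N + m * (k + 1)) := by
      rw [eq_div_iff hpn.ne', sub_mul, div_mul_cancel₀ _ hpn.ne', ← htotR]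
      ring
    rw [h3, div_le_div_iff₀ hpn (by positivity)]
    calc (((Tp k m N p)ᶜ).ncard : ℝ) * (p : ℝ) ^ 2 ≤
        (3 * (p : ℝ) ^ (2 * N + m * (k + 1) - 2)) * (p : ℝ) ^ 2 :=
          mul_le_mul_of_nonneg_right h2 (by positivity)
      _ = 3 * (p : ℝ) ^ (2 * N + m * (k + 1)) := by
        rw [mul_assoc, ← pow_add]
        congr 2
        omega

/-- the product of the densities is bounded below -/
theorem dens_prod (hN : 3 ≤ N) (hm : 1 ≤ m) (hR : 2 ≤ m * (k + 1)) :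
    ∃ c : ℝ, 0 < c ∧ ∀ S : Finset ℕ, (∀ p ∈ S, p.Prime) → c ≤ ∏ p ∈ S, dn k m N p :=
  Pool.Agent.Y988.KF.prod 3 (dn k m N) fun p hp => dn_facts hN hm hR p hp

end Pool.Agent.K6.H78.MF
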