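import Pool.Agent.K6.H78.MF.Geo
import Pool.Agent.K6.H78.MF.Loc
import Pool.Agent.Y86.KE.Elm
import Pool.Agent.Y592.KE.Lpc
import Pool.Agent.Y220.KE.Pad

/-!
Counting strictly reduced triples with local conditions at finitely many primes.
-/

set_option autoImplicit false
set_option linter.unusedSectionVars false
set_option linter.deprecated false
set_option linter.unusedVariables false

namespace Pool.Agent.K6.H78.MF

open Finset MeasureTheory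

variable {k m N : ℕ}

/-- the scales -/
def ys (k m N : ℕ) (Y Z : ℝ) : Ix k m N → ℝ := Sum.elim (fun _ => Y) (fun _ => Z)

theorem prod_ys (Y Z : ℝ) : ∏ i, ys k m N Y Z i = Y ^ (2 * N) * Z ^ (m * (k + 1)) := by
  unfold ys
  rw [Fintype.prod_sum_type]
  simp only [Sum.elim_inl, Sum.elim_inr, prod_const, card_univ]
  rw [Fintype.card_sum, Fintype.card_prod, Fintype.card_fin, Fintype.card_fin, Fintype.card_fin]
  congr 2
  ring

/-- scaled triples -/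
noncomputable def sd (Y Z : ℝ) (z : Ix k m N → ℤ) : Ix k m N → ℝ := fun i => (z i : ℝ) / ys k m N Y Z i

/-- scaling of real triples -/
def sc (a b : ℝ) (u : Ix k m N → ℝ) : Ix k m N → ℝ :=
  Sum.elim (fun i => a * u (Sum.inl i)) (fun ji => b * u (Sum.inr ji))

theorem sd_eq (Y Z : ℝ) (z : Ix k m N → ℤ) : sd Y Z z = sc Y⁻¹ Z⁻¹ (cr z) := by
  funext i
  unfold sd sc ys cr
  rcases i with i | i
  · simp only [Sum.elim_inl]; rw [div_eq_inv_mul]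
  · simp only [Sum.elim_inr]; rw [div_eq_inv_mul]

theorem cr_eq {Y Z : ℝ} (hY : 0 < Y) (hZ : 0 < Z) (z : Ix k m N → ℤ) :
    cr z = sc Y Z (sd Y Z z) := by
  rw [sd_eq]
  funext i
  unfold sc
  rcases i with i | i
  · simp only [Sum.elim_inl]
    rw [← mul_assoc, mul_inv_cancel₀ hY.ne', one_mul]
  · simp only [Sum.elim_inr]
    rw [← mul_assoc, mul_inv_cancel₀ hZ.ne', one_mul]

theorem V_sc (a b : ℝ) (u : Ix k m N → ℝ) : V (sc a b u) = fun i => a * V u i := rfl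
theorem W_sc (a b : ℝ) (u : Ix k m N → ℝ) : W (sc a b u) = fun i => a * W u i := rfl
theorem Qv_sc (a b : ℝ) (u : Ix k m N → ℝ) : Qv (sc a b u) = b • Qv u := rfl
theorem Qc_sc (a b : ℝ) (u : Ix k m N → ℝ) : Qc (sc a b u) = fun j i => b * Qc u j i := rfl

theorem sq_mul' (a : ℝ) (v : Fin N → ℝ) : sq (fun i => a * v i) = a ^ 2 * sq v := by
  unfold sq
  rw [mul_sum]
  exact sum_congr rfl fun i _ => by ring

theorem bl_mul' (a : ℝ) (v w : Fin N → ℝ) :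
    bl (fun i => a * v i) (fun i => a * w i) = a ^ 2 * bl v w := by
  unfold bl
  rw [mul_sum]
  exact sum_congr rfl fun i _ => by ring

theorem Gm_mul' (a : ℝ) (v w : Fin N → ℝ) :
    Gm (fun i => a * v i) (fun i => a * w i) = a ^ 4 * Gm v w := by
  unfold Gm
  rw [sq_mul', sq_mul', bl_mul']
  ring

theorem Gm_sc (a b : ℝ) (u : Ix k m N → ℝ) :
    Gm (V (sc a b u)) (W (sc a b u)) = a ^ 4 * Gm (V u) (W u) := by
  rw [V_sc, W_sc, Gm_mul']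

theorem WR_sc {a b : ℝ} (ha : 0 < a) {u : Ix k m N → ℝ} :
    WR (V (sc a b u)) (W (sc a b u)) ↔ WR (V u) (W u) := by
  unfold WR
  rw [V_sc, W_sc, sq_mul', sq_mul', bl_mul']
  have h : 0 < a ^ 2 := by positivity
  constructor
  · rintro ⟨h1, h2, h3⟩
    refine ⟨le_of_mul_le_mul_left h1 h, ?_, ?_⟩
    · by_contra hc
      rw [not_le] at hc
      nlinarith
    · apply le_of_mul_le_mul_left _ h
      linarith
  · rintro ⟨h1, h2, h3⟩
    refine ⟨mul_le_mul_of_nonneg_left h1 h.le, by positivity, ?_⟩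
    have := mul_le_mul_of_nonneg_left h3 h.le
    linarith

theorem SR_sc {a b : ℝ} (ha : 0 < a) {u : Ix k m N → ℝ} :
    SR (V (sc a b u)) (W (sc a b u)) ↔ SR (V u) (W u) := by
  unfold SR
  rw [V_sc, W_sc, sq_mul', sq_mul', bl_mul']
  have h : 0 < a ^ 2 := by positivity
  constructor
  · rintro ⟨h1, h2, h3⟩
    refine ⟨lt_of_mul_lt_mul_left h1 h.le, ?_, ?_⟩
    · by_contra hc
      rw [not_lt] at hc
      nlinarith
    · apply lt_of_mul_lt_mul_left _ h.le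
      linarith
  · rintro ⟨h1, h2, h3⟩
    refine ⟨mul_lt_mul_of_pos_left h1 h, by positivity, ?_⟩
    have := mul_lt_mul_of_pos_left h3 h
    linarith

/-- nondegenerate real triples -/
def Om (k m N : ℕ) : Set (Ix k m N → ℝ) := {u | 0 < Gm (V u) (W u) ∧ Qv u ≠ 0}

theorem Om_open : IsOpen (Om k m N) := by
  have e : Om k m N = {u | 0 < Gm (V u) (W u)} ∩ {u | Qv u ≠ 0} := rfl
  rw [e]
  exact (isOpen_lt continuous_const cont_Gm).inter (isOpen_ne_fun cont_Qv continuous_const)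

theorem Dm_sub_Om (K R₀ : ℝ) : Dm k m N K R₀ ⊆ Om k m N :=
  fun _ ⟨_, h2, _, _, h5, _⟩ => ⟨by linarith, h5⟩

theorem Om_sc {a b : ℝ} (ha : 0 < a) (hb : 0 < b) {u : Ix k m N → ℝ} (h : u ∈ Om k m N) :
    sc a b u ∈ Om k m N := by
  refine ⟨?_, ?_⟩
  · rw [Gm_sc]
    have := h.1
    positivity
  · rw [Qv_sc]
    exact smul_ne_zero hb.ne' h.2

/-- real heights -/
structure RH (k m N e : ℕ) (Φ : (Ix k m N → ℝ) → ℝ) : Prop where
  cont : ContinuousOn Φ (Om k m N)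
  pos : ∀ u ∈ Om k m N, 0 < Φ u
  scal : ∀ a b : ℝ, 0 < a → 0 < b → ∀ u ∈ Om k m N,
    Φ (sc a b u) = a ^ (2 * N) * b ^ (m * (k + 1)) * Φ u
  low : ∃ κ : ℝ, 0 < κ ∧ ∀ u ∈ Om k m N,
    κ * (‖T (V u) (W u) (Qc u)‖ ^ (m * (k + 1)) * ‖pl (V u) (W u)‖ ^ e) ≤ Φ u

/-- the finite part of the height -/
structure FH (k m N : ℕ) (S₀ : Finset ℕ) (f : (Ix k m N → ℤ) → ℝ) : Prop where
  prime : ∀ p ∈ S₀, p.Prime
  bd : ∃ m₁ M₁ : ℝ, 0 < m₁ ∧ ∀ z, (∀ p ∈ S₀, Lc p z) → m₁ ≤ f z ∧ f z ≤ M₁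
  apx : ∀ ε : ℝ, 0 < ε → ∃ q₁ : ℕ, 0 < q₁ ∧ ∀ z z', (∀ p ∈ S₀, Lc p z) → (∀ p ∈ S₀, Lc p z') →
    (∀ i, (z i : ZMod q₁) = (z' i : ZMod q₁)) → |f z - f z'| ≤ ε

/-- the primes up to `P` -/
def Pr (P : ℕ) : Finset ℕ := (range (P + 1)).filter Nat.Prime

theorem mem_Pr {P p : ℕ} : p ∈ Pr P ↔ p ≤ P ∧ p.Prime := by
  unfold Pr
  rw [mem_filter, mem_range]
  constructor
  · rintro ⟨h1, h2⟩; exact ⟨by omega, h2⟩
  · rintro ⟨h1, h2⟩; exact ⟨by omega, h2⟩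

theorem levels_null {e : ℕ} {Φ : (Ix k m N → ℝ) → ℝ} (hΦ : RH k m N e Φ) (hN : 1 ≤ N) {c : ℝ}
    (hc : 0 < c) : volume {u | u ∈ Om k m N ∧ Φ u = c} = 0 := by
  refine Pool.Agent.Y220.KE.levels volume Om_open hΦ.cont (d := 2 * N + m * (k + 1)) (by omega) ?_ hc
  intro l hl u hu
  have h1 : l • u = sc l l u := by
    funext i
    rcases i with i | i <;> rfl
  rw [h1]
  refine ⟨Om_sc hl hl hu, ?_⟩
  rw [hΦ.scal l l hl hl u hu, pow_add]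

/-- the count with local conditions at finitely many primes -/
theorem count_elm (hN : 1 ≤ N) (hm : 1 ≤ m) {e : ℕ} {Φ : (Ix k m N → ℝ) → ℝ} (hΦ : RH k m N e Φ)
    {S₀ : Finset ℕ} {f : (Ix k m N → ℤ) → ℝ} (hf : FH k m N S₀ f) (K R₀ : ℝ) (P₀ : ℕ)
    (hP₀ : ∀ p ∈ S₀, p ≤ P₀) (η : ℝ) (hη : 0 < η) :
    ∃ ℓ L : ℝ, 0 < L ∧ ∀ Y Z : ℝ, L ≤ Y → L ≤ Z →
      |({z : Ix k m N → ℤ | (∀ p ∈ Pr P₀, Lc p z) ∧ sd Y Z z ∈ Dm k m N K R₀ ∧
        Φ (sd Y Z z) * f z ≤ 1}.ncard : ℝ) / (Y ^ (2 * N) * Z ^ (m * (k + 1))) - ℓ| ≤ η := by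
  classical
  obtain ⟨m₁, M₁, hm₁, hbd⟩ := hf.bd
  obtain ⟨ε, hε, hE⟩ := Pool.Agent.Y86.KE.elm Pool.Agent.Y592.KE.LPC.lpc (Ix k m N)
    (Dm k m N K R₀) Φ m₁ M₁ 1 (Dm_bounded K R₀) (Dm_open K R₀) (frontier_Dm hN hm K R₀)
    (hΦ.cont.mono (Dm_sub_Om K R₀)) (fun u hu => hΦ.pos u (Dm_sub_Om K R₀ hu))
    (fun c hc => measure_mono_null (t := {u | u ∈ Om k m N ∧ Φ u = c})
      (fun u hu => ⟨Dm_sub_Om K R₀ hu.1, hu.2⟩) (levels_null hΦ hN hc)) hm₁ one_pos η hη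
  obtain ⟨q₁, hq₁, hq₁'⟩ := hf.apx ε hε
  set q : ℕ := q₁ * ∏ p ∈ Pr P₀, p with hq
  have hqpos : 0 < q := Nat.mul_pos hq₁ (prod_pos fun p hp => (mem_Pr.1 hp).2.pos)
  have hdvd : ∀ p ∈ Pr P₀, p ∣ q := fun p hp =>
    (dvd_prod_of_mem (fun p => p) hp).trans (dvd_mul_left _ _)
  set U : Set (Ix k m N → ZMod q) := {t | ∀ p ∈ Pr P₀, (fun i => ((t i).cast : ZMod p)) ∈ Tp k m N p}
    with hU
  have hUm : ∀ z : Ix k m N → ℤ, (fun i => (z i : ZMod q)) ∈ U ↔ ∀ p ∈ Pr P₀, Lc p z := by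
    intro z
    rw [hU, Set.mem_setOf_eq]
    refine forall₂_congr fun p hp => ?_
    have h1 : (fun i => (((z i : ZMod q)).cast : ZMod p)) = fun i => (z i : ZMod p) := by
      funext i
      exact ZMod.cast_intCast (hdvd p hp) (z i)
    simp only
    rw [h1, mem_Tp]
  have hS₀ : ∀ z : Ix k m N → ℤ, (∀ p ∈ Pr P₀, Lc p z) → ∀ p ∈ S₀, Lc p z :=
    fun z hz p hp => hz p (mem_Pr.2 ⟨hP₀ p hp, hf.prime p hp⟩)
  obtain ⟨ℓ, L, hL, h⟩ := hE q hqpos U (fun z => ∀ p ∈ S₀, Lc p z) f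
    {y | ∃ Y Z : ℝ, y = ys k m N Y Z} (fun Y _ z _ hz _ => hS₀ z ((hUm z).1 hz))
    (fun z hz _ => hbd z hz) (by
      intro z z' hz hz' _ hc
      refine hq₁' z z' hz hz' fun i => ?_
      have h1 := hc i
      have h2 : (q : ℤ) ∣ z i - z' i := by
        rw [← ZMod.intCast_zmod_eq_zero_iff_dvd]
        push_cast
        rw [h1, sub_self]
      have h3 : (q₁ : ℤ) ∣ z i - z' i :=
        (Int.natCast_dvd_natCast.2 (Dvd.intro _ rfl)).trans h2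
      have h4 := (ZMod.intCast_zmod_eq_zero_iff_dvd (z i - z' i) q₁).2 h3
      push_cast at h4
      exact sub_eq_zero.1 h4)
  refine ⟨ℓ, max L 1, by positivity, fun Y Z hY hZ => ?_⟩
  have h1 := h (ys k m N Y Z) ⟨Y, Z, rfl⟩ (by
    intro i
    unfold ys
    rcases i with i | i
    · exact (le_max_left _ _).trans hY
    · exact (le_max_left _ _).trans hZ)
  rw [prod_ys] at h1
  have h2 : {z : Ix k m N → ℤ | (∀ p ∈ Pr P₀, Lc p z) ∧ sd Y Z z ∈ Dm k m N K R₀ ∧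
        Φ (sd Y Z z) * f z ≤ 1} = {z : Ix k m N → ℤ | (fun i => (z i : ZMod q)) ∈ U ∧
      (fun i => (z i : ℝ) / ys k m N Y Z i) ∈ Dm k m N K R₀ ∧
      Φ (fun i => (z i : ℝ) / ys k m N Y Z i) * f z ≤ 1} := by
    ext z
    rw [Set.mem_setOf_eq, Set.mem_setOf_eq, hUm]
    rfl
  rw [h2]
  exact h1

end Pool.Agent.K6.H78.MF
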