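import Pool.Agent.K6.H78.MF.Pairs

/-!
The crude bound for the number of reduced triples.
-/

set_option autoImplicit false
set_option linter.unusedSectionVars false

namespace Pool.Agent.K6.H78.MF

open Finset

variable {k m N : ℕ}

/-- the coordinates of triples -/
abbrev Ix (k m N : ℕ) : Type := (Fin N ⊕ Fin N) ⊕ (Fin m × Fin (k + 1))

section

variable {R : Type*}

/-- the first vector -/
def V (z : Ix k m N → R) : Fin N → R := fun i => z (Sum.inl (Sum.inl i))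

/-- the second vector -/
def W (z : Ix k m N → R) : Fin N → R := fun i => z (Sum.inl (Sum.inr i))

/-- the coefficients -/
def Qc (z : Ix k m N → R) : Fin m → Fin (k + 1) → R := fun j i => z (Sum.inr (j, i))

/-- the triple with given parts -/
def glue (v w : Fin N → R) (q : Fin m × Fin (k + 1) → R) : Ix k m N → R :=
  Sum.elim (Sum.elim v w) q

theorem glue_eq (z : Ix k m N → R) : glue (V z) (W z) (fun p => Qc z p.1 p.2) = z := by
  funext i
  rcases i with (i | i) | i <;> rfl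

end

theorem V_cr (z : Ix k m N → ℤ) : V (cr z) = cr (V z) := rfl
theorem W_cr (z : Ix k m N → ℤ) : W (cr z) = cr (W z) := rfl
theorem Qc_cr (z : Ix k m N → ℤ) : Qc (cr z) = fun j => cr (Qc z j) := rfl

theorem box_real (x : ℝ) (hx : 1 ≤ x) :
    ((Icc (-((⌊x⌋₊ : ℕ) : ℤ)) ((⌊x⌋₊ : ℕ) : ℤ)).card : ℝ) ≤ 3 * x := by
  have h5 : (⌊x⌋₊ : ℝ) ≤ x := Nat.floor_le (by linarith)
  have h6 : (Icc (-((⌊x⌋₊ : ℕ) : ℤ)) ((⌊x⌋₊ : ℕ) : ℤ)).card = 2 * ⌊x⌋₊ + 1 := by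
    rw [Int.card_Icc]
    omega
  rw [h6, Nat.cast_add, Nat.cast_mul]
  push_cast
  linarith

/-- reduced triples in a cell -/
def Wset (k m N : ℕ) (A Y Z K : ℝ) : Set (Ix k m N → ℤ) :=
  {z | WR (V z) (W z) ∧ Y ^ 4 ≤ Gm (cr (V z)) (cr (W z)) ∧ Gm (cr (V z)) (cr (W z)) ≤ A * Y ^ 4 ∧
    K * nv (cr (V z)) ≤ nv (cr (W z)) ∧ (∃ j, Qc z j (Fin.last k) ≠ 0) ∧
    ‖cr (T (V z) (W z) (Qc z))‖ ≤ A * (Z * Y ^ k)}

theorem crude (hN1 : 1 ≤ N) (A : ℝ) (hA : 1 ≤ A) : ∃ C : ℝ, 0 < C ∧ ∀ Y Z K : ℝ, 0 < Y → 0 < Z →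
    1 ≤ K → (Wset k m N A Y Z K).Finite ∧
      ((Wset k m N A Y Z K).ncard : ℝ) ≤ C * (Z ^ (m * (k + 1)) * Y ^ (2 * N)) / K ∧
      ((Wset k m N A Y Z K).Nonempty → 1 ≤ C * Z) := by
  classical
  obtain ⟨C₀, hC₀, hpairs⟩ := pairs hN1
  set C₂ : ℝ := (2 * N) ^ k with hC₂
  have hC₂0 : 0 < C₂ := by positivity
  have hA0 : 0 < A := by linarith
  have hsA : 0 < Real.sqrt A := Real.sqrt_pos.2 hA0
  refine ⟨C₀ * (3 * (C₂ * A)) ^ (m * (k + 1)) * (2 * Real.sqrt A) ^ N + C₂ * A, by positivity, ?_⟩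
  intro Y Z K hY hZ hK
  have hK0 : 0 < K := by linarith
  set Q : ℝ := 2 * Real.sqrt A * Y ^ 2 with hQ
  have hQ0 : 0 < Q := by positivity
  set X : ℝ := C₂ * (A * (Z * Y ^ k)) with hX
  have hX0 : 0 < X := by positivity
  set P : Set ((Fin N → ℤ) × (Fin N → ℤ)) := {p | p.1 ≠ 0 ∧ WR p.1 p.2 ∧
    nv (cr p.1) * nv (cr p.2) ≤ Q ∧ K * nv (cr p.1) ≤ nv (cr p.2)} with hP
  obtain ⟨hPf, hPc⟩ := hpairs Q K hQ0 hK
  -- facts about the elements
  have hfacts : ∀ z ∈ Wset k m N A Y Z K, (V z, W z) ∈ P ∧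
      0 < nv (cr (V z)) ∧ nv (cr (V z)) ≤ nv (cr (W z)) ∧
      Y ^ 2 ≤ nv (cr (V z)) * nv (cr (W z)) ∧ nv (cr (W z)) ^ k ≤ X ∧
      (∀ (j : Fin m) (i : Fin (k + 1)), |((Qc z j i : ℤ) : ℝ)| *
        (nv (cr (V z)) ^ (k - (i : ℕ)) * nv (cr (W z)) ^ (i : ℕ)) ≤ X) := by
    rintro z ⟨h1, h2, h3, h4, ⟨j, hj⟩, h5⟩
    have hG : 0 < Gm (cr (V z)) (cr (W z)) := lt_of_lt_of_le (by positivity) h2
    have hWR : WR (cr (V z)) (cr (W z)) := WR_cr.2 h1
    obtain ⟨hv, hw⟩ := hWR.pos hG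
    have ha := nv_pos hv
    have hb := nv_pos hw
    have hab : nv (cr (V z)) ≤ nv (cr (W z)) := Real.sqrt_le_sqrt hWR.1
    have hab2 : (nv (cr (V z)) * nv (cr (W z))) ^ 2 = sq (cr (V z)) * sq (cr (W z)) := by
      rw [mul_pow, nv_sq, nv_sq]
    have hlow : Y ^ 2 ≤ nv (cr (V z)) * nv (cr (W z)) := by
      apply le_of_sq_le_sq _ (by positivity)
      rw [hab2, ← pow_mul]
      exact h2.trans (Gm_le _ _)
    have hup : nv (cr (V z)) * nv (cr (W z)) ≤ Q := by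
      apply le_of_sq_le_sq _ hQ0.le
      rw [hab2, hQ, mul_pow, mul_pow, Real.sq_sqrt hA0.le]
      have := Gm_ge hWR
      have hY4 : 0 ≤ A * Y ^ 4 := by positivity
      nlinarith
    have hqb : ∀ (j : Fin m) (i : Fin (k + 1)), |((Qc z j i : ℤ) : ℝ)| *
        (nv (cr (V z)) ^ (k - (i : ℕ)) * nv (cr (W z)) ^ (i : ℕ)) ≤ X := by
      intro j i
      have h6 := q_bound hWR hG (fun j => cr (Qc z j)) j i
      rw [T_cr] at h6
      refine h6.trans ?_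
      rw [hX]
      exact mul_le_mul_of_nonneg_left h5 hC₂0.le
    refine ⟨⟨?_, h1, hup, h4⟩, ha, hab, hlow, ?_, hqb⟩
    · rintro h0
      simp only at h0
      rw [h0] at hv
      unfold sq cr at hv
      simp at hv
    · have h6 := hqb j (Fin.last k)
      rw [Fin.val_last, Nat.sub_self, pow_zero, one_mul] at h6
      have h7 : (1 : ℝ) ≤ |((Qc z j (Fin.last k) : ℤ) : ℝ)| := by
        rw [← Int.cast_abs]
        exact_mod_cast Int.one_le_abs hj
      have h8 : 0 ≤ nv (cr (W z)) ^ k := by positivity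
      nlinarith
  -- the boxes for the coefficients
  set QB : (Fin N → ℤ) × (Fin N → ℤ) → Finset (Fin m × Fin (k + 1) → ℤ) := fun p =>
    Fintype.piFinset fun ji => Icc
      (-((⌊X / (nv (cr p.1) ^ (k - (ji.2 : ℕ)) * nv (cr p.2) ^ (ji.2 : ℕ))⌋₊ : ℕ) : ℤ))
      ((⌊X / (nv (cr p.1) ^ (k - (ji.2 : ℕ)) * nv (cr p.2) ^ (ji.2 : ℕ))⌋₊ : ℕ) : ℤ) with hQB
  set P' : Finset ((Fin N → ℤ) × (Fin N → ℤ)) := hPf.toFinset.filter fun p =>
    0 < nv (cr p.1) ∧ nv (cr p.1) ≤ nv (cr p.2) ∧ Y ^ 2 ≤ nv (cr p.1) * nv (cr p.2) ∧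
      nv (cr p.2) ^ k ≤ X with hP'
  set F : Finset (Ix k m N → ℤ) := P'.biUnion fun p => (QB p).image fun q => glue p.1 p.2 q with hF
  have hsub : Wset k m N A Y Z K ⊆ F := by
    intro z hz
    obtain ⟨h1, h2, h3, h4, h5, h6⟩ := hfacts z hz
    rw [hF, mem_coe, mem_biUnion]
    refine ⟨(V z, W z), ?_, ?_⟩
    · rw [hP', mem_filter]
      exact ⟨hPf.mem_toFinset.2 h1, h2, h3, h4, h5⟩
    · rw [mem_image]
      refine ⟨fun p => Qc z p.1 p.2, ?_, glue_eq z⟩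
      rw [hQB, Fintype.mem_piFinset]
      intro ji
      simp only
      have h7 := h6 ji.1 ji.2
      have h8 : 0 < nv (cr (V z)) ^ (k - (ji.2 : ℕ)) * nv (cr (W z)) ^ (ji.2 : ℕ) := by
        have : 0 < nv (cr (W z)) := by linarith
        positivity
      have h9 : (Qc z ji.1 ji.2).natAbs ≤
          ⌊X / (nv (cr (V z)) ^ (k - (ji.2 : ℕ)) * nv (cr (W z)) ^ (ji.2 : ℕ))⌋₊ := by
        apply Nat.le_floor
        rw [le_div_iff₀ h8, Nat.cast_natAbs]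
        push_cast
        exact h7
      rw [mem_Icc]
      omega
  have hQBc : ∀ p ∈ P', ((QB p).card : ℝ) ≤ (3 * (C₂ * A) * Z) ^ (m * (k + 1)) := by
    intro p hp
    rw [hP', mem_filter] at hp
    obtain ⟨_, ha, hab, hlow, hbX⟩ := hp
    have hb : 0 < nv (cr p.2) := by linarith
    rw [hQB, Fintype.card_piFinset]
    push_cast
    have h1 : ∀ ji ∈ (univ : Finset (Fin m × Fin (k + 1))), (((Icc
      (-((⌊X / (nv (cr p.1) ^ (k - (ji.2 : ℕ)) * nv (cr p.2) ^ (ji.2 : ℕ))⌋₊ : ℕ) : ℤ))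
      ((⌊X / (nv (cr p.1) ^ (k - (ji.2 : ℕ)) * nv (cr p.2) ^ (ji.2 : ℕ))⌋₊ : ℕ) : ℤ)).card : ℕ) : ℝ)
        ≤ 3 * X / (nv (cr p.1) ^ (k - (ji.2 : ℕ)) * nv (cr p.2) ^ (ji.2 : ℕ)) := by
      intro ji _
      have h2 : 0 < nv (cr p.1) ^ (k - (ji.2 : ℕ)) * nv (cr p.2) ^ (ji.2 : ℕ) := by positivity
      have h3 : nv (cr p.1) ^ (k - (ji.2 : ℕ)) * nv (cr p.2) ^ (ji.2 : ℕ) ≤ X := by
        refine le_trans ?_ hbX
        calc nv (cr p.1) ^ (k - (ji.2 : ℕ)) * nv (cr p.2) ^ (ji.2 : ℕ) ≤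
            nv (cr p.2) ^ (k - (ji.2 : ℕ)) * nv (cr p.2) ^ (ji.2 : ℕ) := by
              apply mul_le_mul_of_nonneg_right _ (by positivity)
              exact pow_le_pow_left₀ ha.le hab _
          _ = nv (cr p.2) ^ k := by
            rw [← pow_add]
            congr 1
            have := ji.2.2
            omega
      have h4 : 1 ≤ X / (nv (cr p.1) ^ (k - (ji.2 : ℕ)) * nv (cr p.2) ^ (ji.2 : ℕ)) := by
        rw [le_div_iff₀ h2, one_mul]
        exact h3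
      exact (box_real _ h4).trans (le_of_eq (by ring))
    refine (prod_le_prod (fun _ _ => by positivity) h1).trans ?_
    rw [Fintype.prod_prod_type]
    have h7 : ∏ i : Fin (k + 1), 3 * X / (nv (cr p.1) ^ (k - (i : ℕ)) * nv (cr p.2) ^ (i : ℕ)) ≤
        (3 * (C₂ * A) * Z) ^ (k + 1) := by
      rw [prod_div_distrib, prod_const, card_univ, Fintype.card_fin]
      have h8 := prod_weights (k := k) (nv (cr p.1)) (nv (cr p.2)) ha.le hb.le
      set Pw := ∏ i : Fin (k + 1), nv (cr p.1) ^ (k - (i : ℕ)) * nv (cr p.2) ^ (i : ℕ) with hPw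
      have hPw0 : 0 < Pw := prod_pos fun i _ => by positivity
      have h9 : Y ^ (k * (k + 1)) ≤ Pw := by
        apply le_of_sq_le_sq _ hPw0.le
        rw [h8, ← pow_mul, mul_comm (k * (k + 1)) 2, pow_mul]
        exact pow_le_pow_left₀ (by positivity) hlow _
      rw [div_le_iff₀ hPw0]
      calc (3 * X) ^ (k + 1) = (3 * (C₂ * A) * Z) ^ (k + 1) * Y ^ (k * (k + 1)) := by
            rw [hX, pow_mul, ← mul_pow]
            congr 1
            ring
        _ ≤ (3 * (C₂ * A) * Z) ^ (k + 1) * Pw :=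
          mul_le_mul_of_nonneg_left h9 (by positivity)
    calc ∏ _x : Fin m, ∏ y : Fin (k + 1), 3 * X / (nv (cr p.1) ^ (k - (y : ℕ)) * nv (cr p.2) ^ (y : ℕ))
        ≤ ∏ _x : Fin m, (3 * (C₂ * A) * Z) ^ (k + 1) :=
          prod_le_prod (fun _ _ => prod_nonneg fun _ _ => by positivity) fun _ _ => h7
      _ = (3 * (C₂ * A) * Z) ^ (m * (k + 1)) := by
        rw [prod_const, card_univ, Fintype.card_fin, ← pow_mul, Nat.mul_comm m (k + 1)]
  have hFc : (F.card : ℝ) ≤ P.ncard * (3 * (C₂ * A) * Z) ^ (m * (k + 1)) := by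
    have h1 : F.card ≤ ∑ p ∈ P', (QB p).card :=
      card_biUnion_le.trans (sum_le_sum fun _ _ => card_image_le)
    have h2 : (F.card : ℝ) ≤ ∑ p ∈ P', ((QB p).card : ℝ) := by exact_mod_cast h1
    refine h2.trans ((sum_le_sum hQBc).trans ?_)
    rw [sum_const, nsmul_eq_mul]
    apply mul_le_mul_of_nonneg_right _ (by positivity)
    have h3 : P'.card ≤ P.ncard := by
      rw [Set.ncard_eq_toFinset_card P hPf]
      exact card_le_card (filter_subset _ _)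
    exact_mod_cast h3
  refine ⟨F.finite_toSet.subset hsub, ?_, ?_⟩
  · have h1 : (Wset k m N A Y Z K).ncard ≤ F.card := by
      rw [← Set.ncard_coe_finset]
      exact Set.ncard_le_ncard hsub F.finite_toSet
    have h2 : ((Wset k m N A Y Z K).ncard : ℝ) ≤ F.card := by exact_mod_cast h1
    refine h2.trans (hFc.trans ?_)
    calc (P.ncard : ℝ) * (3 * (C₂ * A) * Z) ^ (m * (k + 1)) ≤
        (C₀ * Q ^ N / K) * (3 * (C₂ * A) * Z) ^ (m * (k + 1)) :=
          mul_le_mul_of_nonneg_right hPc (by positivity)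
      _ = (C₀ * (3 * (C₂ * A)) ^ (m * (k + 1)) * (2 * Real.sqrt A) ^ N) *
          (Z ^ (m * (k + 1)) * Y ^ (2 * N)) / K := by
        rw [hQ]
        simp only [mul_pow]
        rw [← pow_mul]
        ring
      _ ≤ _ := by
        rw [div_le_div_iff_of_pos_right hK0]
        apply mul_le_mul_of_nonneg_right _ (by positivity)
        linarith [mul_pos hC₂0 hA0]
  · rintro ⟨z, hz⟩
    obtain ⟨h1, h2, h3, h4, h5, h6⟩ := hfacts z hz
    have hb : 0 < nv (cr (W z)) := by linarith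
    have h7 : Y ≤ nv (cr (W z)) := by
      apply le_of_sq_le_sq _ hb.le
      calc Y ^ 2 ≤ nv (cr (V z)) * nv (cr (W z)) := h4
        _ ≤ nv (cr (W z)) * nv (cr (W z)) := mul_le_mul_of_nonneg_right h3 hb.le
        _ = nv (cr (W z)) ^ 2 := by ring
    have h8 : Y ^ k ≤ X := (pow_le_pow_left₀ hY.le h7 k).trans h5
    have h9 : 1 ≤ C₂ * A * Z := by
      have hYk : 0 < Y ^ k := by positivity
      rw [hX] at h8
      by_contra hcon
      rw [not_le] at hcon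
      have : C₂ * (A * (Z * Y ^ k)) = (C₂ * A * Z) * Y ^ k := by ring
      rw [this] at h8
      nlinarith
    have h10 : 0 ≤ C₀ * (3 * (C₂ * A)) ^ (m * (k + 1)) * (2 * Real.sqrt A) ^ N * Z := by positivity
    linarith [add_mul (C₀ * (3 * (C₂ * A)) ^ (m * (k + 1)) * (2 * Real.sqrt A) ^ N) (C₂ * A) Z]

end Pool.Agent.K6.H78.MF
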