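import Pool.Agent.K6.H78.MF.Pad

/-!
The points outside the open set: the tensors have a common factor.
-/

set_option autoImplicit false
set_option linter.unusedSectionVars false
set_option linter.deprecated false
set_option linter.unusedVariables false

namespace Pool.Agent.K6.H78.MF

open Finset Filter Topology

variable {k m N : ℕ}

/-- all points -/
def VV (k m N : ℕ) : Set (PP k m N) :=
  {P | ∃ (v w : Fin N → ℚ) (q : Fin m → Fin (k + 1) → ℚ), P.1.rep = pl v w ∧ P.2.rep = T v w q}

/-- the points whose tensors have a common factor -/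
def ZZ (k m N : ℕ) : Set (PP k m N) :=
  {P | ∃ (v w : Fin N → ℚ) (q : Fin m → Fin (k + 1) → ℚ), P.1.rep = pl v w ∧ P.2.rep = T v w q ∧
    ∀ j, q j 0 = 0}

theorem fv_one_zero {R : Type*} [CommRing R] (q : Fin (k + 1) → R) : fv q 1 0 = q 0 := by
  unfold fv
  rw [Finset.sum_eq_single 0]
  · simp
  · intro i _ hi
    have h : (i : ℕ) ≠ 0 := fun h => hi (Fin.ext h)
    rw [zero_pow h, mul_zero]
  · simp

theorem plane_eq {K : Type*} [Field K] {v w v' w' : Fin N → K} (h : pl v w ≠ 0)
    (he : pl v w = pl v' w') : ∃ α β : K, v' = fun i => α * v i + β * w i := by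
  obtain ⟨⟨a, b⟩, hab⟩ := Function.ne_iff.1 h
  have hD : v a * w b - v b * w a ≠ 0 := hab
  refine ⟨(v' a * w b - v' b * w a) / (v a * w b - v b * w a),
    (v a * v' b - v b * v' a) / (v a * w b - v b * w a), ?_⟩
  funext i
  have h1 := congrFun he (a, b)
  have h2 := congrFun he (b, i)
  have h3 := congrFun he (a, i)
  unfold pl at h1 h2 h3
  simp only at h1 h2 h3
  rw [div_mul_eq_mul_div, div_mul_eq_mul_div, ← add_div, eq_div_iff hD]
  linear_combination (v' i) * h1 - (v' b) * h3 + (v' a) * h2

theorem T_sub {K : Type*} [CommRing K] (v w : Fin N → K) (q q' : Fin m → Fin (k + 1) → K) :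
    T v w (q - q') = T v w q - T v w q' := by
  classical
  funext p
  rw [Pi.sub_apply]
  unfold T
  rw [← sum_sub_distrib]
  refine sum_congr rfl fun S _ => ?_
  rw [Pi.sub_apply, Pi.sub_apply, sub_mul]

theorem T_inj {K : Type*} [Field K] {v w : Fin N → K} (h : pl v w ≠ 0)
    {q q' : Fin m → Fin (k + 1) → K} (he : T v w q = T v w q') : q = q' := by
  by_contra hne
  exact T_ne h (sub_ne_zero.2 hne) (by rw [T_sub, he, sub_self])

theorem UU_eq : UU k m N = VV k m N \ ZZ k m N := by
  ext P
  constructor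
  · rintro ⟨v₁, w₁, q₁, e1, e2, hnz⟩
    refine ⟨⟨v₁, w₁, q₁, e1, e2⟩, ?_⟩
    rintro ⟨v, w, q, h1, h2, h3⟩
    have hpl : pl v w ≠ 0 := by rw [← h1]; exact P.1.rep_nonzero
    have he : pl v w = pl v₁ w₁ := h1.symm.trans e1
    obtain ⟨α, β, hv⟩ := plane_eq hpl he
    have he' : pl v w = pl (fun i => -w₁ i) v₁ := by
      rw [he]
      funext p
      unfold pl
      ring
    obtain ⟨γ', δ', hw⟩ := plane_eq hpl he'
    have hw' : w₁ = fun i => (-γ') * v i + (-δ') * w i := by
      funext i
      have h5 : -w₁ i = γ' * v i + δ' * w i := congrFun hw i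
      linear_combination -h5
    have hT : T v w (fun j => cb α β (-γ') (-δ') (q₁ j)) = T v w q := by
      rw [← T_cb, ← hv, ← hw', ← e2, h2]
    have hq := T_inj hpl hT
    have hdet : α * (-δ') - β * (-γ') ≠ 0 := by
      intro h0
      apply hpl
      rw [he, hv, hw', pl_comb, h0]
      funext p
      simp
    have hn := NZ_cb hdet hnz
    rw [hq] at hn
    obtain ⟨j, hj⟩ := hn 1 0 (Or.inl one_ne_zero)
    rw [fv_one_zero] at hj
    exact hj (h3 j)
  · rintro ⟨⟨v, w, q, e1, e2⟩, hn⟩
    refine ⟨v, w, q, e1, e2, ?_⟩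
    intro x y hxy
    by_contra hcon
    push Not at hcon
    apply hn
    obtain ⟨β, δ, hD⟩ : ∃ β δ : ℚ, x * δ - β * y = 1 := by
      rcases hxy with h | h
      · exact ⟨0, x⁻¹, by field_simp; ring⟩
      · exact ⟨-y⁻¹, 0, by field_simp; ring⟩
    refine ⟨fun i => δ * v i + (-β) * w i, fun i => (-y) * v i + x * w i,
      fun j => cb x β y δ (q j), ?_, ?_, fun j => ?_⟩
    · rw [pl_comb, e1]
      funext p
      linear_combination (-(pl v w p)) * hD
    · rw [← T_cb, e2]
      congr 1
      · funext i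
        linear_combination (-(v i)) * hD
      · funext i
        linear_combination (-(w i)) * hD
    · show cb x β y δ (q j) 0 = 0
      rw [← fv_one_zero (cb x β y δ (q j)), fv_cb]
      have h1 : x * 1 + β * 0 = x := by ring
      have h2 : y * 1 + δ * 0 = y := by ring
      rw [h1, h2]
      exact hcon j

end Pool.Agent.K6.H78.MF
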