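import Pool.Agent.K6.H78.MF.Cnt

/-!
The error terms in the balanced region.
-/

set_option autoImplicit false
set_option linter.unusedSectionVars false
set_option linter.deprecated false
set_option linter.unusedVariables false

namespace Pool.Agent.K6.H78.MF

open Finset MeasureTheory Filter

variable {k m N : ℕ}

theorem log_small (P : ℕ) (hP : 1 ≤ P) : ∃ B₀ : ℕ, 1 ≤ B₀ ∧ ∀ B : ℕ, B₀ ≤ B →
    (1 + Real.log B) ^ 2 / B ≤ 1 / P := by
  have h1 := Real.isLittleO_pow_log_id_atTop (n := 2)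
  have hP0 : (0 : ℝ) < P := by exact_mod_cast hP
  have h2 := h1.bound (show (0 : ℝ) < 1 / (4 * P) by positivity)
  obtain ⟨x₀, hx₀⟩ := eventually_atTop.1 h2
  refine ⟨⌈max x₀ (Real.exp 1)⌉₊ + 1, by omega, fun B hB => ?_⟩
  have hB1 : max x₀ (Real.exp 1) ≤ B := by
    refine (Nat.le_ceil _).trans ?_
    exact_mod_cast (by omega : ⌈max x₀ (Real.exp 1)⌉₊ ≤ B)
  have hB0 : (0 : ℝ) < B := lt_of_lt_of_le (Real.exp_pos 1) ((le_max_right _ _).trans hB1)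
  have h3 := hx₀ B ((le_max_left _ _).trans hB1)
  simp only [id_eq, Real.norm_eq_abs, abs_of_pos hB0] at h3
  rw [abs_of_nonneg (by positivity)] at h3
  have h4 : 1 ≤ Real.log B := by
    rw [Real.le_log_iff_exp_le hB0]
    exact (le_max_right _ _).trans hB1
  rw [div_le_div_iff₀ hB0 hP0]
  have h5 : (1 + Real.log B) ^ 2 ≤ 4 * Real.log B ^ 2 := by nlinarith
  have h6 : 4 * P * Real.log B ^ 2 ≤ B := by
    have := mul_le_mul_of_nonneg_left h3 (by positivity : (0 : ℝ) ≤ 4 * P)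
    calc 4 * P * Real.log B ^ 2 ≤ 4 * P * (1 / (4 * P) * B) := this
      _ = B := by field_simp
  nlinarith

theorem sd_vec {Y Z : ℝ} (hY : 0 < Y) (hZ : 0 < Z) {K R₀ : ℝ} {z : Ix k m N → ℤ}
    (h : sd Y Z z ∈ Dc k m N K R₀) : (V z ∈ bx N ⌊B₁ K * Y⌋₊ ∧ W z ∈ bx N ⌊B₁ K * Y⌋₊) ∧
      (fun ji : Fin m × Fin (k + 1) => Qc z ji.1 ji.2) ∈ bq (Fin m × Fin (k + 1)) ⌊R₀ * Z⌋₊ := by
  obtain ⟨h1, h2⟩ := Dc_vec h
  have key : ∀ (x : ℤ) (c S : ℝ), 0 < S → |(x : ℝ) / S| ≤ c → x.natAbs ≤ ⌊c * S⌋₊ := by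
    intro x c S hS hx
    apply Nat.le_floor
    rw [abs_div, abs_of_pos hS, div_le_iff₀ hS] at hx
    rw [Nat.cast_natAbs]
    push_cast
    exact hx
  refine ⟨⟨?_, ?_⟩, ?_⟩
  · rw [mem_bx]
    exact fun i => key _ _ _ hY (h1 i)
  · rw [mem_bx]
    exact fun i => key _ _ _ hY (h2 i)
  · rw [mem_bq]
    intro ji
    have h3 := (norm_le_pi_norm (Qv (sd Y Z z)) ji).trans h.2.2.2.2
    rw [Real.norm_eq_abs] at h3
    have h4 := key _ _ _ hZ h3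
    have h5 : Qc z ji.1 ji.2 = z (Sum.inr ji) := rfl
    rw [h5]
    omega

open scoped Classical in
/-- the error terms -/
theorem err (hN : 3 ≤ N) (hkm : 2 ≤ k * m) (hR : 2 ≤ m * (k + 1)) (K R₀ : ℝ) (hR₀ : 0 < R₀) :
    ∃ C : ℝ, 0 < C ∧ ∀ P₀ : ℕ, 1 ≤ P₀ → ∃ L : ℝ, 0 < L ∧ ∀ Y Z : ℝ, L ≤ Y → L ≤ Z →
      {z : Ix k m N → ℤ | sd Y Z z ∈ Dm k m N K R₀ ∧ ((∃ p : ℕ, p.Prime ∧ P₀ < p ∧ ¬ Lc p z) ∨
        ¬ NZ (fun j i => ((Qc z j i : ℤ) : ℚ)))}.Finite ∧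
      ({z : Ix k m N → ℤ | sd Y Z z ∈ Dm k m N K R₀ ∧ ((∃ p : ℕ, p.Prime ∧ P₀ < p ∧ ¬ Lc p z) ∨
        ¬ NZ (fun j i => ((Qc z j i : ℤ) : ℚ)))}.ncard : ℝ) ≤
        C / P₀ * (Y ^ (2 * N) * Z ^ (m * (k + 1))) := by
  obtain ⟨C₁, hC₁, htail⟩ := tail_pl hN
  obtain ⟨C₂, hC₂, hzeros⟩ := zeros hkm
  have hB₁ := one_le_B₁ K
  have hB₁0 : 0 < B₁ K := by linarith
  refine ⟨(2 * C₁ * 3 ^ (m * (k + 1)) + 3 ^ (2 * N) * (3 ^ (m * (k + 1)) + C₂)) *
    (B₁ K ^ (2 * N) * R₀ ^ (m * (k + 1))), by positivity, fun P₀ hP₀ => ?_⟩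
  obtain ⟨B₀, hB₀, hlog⟩ := log_small P₀ hP₀
  have hP₀0 : (0 : ℝ) < P₀ := by exact_mod_cast hP₀
  refine ⟨max (P₀ + 3) ((B₀ + 1) / R₀), by positivity, fun Y Z hY hZ => ?_⟩
  have hY1 : (P₀ : ℝ) + 3 ≤ Y := (le_max_left _ _).trans hY
  have hZ1 : (B₀ : ℝ) + 1 ≤ R₀ * Z := by
    have := (le_max_right _ _).trans hZ
    rw [div_le_iff₀ hR₀] at this
    linarith
  have hY0 : 0 < Y := by linarith
  have hZ0 : 0 < Z := by
    by_contra hc
    rw [not_lt] at hc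
    have : (0 : ℝ) ≤ B₀ := Nat.cast_nonneg _
    nlinarith
  set A : ℕ := ⌊B₁ K * Y⌋₊ with hA
  set B : ℕ := ⌊R₀ * Z⌋₊ with hB
  set R : ℕ := m * (k + 1) with hRdef
  have hAge : P₀ + 3 ≤ A := by
    apply Nat.le_floor
    push_cast
    nlinarith
  have hBge : B₀ ≤ B := by
    apply Nat.le_floor
    linarith
  have hAle : (A : ℝ) ≤ B₁ K * Y := Nat.floor_le (by positivity)
  have hBle : (B : ℝ) ≤ R₀ * Z := Nat.floor_le (by positivity)
  have hA0 : (0 : ℝ) < A := by exact_mod_cast (by omega : 0 < A)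
  have hB0 : (0 : ℝ) < B := by exact_mod_cast (by omega : 0 < B)
  have hA1 : (1 : ℝ) ≤ A := by exact_mod_cast (by omega : 1 ≤ A)
  have hB1 : (1 : ℝ) ≤ B := by exact_mod_cast (by omega : 1 ≤ B)
  set PA : Finset ((Fin N → ℤ) × (Fin N → ℤ)) := (bx N A) ×ˢ (bx N A) with hPA
  set PB := PA.filter fun x : (Fin N → ℤ) × (Fin N → ℤ) => pl x.1 x.2 ≠ 0 ∧
      ∃ p : ℕ, p.Prime ∧ P₀ < p ∧ ∀ r, (p : ℤ) ∣ pl x.1 x.2 r with hPB
  set QA := bq (Fin m × Fin (k + 1)) B with hQA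
  set QB := QA.filter fun q => q ≠ 0 ∧ ∃ p : ℕ, p.Prime ∧ P₀ < p ∧ ∀ j, (p : ℤ) ∣ q j with hQB
  set QN := QA.filter fun q : Fin m × Fin (k + 1) → ℤ => ¬ NZ (fun j i => (q (j, i) : ℚ)) with hQN
  set E : Finset (Ix k m N → ℤ) := ((PB ×ˢ QA) ∪ (PA ×ˢ (QB ∪ QN))).image
    fun x => glue x.1.1 x.1.2 x.2 with hE
  set S : Set (Ix k m N → ℤ) := {z : Ix k m N → ℤ | sd Y Z z ∈ Dm k m N K R₀ ∧
    ((∃ p : ℕ, p.Prime ∧ P₀ < p ∧ ¬ Lc p z) ∨ ¬ NZ (fun j i => ((Qc z j i : ℤ) : ℚ)))} with hS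
  have hsub : S ⊆ E := by
    rintro z ⟨hz, hbad⟩
    obtain ⟨⟨hv, hw⟩, hq⟩ := sd_vec hY0 hZ0 (Dm_sub_Dc K R₀ hz)
    have hOm := Om_sc hY0 hZ0 (Dm_sub_Om K R₀ hz)
    rw [← cr_eq hY0 hZ0] at hOm
    obtain ⟨hG, hQ⟩ := hOm
    have hpl : pl (V z) (W z) ≠ 0 := by
      intro h0
      have h1 := lagrange (V z) (W z)
      rw [h0] at h1
      simp only [Pi.zero_apply, ne_eq, OfNat.ofNat_ne_zero, not_false_eq_true, zero_pow,
        sum_const_zero] at h1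
      rw [V_cr, W_cr, Gm_cr] at hG
      have h2 : 0 < Gm (V z) (W z) := by exact_mod_cast hG
      omega
    have hQ0 : (fun ji : Fin m × Fin (k + 1) => Qc z ji.1 ji.2) ≠ 0 := by
      intro h0
      apply hQ
      funext ji
      have := congrFun h0 ji
      simp only [Pi.zero_apply] at this
      show ((Qc z ji.1 ji.2 : ℤ) : ℝ) = 0
      rw [this]
      simp
    rw [hE, mem_coe, mem_image]
    refine ⟨((V z, W z), fun ji => Qc z ji.1 ji.2), ?_, glue_eq z⟩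
    rw [mem_union, mem_product, mem_product]
    rcases hbad with ⟨p, hp, hPp, hL⟩ | hnz
    · unfold Lc at hL
      rw [not_and_or, not_not, not_not] at hL
      rcases hL with hL | hL
      · left
        refine ⟨?_, hq⟩
        rw [hPB, mem_filter, hPA, mem_product]
        exact ⟨⟨hv, hw⟩, hpl, p, hp, hPp, hL⟩
      · right
        refine ⟨?_, mem_union_left _ ?_⟩
        · rw [hPA, mem_product]; exact ⟨hv, hw⟩
        · rw [hQB, mem_filter]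
          exact ⟨hq, hQ0, p, hp, hPp, hL⟩
    · right
      refine ⟨?_, mem_union_right _ ?_⟩
      · rw [hPA, mem_product]; exact ⟨hv, hw⟩
      · rw [hQN, mem_filter]
        exact ⟨hq, hnz⟩
  refine ⟨E.finite_toSet.subset hsub, ?_⟩
  have hc1 : S.ncard ≤ PB.card * QA.card + PA.card * (QB.card + QN.card) := by
    have h1 : S.ncard ≤ E.card := by
      rw [← Set.ncard_coe_finset]
      exact Set.ncard_le_ncard hsub E.finite_toSet
    refine h1.trans (card_image_le.trans ((card_union_le _ _).trans ?_))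
    rw [card_product, card_product]
    exact Nat.add_le_add_left (Nat.mul_le_mul_left _ (card_union_le _ _)) _
  have hc2 : (S.ncard : ℝ) ≤ PB.card * QA.card + PA.card * (QB.card + QN.card) := by
    exact_mod_cast hc1
  have hJ : Fintype.card (Fin m × Fin (k + 1)) = R := by
    rw [Fintype.card_prod, Fintype.card_fin, Fintype.card_fin]
  have hinvA : (1 : ℝ) / A ≤ 1 / P₀ := by
    apply one_div_le_one_div_of_le hP₀0
    exact_mod_cast (by omega : P₀ ≤ A)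
  have c1 : (PB.card : ℝ) ≤ C₁ * (A : ℝ) ^ (2 * N) * (2 / P₀) := by
    refine (htail P₀ A hP₀ (by omega)).trans ?_
    apply mul_le_mul_of_nonneg_left _ (by positivity)
    calc (1 : ℝ) / P₀ + 1 / A ≤ 1 / P₀ + 1 / P₀ := by linarith
      _ = 2 / P₀ := by ring
  have c2 : (QA.card : ℝ) ≤ (3 * B) ^ R := by
    rw [hQA, card_bq, hJ]
    push_cast
    exact pow_le_pow_left₀ (by positivity) (by linarith) _
  have c3 : (PA.card : ℝ) ≤ (3 * A) ^ (2 * N) := by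
    rw [hPA, card_product]
    have h6 : (bx N A).card = (2 * A + 1) ^ N := by
      unfold bx
      rw [Fintype.card_piFinset, prod_const, card_Icc', card_univ, Fintype.card_fin]
    rw [h6]
    push_cast
    rw [← pow_add, ← two_mul]
    exact pow_le_pow_left₀ (by positivity) (by linarith) _
  have c4 : (QB.card : ℝ) ≤ (3 * B) ^ R / P₀ := by
    have := tail_one (J := Fin m × Fin (k + 1)) (by rw [hJ]; exact hR) P₀ B hP₀
    rw [hJ] at this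
    exact this
  have c5 : (QN.card : ℝ) ≤ C₂ * ((B : ℝ) ^ R * (1 / P₀)) := by
    refine (hzeros B (by omega)).trans ?_
    apply mul_le_mul_of_nonneg_left _ hC₂.le
    have h1 := hlog B hBge
    have h2 : (B : ℝ) ^ (R - 1) * (1 + Real.log B) ^ 2 = (B : ℝ) ^ R * ((1 + Real.log B) ^ 2 / B) := by
      have : (B : ℝ) ^ R = (B : ℝ) ^ (R - 1) * B := by
        rw [← pow_succ]; congr 1; omega
      rw [this]
      field_simp
    rw [h2]
    exact mul_le_mul_of_nonneg_left h1 (by positivity)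
  have hfin : (S.ncard : ℝ) ≤ (2 * C₁ * 3 ^ R + 3 ^ (2 * N) * (3 ^ R + C₂)) *
      ((A : ℝ) ^ (2 * N) * (B : ℝ) ^ R) / P₀ := by
    refine hc2.trans ?_
    have q1 : (0 : ℝ) ≤ QA.card := Nat.cast_nonneg _
    have q2 : (0 : ℝ) ≤ (QB.card : ℝ) + QN.card := by positivity
    calc (PB.card : ℝ) * QA.card + PA.card * (QB.card + QN.card) ≤
        (C₁ * (A : ℝ) ^ (2 * N) * (2 / P₀)) * (3 * B) ^ R +
        (3 * A) ^ (2 * N) * ((3 * B) ^ R / P₀ + C₂ * ((B : ℝ) ^ R * (1 / P₀))) := by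
          refine add_le_add (mul_le_mul c1 c2 q1 (by positivity)) ?_
          exact mul_le_mul c3 (add_le_add c4 c5) q2 (by positivity)
      _ = _ := by rw [mul_pow, mul_pow]; ring
  refine hfin.trans ?_
  have h1 : (A : ℝ) ^ (2 * N) * (B : ℝ) ^ R ≤ (B₁ K * Y) ^ (2 * N) * (R₀ * Z) ^ R :=
    mul_le_mul (pow_le_pow_left₀ hA0.le hAle _) (pow_le_pow_left₀ hB0.le hBle _)
      (by positivity) (by positivity)
  calc (2 * C₁ * 3 ^ R + 3 ^ (2 * N) * (3 ^ R + C₂)) * ((A : ℝ) ^ (2 * N) * (B : ℝ) ^ R) / P₀ ≤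
      (2 * C₁ * 3 ^ R + 3 ^ (2 * N) * (3 ^ R + C₂)) *
        ((B₁ K * Y) ^ (2 * N) * (R₀ * Z) ^ R) / P₀ := by gcongr
    _ = _ := by rw [mul_pow, mul_pow]; ring

end Pool.Agent.K6.H78.MF
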