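import Pool.Agent.K6.H78.MF.Crude
import Pool.Agent.H450R2.Sp.Null

/-!
The region of strictly reduced triples.
-/

set_option autoImplicit false
set_option linter.unusedSectionVars false

namespace Pool.Agent.K6.H78.MF

open Finset MeasureTheory

variable {k m N : ℕ}

/-! ### polynomial functions -/

section poly

variable {σ : Type}

/-- real polynomial functions -/
def IsPoly (f : (σ → ℝ) → ℝ) : Prop :=
  ∃ P : MvPolynomial σ ℂ, ∀ y, ((f y : ℝ) : ℂ) = MvPolynomial.eval (fun j => (y j : ℂ)) P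

theorem IsPoly.const (c : ℝ) : IsPoly (σ := σ) fun _ => c :=
  ⟨MvPolynomial.C (c : ℂ), fun y => by simp⟩

theorem IsPoly.coord (i : σ) : IsPoly (σ := σ) fun y => y i :=
  ⟨MvPolynomial.X i, fun y => by simp⟩

theorem IsPoly.add {f g : (σ → ℝ) → ℝ} (hf : IsPoly f) (hg : IsPoly g) :
    IsPoly fun y => f y + g y := by
  obtain ⟨P, hP⟩ := hf
  obtain ⟨Q, hQ⟩ := hg
  exact ⟨P + Q, fun y => by rw [map_add, ← hP, ← hQ]; push_cast; rfl⟩

theorem IsPoly.mul {f g : (σ → ℝ) → ℝ} (hf : IsPoly f) (hg : IsPoly g) :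
    IsPoly fun y => f y * g y := by
  obtain ⟨P, hP⟩ := hf
  obtain ⟨Q, hQ⟩ := hg
  exact ⟨P * Q, fun y => by rw [map_mul, ← hP, ← hQ]; push_cast; rfl⟩

theorem IsPoly.sub {f g : (σ → ℝ) → ℝ} (hf : IsPoly f) (hg : IsPoly g) :
    IsPoly fun y => f y - g y := by
  obtain ⟨P, hP⟩ := hf
  obtain ⟨Q, hQ⟩ := hg
  exact ⟨P - Q, fun y => by rw [map_sub, ← hP, ← hQ]; push_cast; rfl⟩

theorem IsPoly.sum {ι : Type} (s : Finset ι) {f : ι → (σ → ℝ) → ℝ} (hf : ∀ i ∈ s, IsPoly (f i)) :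
    IsPoly fun y => ∑ i ∈ s, f i y := by
  classical
  induction s using Finset.induction_on with
  | empty => simpa using IsPoly.const 0
  | insert a s ha ih =>
    simp only [sum_insert ha]
    exact (hf a (mem_insert_self a s)).add (ih fun i hi => hf i (mem_insert_of_mem hi))

theorem IsPoly.null [Fintype σ] {f : (σ → ℝ) → ℝ} (hf : IsPoly f) (y₀ : σ → ℝ) (h0 : f y₀ ≠ 0) :
    volume {y : σ → ℝ | f y = 0} = 0 := by
  obtain ⟨P, hP⟩ := hf
  have h1 : P ≠ 0 := by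
    rintro rfl
    apply h0
    have := hP y₀
    rw [map_zero] at this
    exact_mod_cast this
  have h2 := H450Sp.poly_null P h1
  have h3 : {y : σ → ℝ | f y = 0} = {y : σ → ℝ | MvPolynomial.eval (fun j => (y j : ℂ)) P = 0} := by
    ext y
    simp only [Set.mem_setOf_eq]
    rw [← hP]
    norm_cast
  rw [h3]
  exact h2

end poly

theorem poly_sqV : IsPoly fun u : Ix k m N → ℝ => sq (V u) :=
  IsPoly.sum univ fun i _ => (IsPoly.coord _).mul (IsPoly.coord _)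

theorem poly_sqW : IsPoly fun u : Ix k m N → ℝ => sq (W u) :=
  IsPoly.sum univ fun i _ => (IsPoly.coord _).mul (IsPoly.coord _)

theorem poly_bl : IsPoly fun u : Ix k m N → ℝ => bl (V u) (W u) :=
  IsPoly.sum univ fun i _ => (IsPoly.coord _).mul (IsPoly.coord _)

theorem poly_Gm : IsPoly fun u : Ix k m N → ℝ => Gm (V u) (W u) := by
  have h := (poly_sqV (k := k) (m := m) (N := N)).mul poly_sqW
  have h2 := (poly_bl (k := k) (m := m) (N := N)).mul poly_bl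
  have h3 := h.sub h2
  refine Eq.mp (congrArg IsPoly ?_) h3
  funext u
  unfold Gm
  ring

/-! ### continuity -/

theorem cont_V : Continuous fun u : Ix k m N → ℝ => V u := by
  unfold V; fun_prop

theorem cont_W : Continuous fun u : Ix k m N → ℝ => W u := by
  unfold W; fun_prop

theorem cont_sqV : Continuous fun u : Ix k m N → ℝ => sq (V u) := by
  unfold sq V; fun_prop

theorem cont_sqW : Continuous fun u : Ix k m N → ℝ => sq (W u) := by
  unfold sq W; fun_prop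

theorem cont_bl : Continuous fun u : Ix k m N → ℝ => bl (V u) (W u) := by
  unfold bl V W; fun_prop

theorem cont_Gm : Continuous fun u : Ix k m N → ℝ => Gm (V u) (W u) := by
  unfold Gm
  exact (cont_sqV.mul cont_sqW).sub (cont_bl.pow 2)

/-- the coefficients as one vector -/
def Qv (u : Ix k m N → ℝ) : Fin m × Fin (k + 1) → ℝ := fun ji => u (Sum.inr ji)

theorem cont_Qv : Continuous fun u : Ix k m N → ℝ => Qv u := by
  unfold Qv; fun_prop

/-! ### the regions -/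

/-- the open region -/
def Dm (k m N : ℕ) (K R₀ : ℝ) : Set (Ix k m N → ℝ) :=
  {u | SR (V u) (W u) ∧ 1 < Gm (V u) (W u) ∧ Gm (V u) (W u) < Real.exp 4 ∧
    sq (W u) < K ^ 2 * sq (V u) ∧ Qv u ≠ 0 ∧ ‖Qv u‖ < R₀}

/-- the closed region -/
def Dc (k m N : ℕ) (K R₀ : ℝ) : Set (Ix k m N → ℝ) :=
  {u | WR (V u) (W u) ∧ 1 ≤ Gm (V u) (W u) ∧ Gm (V u) (W u) ≤ Real.exp 4 ∧
    sq (W u) ≤ K ^ 2 * sq (V u) ∧ ‖Qv u‖ ≤ R₀}

theorem Dm_sub_Dc (K R₀ : ℝ) : Dm k m N K R₀ ⊆ Dc k m N K R₀ :=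
  fun _ ⟨h1, h2, h3, h4, _, h6⟩ => ⟨h1.wr, h2.le, h3.le, h4.le, h6.le⟩

theorem Dm_open (K R₀ : ℝ) : IsOpen (Dm k m N K R₀) := by
  have e : Dm k m N K R₀ = {u | sq (V u) < sq (W u)} ∩ {u | 0 < bl (V u) (W u)} ∩
      {u | 2 * bl (V u) (W u) < sq (V u)} ∩ {u | 1 < Gm (V u) (W u)} ∩
      {u | Gm (V u) (W u) < Real.exp 4} ∩ {u | sq (W u) < K ^ 2 * sq (V u)} ∩
      {u | Qv u ≠ 0} ∩ {u | ‖Qv u‖ < R₀} := by
    ext u
    simp only [Dm, SR, Set.mem_setOf_eq, Set.mem_inter_iff]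
    tauto
  rw [e]
  refine ((((((IsOpen.inter (IsOpen.inter ?_ ?_) ?_).inter ?_).inter ?_).inter ?_).inter ?_).inter ?_)
  · exact isOpen_lt cont_sqV cont_sqW
  · exact isOpen_lt continuous_const cont_bl
  · exact isOpen_lt (continuous_const.mul cont_bl) cont_sqV
  · exact isOpen_lt continuous_const cont_Gm
  · exact isOpen_lt cont_Gm continuous_const
  · exact isOpen_lt cont_sqW (continuous_const.mul cont_sqV)
  · exact isOpen_ne_fun cont_Qv continuous_const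
  · exact isOpen_lt cont_Qv.norm continuous_const

theorem Dc_closed (K R₀ : ℝ) : IsClosed (Dc k m N K R₀) := by
  have e : Dc k m N K R₀ = {u | sq (V u) ≤ sq (W u)} ∩ {u | 0 ≤ bl (V u) (W u)} ∩
      {u | 2 * bl (V u) (W u) ≤ sq (V u)} ∩ {u | 1 ≤ Gm (V u) (W u)} ∩
      {u | Gm (V u) (W u) ≤ Real.exp 4} ∩ {u | sq (W u) ≤ K ^ 2 * sq (V u)} ∩
      {u | ‖Qv u‖ ≤ R₀} := by
    ext u
    simp only [Dc, WR, Set.mem_setOf_eq, Set.mem_inter_iff]
    tauto
  rw [e]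
  refine (((((IsClosed.inter (IsClosed.inter ?_ ?_) ?_).inter ?_).inter ?_).inter ?_).inter ?_)
  · exact isClosed_le cont_sqV cont_sqW
  · exact isClosed_le continuous_const cont_bl
  · exact isClosed_le (continuous_const.mul cont_bl) cont_sqV
  · exact isClosed_le continuous_const cont_Gm
  · exact isClosed_le cont_Gm continuous_const
  · exact isClosed_le cont_sqW (continuous_const.mul cont_sqV)
  · exact isClosed_le cont_Qv.norm continuous_const

/-- the bound for the vectors of the closed region -/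
noncomputable def B₁ (K : ℝ) : ℝ := (1 + K ^ 2) * Real.exp 4 + 1

theorem one_le_B₁ (K : ℝ) : 1 ≤ B₁ K := by
  unfold B₁
  have := Real.exp_pos 4
  nlinarith [sq_nonneg K, mul_nonneg (sq_nonneg K) this.le]

theorem Dc_vec {K R₀ : ℝ} {u : Ix k m N → ℝ} (h : u ∈ Dc k m N K R₀) :
    (∀ i, |V u i| ≤ B₁ K) ∧ ∀ i, |W u i| ≤ B₁ K := by
  obtain ⟨h1, h2, h3, h4, _⟩ := h
  have hG : 0 < Gm (V u) (W u) := by linarith
  obtain ⟨hv, hw⟩ := h1.pos hG
  have h5 := Gm_ge h1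
  have h6 : sq (V u) * sq (W u) ≤ 4 / 3 * Real.exp 4 := by linarith
  have he : 1 ≤ Real.exp 4 := Real.one_le_exp (by norm_num)
  have h7 : sq (W u) ^ 2 ≤ K ^ 2 * (4 / 3 * Real.exp 4) := by
    calc sq (W u) ^ 2 = sq (W u) * sq (W u) := by ring
      _ ≤ (K ^ 2 * sq (V u)) * sq (W u) := mul_le_mul_of_nonneg_right h4 hw.le
      _ = K ^ 2 * (sq (V u) * sq (W u)) := by ring
      _ ≤ _ := mul_le_mul_of_nonneg_left h6 (sq_nonneg K)
  have h8 : sq (W u) ≤ B₁ K ^ 2 := by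
    unfold B₁
    nlinarith [sq_nonneg K, sq_nonneg (sq (W u) - 1), mul_nonneg (sq_nonneg K) (by linarith : (0:ℝ) ≤ Real.exp 4), mul_nonneg (mul_nonneg (sq_nonneg K) (by linarith : (0:ℝ) ≤ Real.exp 4)) (by linarith : (0:ℝ) ≤ Real.exp 4)]
  have h9 : nv (W u) ≤ B₁ K := by
    unfold nv
    rw [← Real.sqrt_sq (by linarith [one_le_B₁ K] : (0 : ℝ) ≤ B₁ K)]
    exact Real.sqrt_le_sqrt h8
  have h10 : nv (V u) ≤ nv (W u) := Real.sqrt_le_sqrt h1.1
  exact ⟨fun i => (abs_le_nv _ i).trans (h10.trans h9), fun i => (abs_le_nv _ i).trans h9⟩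

theorem Dc_bounded (K R₀ : ℝ) : Bornology.IsBounded (Dc k m N K R₀) := by
  rw [isBounded_iff_forall_norm_le]
  refine ⟨max (B₁ K) R₀, fun u hu => ?_⟩
  obtain ⟨h1, h2⟩ := Dc_vec hu
  rw [pi_norm_le_iff_of_nonneg (le_max_of_le_left (by linarith [one_le_B₁ K]))]
  intro i
  rw [Real.norm_eq_abs]
  rcases i with (i | i) | ji
  · exact (h1 i).trans (le_max_left _ _)
  · exact (h2 i).trans (le_max_left _ _)
  · have h3 := (norm_le_pi_norm (Qv u) ji).trans hu.2.2.2.2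
    rw [Real.norm_eq_abs] at h3
    exact h3.trans (le_max_right _ _)

theorem Dm_bounded (K R₀ : ℝ) : Bornology.IsBounded (Dm k m N K R₀) :=
  (Dc_bounded K R₀).subset (Dm_sub_Dc K R₀)

theorem glue_V (v w : Fin N → ℝ) (q : Fin m × Fin (k + 1) → ℝ) : V (glue v w q) = v := rfl
theorem glue_W (v w : Fin N → ℝ) (q : Fin m × Fin (k + 1) → ℝ) : W (glue v w q) = w := rfl
theorem glue_Qv (v w : Fin N → ℝ) (q : Fin m × Fin (k + 1) → ℝ) : Qv (glue v w q) = q := rfl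

/-- the boundary is a null set -/
theorem bdry_null (hN : 1 ≤ N) (hm : 1 ≤ m) (K R₀ : ℝ) :
    volume (Dc k m N K R₀ \ Dm k m N K R₀) = 0 := by
  classical
  set i₀ : Fin N := ⟨0, hN⟩ with hi₀
  set j₀ : Fin m × Fin (k + 1) := (⟨0, hm⟩, 0) with hj₀
  set e : Fin N → ℝ := Pi.single i₀ 1 with he
  have hee : sq e = 1 := by
    unfold sq
    rw [Finset.sum_eq_single i₀]
    · simp [he]
    · intro i _ hi; simp [he, hi]
    · simp
  have h00 : sq (0 : Fin N → ℝ) = 0 := by unfold sq; simp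
  have hb0 : bl e (0 : Fin N → ℝ) = 0 := by unfold bl; simp
  have hbe : bl e e = 1 := hee
  have n1 : volume {u : Ix k m N → ℝ | sq (W u) - sq (V u) = 0} = 0 :=
    (poly_sqW.sub poly_sqV).null (glue e 0 0) (by
      rw [glue_V, glue_W, hee, h00]; norm_num)
  have n2 : volume {u : Ix k m N → ℝ | bl (V u) (W u) = 0} = 0 :=
    poly_bl.null (glue e e 0) (by rw [glue_V, glue_W, hbe]; norm_num)
  have n3 : volume {u : Ix k m N → ℝ | 2 * bl (V u) (W u) - sq (V u) = 0} = 0 :=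
    (((IsPoly.const 2).mul poly_bl).sub poly_sqV).null (glue e 0 0) (by
      rw [glue_V, glue_W, hb0, hee]; norm_num)
  have hG0 : Gm (0 : Fin N → ℝ) 0 = 0 := by
    unfold Gm; rw [h00]; unfold bl; simp
  have n4 : volume {u : Ix k m N → ℝ | Gm (V u) (W u) - 1 = 0} = 0 :=
    (poly_Gm.sub (IsPoly.const 1)).null (glue 0 0 0) (by
      rw [glue_V, glue_W, hG0]; norm_num)
  have n5 : volume {u : Ix k m N → ℝ | Gm (V u) (W u) - Real.exp 4 = 0} = 0 :=
    (poly_Gm.sub (IsPoly.const (Real.exp 4))).null (glue 0 0 0) (by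
      rw [glue_V, glue_W, hG0]
      have := Real.exp_pos 4
      linarith)
  have n6 : volume {u : Ix k m N → ℝ | sq (W u) - K ^ 2 * sq (V u) = 0} = 0 :=
    (poly_sqW.sub ((IsPoly.const (K ^ 2)).mul poly_sqV)).null (glue 0 e 0) (by
      rw [glue_V, glue_W, hee, h00]; norm_num)
  have n7 : ∀ (ji : Fin m × Fin (k + 1)) (c : ℝ),
      volume {u : Ix k m N → ℝ | u (Sum.inr ji) - c = 0} = 0 := fun ji c =>
    ((IsPoly.coord _).sub (IsPoly.const c)).null (fun _ => c + 1) (by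
      show c + 1 - c ≠ 0
      norm_num)
  have hsub : Dc k m N K R₀ \ Dm k m N K R₀ ⊆ {u | sq (W u) - sq (V u) = 0} ∪
      {u | bl (V u) (W u) = 0} ∪ {u | 2 * bl (V u) (W u) - sq (V u) = 0} ∪
      {u | Gm (V u) (W u) - 1 = 0} ∪ {u | Gm (V u) (W u) - Real.exp 4 = 0} ∪
      {u | sq (W u) - K ^ 2 * sq (V u) = 0} ∪ {u | u (Sum.inr j₀) - 0 = 0} ∪
      (⋃ ji, {u | u (Sum.inr ji) - R₀ = 0}) ∪ ⋃ ji, {u | u (Sum.inr ji) - -R₀ = 0} := by
    rintro u ⟨⟨⟨w1, w2, w3⟩, h2, h3, h4, h5⟩, hn⟩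
    by_contra hcon
    simp only [Set.mem_union, Set.mem_setOf_eq, Set.mem_iUnion, not_or, not_exists] at hcon
    obtain ⟨⟨⟨⟨⟨⟨⟨⟨c1, c2⟩, c3⟩, c4⟩, c5⟩, c6⟩, c7⟩, c8⟩, c9⟩ := hcon
    apply hn
    refine ⟨⟨lt_of_le_of_ne w1 fun h => c1 (by linarith), lt_of_le_of_ne w2 fun h => c2 h.symm,
      lt_of_le_of_ne w3 fun h => c3 (by linarith)⟩, lt_of_le_of_ne h2 fun h => c4 (by linarith),
      lt_of_le_of_ne h3 fun h => c5 (by linarith), lt_of_le_of_ne h4 fun h => c6 (by linarith),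
      ?_, ?_⟩
    · intro h
      apply c7
      have := congrFun h j₀
      unfold Qv at this
      rw [this]
      simp
    · refine lt_of_le_of_ne h5 fun h => ?_
      have hne : Nonempty (Fin m × Fin (k + 1)) := ⟨j₀⟩
      obtain ⟨ji, hji⟩ := Finite.exists_max fun ji => ‖Qv u ji‖
      have h6 : ‖Qv u‖ = ‖Qv u ji‖ := by
        apply le_antisymm
        · rw [pi_norm_le_iff_of_nonneg (norm_nonneg _)]
          exact hji
        · exact norm_le_pi_norm _ _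
      rw [h6, Real.norm_eq_abs] at h
      rcases abs_choice (Qv u ji) with h7 | h7
      · rw [h7] at h
        exact c8 ji (by unfold Qv at h; linarith)
      · rw [h7] at h
        exact c9 ji (by unfold Qv at h; linarith)
  refine measure_mono_null hsub ?_
  simp only [measure_union_null_iff, measure_iUnion_null_iff]
  exact ⟨⟨⟨⟨⟨⟨⟨⟨n1, n2⟩, n3⟩, n4⟩, n5⟩, n6⟩, n7 j₀ 0⟩, fun ji => n7 ji R₀⟩, fun ji => n7 ji (-R₀)⟩

theorem frontier_Dm (hN : 1 ≤ N) (hm : 1 ≤ m) (K R₀ : ℝ) :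
    volume (frontier (Dm k m N K R₀)) = 0 := by
  refine measure_mono_null ?_ (bdry_null hN hm K R₀)
  rw [(Dm_open K R₀).frontier_eq]
  exact Set.diff_subset_diff_left ((Dc_closed K R₀).closure_subset_iff.2 (Dm_sub_Dc K R₀))

theorem bdry_closed (K R₀ : ℝ) : IsClosed (Dc k m N K R₀ \ Dm k m N K R₀) :=
  (Dc_closed K R₀).sdiff (Dm_open K R₀)

theorem frontier_bdry (hN : 1 ≤ N) (hm : 1 ≤ m) (K R₀ : ℝ) :
    volume (frontier (Dc k m N K R₀ \ Dm k m N K R₀)) = 0 :=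
  measure_mono_null (bdry_closed K R₀).frontier_subset (bdry_null hN hm K R₀)

end Pool.Agent.K6.H78.MF
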