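import Pool.Agent.K6.H78.MF.Cell

/-!
The limit of the number of representatives in a cell.
-/

set_option autoImplicit false
set_option linter.unusedSectionVars false
set_option linter.deprecated false
set_option linter.unusedVariables false

namespace Pool.Agent.K6.H78.MF

open Finset MeasureTheory Filter

variable {k m N : ℕ}

/-- the crude bound for a cell -/
theorem cell_crude {e : ℕ} (he : 2 * N = 2 * e + m * k * (k + 1)) (hm : 1 ≤ m) (hN : 1 ≤ N)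
    {Φ : (Ix k m N → ℝ) → ℝ} (hΦ : RH k m N e Φ) {S₀ : Finset ℕ} {f : (Ix k m N → ℤ) → ℝ}
    (hf : FH k m N S₀ f) {RR : Set (Ix k m N → ℤ)} (hR : Reps RR) :
    ∃ C : ℝ, 0 < C ∧ ∀ Y Z : ℝ, 0 < Y → 0 < Z → (Fs RR Φ f Y Z).Finite ∧
      ((Fs RR Φ f Y Z).ncard : ℝ) ≤ C * (Y ^ (2 * N) * Z ^ (m * (k + 1))) ∧
      ((Fs RR Φ f Y Z).Nonempty → 1 ≤ C * Z ∧ 1 ≤ C * Y) := by
  obtain ⟨A, hA, htri⟩ := tri he hm hN hΦ hf
  have hA1 : 1 ≤ A := (Real.one_le_exp (by norm_num)).trans hA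
  obtain ⟨C, hC, hcr⟩ := crude (k := k) (m := m) hN A hA1
  refine ⟨C + Real.exp 4, by positivity, fun Y Z hY hZ => ?_⟩
  have hsub : Fs RR Φ f Y Z ⊆ Wset k m N A Y Z 1 := by
    intro z hz
    refine (htri RR hR).1 1 Y Z hY hZ z hz ?_
    rw [one_mul]
    exact Real.sqrt_le_sqrt (WR_cr.2 (hR.wr z hz.1)).1
  obtain ⟨h1, h2, h3⟩ := hcr Y Z 1 hY hZ le_rfl
  refine ⟨h1.subset hsub, ?_, ?_⟩
  · have h4 : ((Fs RR Φ f Y Z).ncard : ℝ) ≤ (Wset k m N A Y Z 1).ncard := by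
      exact_mod_cast Set.ncard_le_ncard hsub h1
    refine h4.trans (h2.trans ?_)
    rw [div_one, mul_comm (Z ^ _)]
    apply mul_le_mul_of_nonneg_right _ (by positivity)
    linarith [Real.exp_pos 4]
  · rintro ⟨z, hz⟩
    refine ⟨?_, ?_⟩
    · have h4 := h3 ⟨z, hsub hz⟩
      have h5 : 0 ≤ Real.exp 4 * Z := by positivity
      linarith [add_mul C (Real.exp 4) Z]
    · have h4 := (hR.good z hz.1).gm
      have h5 := hz.2.2.2
      rw [Gm_cr] at h5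
      have h6 : (1 : ℝ) ≤ ((Gm (V z) (W z) : ℤ) : ℝ) := by exact_mod_cast h4
      have h7 : 1 < Real.exp 4 * Y ^ 4 := lt_of_le_of_lt h6 h5
      have h8 : 1 < (Real.exp 1 * Y) ^ 4 := by
        rw [mul_pow, ← Real.exp_nat_mul]
        norm_num at h7 ⊢
        exact h7
      have h9 : 1 < Real.exp 1 * Y := by
        by_contra hc
        rw [not_lt] at hc
        have := pow_le_one₀ (n := 4) (by positivity) hc
        linarith
      have h10 : Real.exp 1 ≤ Real.exp 4 := Real.exp_le_exp.2 (by norm_num)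
      have h11 : Real.exp 1 * Y ≤ Real.exp 4 * Y := mul_le_mul_of_nonneg_right h10 hY.le
      have h12 : 0 ≤ C * Y := by positivity
      linarith [add_mul C (Real.exp 4) Y]

/-- comparison of a cell with strictly reduced balanced triples -/
theorem cell_compare {e : ℕ} (he : 2 * N = 2 * e + m * k * (k + 1)) (hm : 1 ≤ m) (hN : 1 ≤ N)
    {Φ : (Ix k m N → ℝ) → ℝ} (hΦ : RH k m N e Φ) {S₀ : Finset ℕ} {f : (Ix k m N → ℤ) → ℝ}
    (hf : FH k m N S₀ f) (hSI : SI Φ f) {RR : Set (Ix k m N → ℤ)} (hR : Reps RR) (η : ℝ)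
    (hη : 0 < η) : ∃ K R₀ L : ℝ, 1 ≤ K ∧ 0 < R₀ ∧ 0 < L ∧ ∀ Y Z : ℝ, L ≤ Y → L ≤ Z →
      {z : Ix k m N → ℤ | GG z ∧ sd Y Z z ∈ Dm k m N K R₀ ∧ Φ (sd Y Z z) * f z ≤ 1}.Finite ∧
      |((Fs RR Φ f Y Z).ncard : ℝ) - ({z : Ix k m N → ℤ | GG z ∧ sd Y Z z ∈ Dm k m N K R₀ ∧
        Φ (sd Y Z z) * f z ≤ 1}.ncard : ℝ) / 4| ≤ η * (Y ^ (2 * N) * Z ^ (m * (k + 1))) := by
  classical
  obtain ⟨A, hA, htri⟩ := tri he hm hN hΦ hf
  have hA1 : 1 ≤ A := (Real.one_le_exp (by norm_num)).trans hA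
  obtain ⟨C, hC, hcr⟩ := crude (k := k) (m := m) hN A hA1
  obtain ⟨Cc, hCc, hcc⟩ := cell_crude he hm hN hΦ hf hR
  set K : ℝ := max 1 (2 * C / η) with hK
  have hK1 : 1 ≤ K := le_max_left _ _
  have hK0 : 0 < K := by linarith
  have hKη : C / K ≤ η / 2 := by
    rw [div_le_iff₀ hK0]
    have : 2 * C / η ≤ K := le_max_right _ _
    rw [div_le_iff₀ hη] at this
    linarith
  obtain ⟨R₀, hR₀, hD⟩ := (htri RR hR).2 K hK1
  -- the boundary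
  obtain ⟨Lb, hLb, hbd⟩ := Pool.Agent.Y592.KE.LPC.lpc (Ix k m N)
    (Dc k m N K R₀ \ Dm k m N K R₀) ((Dc_bounded K R₀).subset Set.diff_subset)
    (bdry_closed K R₀).measurableSet (frontier_bdry hN hm K R₀) 1 one_pos Set.univ (η / 2)
    (by positivity)
  have hvol : volume.real (Dc k m N K R₀ \ Dm k m N K R₀) = 0 := by
    rw [measureReal_def, bdry_null hN hm K R₀]; rfl
  refine ⟨K, R₀, max Lb 1, hK1, hR₀, by positivity, fun Y Z hY hZ => ?_⟩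
  have hY0 : 0 < Y := lt_of_lt_of_le one_pos ((le_max_right _ _).trans hY)
  have hZ0 : 0 < Z := lt_of_lt_of_le one_pos ((le_max_right _ _).trans hZ)
  set t : ℝ := Y ^ (2 * N) * Z ^ (m * (k + 1)) with ht
  have ht0 : 0 < t := by positivity
  set Gs : Set (Ix k m N → ℤ) := {z | GG z ∧ sd Y Z z ∈ Dm k m N K R₀ ∧
    Φ (sd Y Z z) * f z ≤ 1} with hGs
  set P : (Ix k m N → ℤ) → Prop := fun z => sd Y Z z ∈ Dm k m N K R₀ ∧ Φ (sd Y Z z) * f z ≤ 1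
    with hP
  have hSRD : ∀ z : Ix k m N → ℤ, sd Y Z z ∈ Dm k m N K R₀ → SR (V z) (W z) := by
    intro z hz
    have h1 := hz.1
    rw [sd_eq, SR_sc (inv_pos.2 hY0)] at h1
    exact SR_cr.1 h1
  have hGs' : Gs = {z | GG z ∧ SR (V z) (W z) ∧ P z} := by
    ext z
    constructor
    · rintro ⟨h1, h2, h3⟩
      exact ⟨h1, hSRD z h2, h2, h3⟩
    · rintro ⟨h1, _, h2, h3⟩
      exact ⟨h1, h2, h3⟩
  -- finiteness
  have hGsf : Gs.Finite := by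
    have h1 : Gs ⊆ (((bx N ⌊B₁ K * Y⌋₊ ×ˢ bx N ⌊B₁ K * Y⌋₊) ×ˢ
        bq (Fin m × Fin (k + 1)) ⌊R₀ * Z⌋₊).image fun x => glue x.1.1 x.1.2 x.2 :
        Finset (Ix k m N → ℤ)) := by
      rintro z ⟨_, h2, _⟩
      obtain ⟨⟨a1, a2⟩, a3⟩ := sd_vec hY0 hZ0 (Dm_sub_Dc K R₀ h2)
      rw [mem_coe, mem_image]
      refine ⟨((V z, W z), fun ji => Qc z ji.1 ji.2), ?_, glue_eq z⟩
      rw [mem_product, mem_product]
      exact ⟨⟨a1, a2⟩, a3⟩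
    exact (Finset.finite_toSet _).subset h1
  refine ⟨hGsf, ?_⟩
  have hfour := four hR P (by
    intro z hg ε ε' hε hε' hz
    refine ⟨?_, ?_⟩
    · rw [sd_sg]
      exact (Dm_sg hε hε').2 hz.1
    · rw [← scale_iff hΦ (hg.sg hε hε') hY0 hZ0, hSI z hg ε ε' hε hε', scale_iff hΦ hg hY0 hZ0]
      exact hz.2) (by rw [← hGs']; exact hGsf)
  rw [← hGs'] at hfour
  set F₁ : Set (Ix k m N → ℤ) := {z | z ∈ RR ∧ SR (V z) (W z) ∧ P z} with hF₁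
  have hF₁sub : F₁ ⊆ Fs RR Φ f Y Z := by
    rintro z ⟨h1, _, h2, h3⟩
    have hg := hR.good z h1
    have hGs := Gm_sd hY0 hZ0 z
    have hY4 : 0 < Y ^ 4 := by positivity
    refine ⟨h1, (scale_iff hΦ hg hY0 hZ0 _).2 h3, ?_, ?_⟩
    · rw [hGs]
      nlinarith [h2.2.1]
    · rw [hGs]
      nlinarith [h2.2.2.1]
  set F₂ : Set (Ix k m N → ℤ) := {z | sd Y Z z ∈ Dc k m N K R₀ \ Dm k m N K R₀} with hF₂
  have hcover : Fs RR Φ f Y Z ⊆ F₁ ∪ (F₂ ∪ Wset k m N A Y Z K) := by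
    intro z hz
    have hg := hR.good z hz.1
    by_cases h1 : K * nv (cr (V z)) ≤ nv (cr (W z))
    · exact Or.inr (Or.inr ((htri RR hR).1 K Y Z hY0 hZ0 z hz h1))
    · rw [not_le] at h1
      have h2 := hD Y Z hY0 hZ0 z hz h1
      by_cases h3 : sd Y Z z ∈ Dm k m N K R₀
      · exact Or.inl ⟨hz.1, hSRD z h3, h3, (scale_iff hΦ hg hY0 hZ0 _).1 hz.2.1⟩
      · exact Or.inr (Or.inl ⟨h2, h3⟩)
  obtain ⟨hWf, hWc, _⟩ := hcr Y Z K hY0 hZ0 hK1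
  have hFf := (hcc Y Z hY0 hZ0).1
  have hF₂f : F₂.Finite := by
    have h1 : F₂ ⊆ (((bx N ⌊B₁ K * Y⌋₊ ×ˢ bx N ⌊B₁ K * Y⌋₊) ×ˢ
        bq (Fin m × Fin (k + 1)) ⌊R₀ * Z⌋₊).image fun x => glue x.1.1 x.1.2 x.2 :
        Finset (Ix k m N → ℤ)) := by
      rintro z ⟨h2, _⟩
      obtain ⟨⟨a1, a2⟩, a3⟩ := sd_vec hY0 hZ0 h2
      rw [mem_coe, mem_image]
      refine ⟨((V z, W z), fun ji => Qc z ji.1 ji.2), ?_, glue_eq z⟩
      rw [mem_product, mem_product]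
      exact ⟨⟨a1, a2⟩, a3⟩
    exact (Finset.finite_toSet _).subset h1
  have hF₂c : (F₂.ncard : ℝ) ≤ η / 2 * t := by
    have h1 := hbd (ys k m N Y Z) (by
      intro i
      unfold ys
      rcases i with i | i
      · exact (le_max_left _ _).trans hY
      · exact (le_max_left _ _).trans hZ)
    rw [prod_ys, hvol, zero_mul, zero_div, sub_zero] at h1
    have h2 : {z : Ix k m N → ℤ | (fun i => (z i : ZMod 1)) ∈ (Set.univ : Set (Ix k m N → ZMod 1)) ∧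
        (fun i => (z i : ℝ) / ys k m N Y Z i) ∈ Dc k m N K R₀ \ Dm k m N K R₀} = F₂ := by
      ext z
      simp only [Set.mem_setOf_eq, Set.mem_univ, true_and]
      rfl
    rw [h2, abs_of_nonneg (by positivity), div_le_iff₀ ht0] at h1
    exact h1
  have hWc' : ((Wset k m N A Y Z K).ncard : ℝ) ≤ η / 2 * t := by
    refine hWc.trans ?_
    have h1 : C * (Z ^ (m * (k + 1)) * Y ^ (2 * N)) / K = C / K * t := by rw [ht]; ring
    rw [h1]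
    exact mul_le_mul_of_nonneg_right hKη ht0.le
  have h1 : F₁.ncard ≤ (Fs RR Φ f Y Z).ncard := Set.ncard_le_ncard hF₁sub hFf
  have h2 : (Fs RR Φ f Y Z).ncard ≤ F₁.ncard + (F₂.ncard + (Wset k m N A Y Z K).ncard) := by
    refine (Set.ncard_le_ncard hcover ((hFf.subset hF₁sub).union (hF₂f.union hWf))).trans ?_
    exact (Set.ncard_union_le _ _).trans (Nat.add_le_add_left (Set.ncard_union_le _ _) _)
  have h3 : (Gs.ncard : ℝ) / 4 = F₁.ncard := by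
    rw [hfour]
    push_cast
    ring
  rw [h3, abs_le]
  have h1R : (F₁.ncard : ℝ) ≤ (Fs RR Φ f Y Z).ncard := by exact_mod_cast h1
  have h2R : ((Fs RR Φ f Y Z).ncard : ℝ) ≤ F₁.ncard + (F₂.ncard + (Wset k m N A Y Z K).ncard) := by
    exact_mod_cast h2
  have h4 : 0 ≤ η * t := by positivity
  constructor <;> linarith

/-- the limit in a cell -/
theorem cell_limit {e : ℕ} (he : 2 * N = 2 * e + m * k * (k + 1)) (hkm : 2 ≤ k * m) (hm : 1 ≤ m)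
    (hN : 3 ≤ N) {Φ : (Ix k m N → ℝ) → ℝ} (hΦ : RH k m N e Φ) {S₀ : Finset ℕ}
    {f : (Ix k m N → ℤ) → ℝ} (hf : FH k m N S₀ f) (hSI : SI Φ f) {RR : Set (Ix k m N → ℤ)}
    (hR : Reps RR) (η : ℝ) (hη : 0 < η) : ∃ ℓ L : ℝ, 0 < L ∧ ∀ Y Z : ℝ, L ≤ Y → L ≤ Z →
      |((Fs RR Φ f Y Z).ncard : ℝ) / (Y ^ (2 * N) * Z ^ (m * (k + 1))) - ℓ| ≤ η := by
  classical
  have hR2 : 2 ≤ m * (k + 1) := by nlinarith
  obtain ⟨K, R₀, L₁, hK, hR₀, hL₁, hcmp⟩ := cell_compare he hm (by omega) hΦ hf hSI hR (η / 3)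
    (by positivity)
  obtain ⟨C, hC, herr⟩ := err hN hkm hR2 K R₀ hR₀
  -- the primes
  obtain ⟨P₀, hP₀1, hP₀S, hP₀C⟩ : ∃ P₀ : ℕ, 1 ≤ P₀ ∧ (∀ p ∈ S₀, p ≤ P₀) ∧ C / P₀ ≤ η / 3 := by
    obtain ⟨n, hn⟩ := exists_nat_ge (3 * C / η)
    refine ⟨n + 1 + ∑ p ∈ S₀, p, by omega, fun p hp => ?_, ?_⟩
    · have := single_le_sum (f := fun p : ℕ => p) (fun _ _ => Nat.zero_le _) hp
      omega
    · rw [div_le_iff₀ (by positivity)]
      push_cast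
      rw [div_le_iff₀ hη] at hn
      have h1 : (0 : ℝ) ≤ ∑ p ∈ S₀, (p : ℝ) := by positivity
      nlinarith
  obtain ⟨L₂, hL₂, herr'⟩ := herr P₀ hP₀1
  obtain ⟨ℓ, L₃, hL₃, hcount⟩ := count_elm (by omega) hm hΦ hf K R₀ P₀ hP₀S (η / 3) (by positivity)
  refine ⟨ℓ / 4, max L₁ (max L₂ (max L₃ 1)), by positivity, fun Y Z hY hZ => ?_⟩
  have hY1 : L₁ ≤ Y := (le_max_left _ _).trans hY
  have hZ1 : L₁ ≤ Z := (le_max_left _ _).trans hZ
  have hY2 : L₂ ≤ Y := (le_max_left _ _).trans ((le_max_right _ _).trans hY)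
  have hZ2 : L₂ ≤ Z := (le_max_left _ _).trans ((le_max_right _ _).trans hZ)
  have hY3 : L₃ ≤ Y := (le_max_left _ _).trans ((le_max_right _ _).trans ((le_max_right _ _).trans hY))
  have hZ3 : L₃ ≤ Z := (le_max_left _ _).trans ((le_max_right _ _).trans ((le_max_right _ _).trans hZ))
  have hY0 : 0 < Y := by linarith
  have hZ0 : 0 < Z := by linarith
  obtain ⟨hGf, hcmp'⟩ := hcmp Y Z hY1 hZ1
  obtain ⟨hEf, hEc⟩ := herr' Y Z hY2 hZ2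
  have hcount' := hcount Y Z hY3 hZ3
  set t : ℝ := Y ^ (2 * N) * Z ^ (m * (k + 1)) with ht
  have ht0 : 0 < t := by positivity
  set Gs : Set (Ix k m N → ℤ) := {z | GG z ∧ sd Y Z z ∈ Dm k m N K R₀ ∧
    Φ (sd Y Z z) * f z ≤ 1} with hGs
  set Hs : Set (Ix k m N → ℤ) := {z | (∀ p ∈ Pr P₀, Lc p z) ∧ sd Y Z z ∈ Dm k m N K R₀ ∧
    Φ (sd Y Z z) * f z ≤ 1} with hHs
  set Es : Set (Ix k m N → ℤ) := {z | sd Y Z z ∈ Dm k m N K R₀ ∧
    ((∃ p : ℕ, p.Prime ∧ P₀ < p ∧ ¬ Lc p z) ∨ ¬ NZ (fun j i => ((Qc z j i : ℤ) : ℚ)))} with hEs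
  have hsub1 : Gs ⊆ Hs := by
    rintro z ⟨h1, h2, h3⟩
    exact ⟨fun p hp => h1.lc (mem_Pr.1 hp).2, h2, h3⟩
  have hsub2 : Hs ⊆ Gs ∪ Es := by
    rintro z ⟨h1, h2, h3⟩
    by_cases hg : GG z
    · exact Or.inl ⟨hg, h2, h3⟩
    · right
      refine ⟨h2, ?_⟩
      rw [GG_iff, not_and_or] at hg
      rcases hg with hg | hg
      · left
        push Not at hg
        obtain ⟨p, hp, hL⟩ := hg
        refine ⟨p, hp, ?_, hL⟩
        by_contra hc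
        exact hL (h1 p (mem_Pr.2 ⟨by omega, hp⟩))
      · exact Or.inr hg
  have hHf : Hs.Finite := (hGf.union hEf).subset hsub2
  have h1 : (Gs.ncard : ℝ) ≤ Hs.ncard := by exact_mod_cast Set.ncard_le_ncard hsub1 hHf
  have h2 : (Hs.ncard : ℝ) ≤ Gs.ncard + Es.ncard := by
    exact_mod_cast (Set.ncard_le_ncard hsub2 (hGf.union hEf)).trans (Set.ncard_union_le _ _)
  have h3 : (Es.ncard : ℝ) ≤ η / 3 * t := hEc.trans (mul_le_mul_of_nonneg_right hP₀C ht0.le)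
  rw [abs_le] at hcmp' hcount' ⊢
  obtain ⟨a1, a2⟩ := hcmp'
  obtain ⟨b1, b2⟩ := hcount'
  rw [le_sub_iff_add_le, le_div_iff₀ ht0] at b1
  rw [sub_le_iff_le_add, div_le_iff₀ ht0] at b2
  constructor
  · rw [le_sub_iff_add_le, le_div_iff₀ ht0]
    nlinarith
  · rw [sub_le_iff_le_add, div_le_iff₀ ht0]
    nlinarith

end Pool.Agent.K6.H78.MF
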