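import Pool.Agent.K6.H78.MF.Lim

/-!
The lower bound for the number of representatives in a cell.
-/

set_option autoImplicit false
set_option linter.unusedSectionVars false
set_option linter.deprecated false
set_option linter.unusedVariables false

namespace Pool.Agent.K6.H78.MF

open Finset MeasureTheory Filter

variable {k m N : ℕ}

/-- a point of the region with small height -/
theorem exists_pt {e : ℕ} (hm : 1 ≤ m) (hN : 2 ≤ N) {Φ : (Ix k m N → ℝ) → ℝ}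
    (hΦ : RH k m N e Φ) (M₁ : ℝ) (hM₁ : 0 < M₁) :
    ∃ u ∈ Dm k m N 2 2, Φ u * M₁ < 1 := by
  classical
  set i₀ : Fin N := ⟨0, by omega⟩ with hi₀
  set i₁ : Fin N := ⟨1, by omega⟩ with hi₁
  have h01 : i₀ ≠ i₁ := by
    intro h
    have := congrArg Fin.val h
    simp [i₀, i₁] at this
  set v : Fin N → ℝ := Pi.single i₀ (3 / 2) with hv
  set w : Fin N → ℝ := Pi.single i₀ (1 / 2) + Pi.single i₁ (3 / 2) with hw
  have e1 : sq v = 9 / 4 := by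
    unfold sq
    rw [Finset.sum_eq_single i₀]
    · simp [hv]; norm_num
    · intro i _ hi; simp [hv, hi]
    · simp
  have e2 : sq w = 5 / 2 := by
    unfold sq
    rw [← Finset.sum_subset (subset_univ {i₀, i₁}), sum_pair h01]
    · simp [hw, h01, h01.symm]; norm_num
    · intro i _ hi
      rw [mem_insert, mem_singleton, not_or] at hi
      simp [hw, hi.1, hi.2]
  have e3 : bl v w = 3 / 4 := by
    unfold bl
    rw [Finset.sum_eq_single i₀]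
    · simp [hv, hw, h01]; norm_num
    · intro i _ hi; simp [hv, hi]
    · simp
  have e4 : Gm v w = 81 / 16 := by
    unfold Gm
    rw [e1, e2, e3]; norm_num
  have hexp : (81 : ℝ) / 16 < Real.exp 4 := by
    have h1 : Real.exp 4 = Real.exp 1 ^ 4 := by rw [← Real.exp_nat_mul]; norm_num
    have h2 : (2 : ℝ) ≤ Real.exp 1 := by
      have := Real.add_one_le_exp (1 : ℝ); linarith
    have h3 : (2 : ℝ) ^ 4 ≤ Real.exp 1 ^ 4 := pow_le_pow_left₀ (by norm_num) h2 4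
    rw [h1]; norm_num at h3 ⊢; linarith
  set u₁ : Ix k m N → ℝ := glue v w fun _ => 1 with hu₁
  have hne : Nonempty (Fin m × Fin (k + 1)) := ⟨(⟨0, hm⟩, 0)⟩
  have hOm : u₁ ∈ Om k m N := by
    refine ⟨?_, ?_⟩
    · rw [hu₁, glue_V, glue_W, e4]; norm_num
    · rw [hu₁, glue_Qv]
      intro h
      have := congrFun h (⟨0, hm⟩, 0)
      simp at this
  have hpos := hΦ.pos u₁ hOm
  set δ : ℝ := min 1 (1 / (2 * (Φ u₁ * M₁))) with hδ
  have hδ0 : 0 < δ := by positivity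
  have hδ1 : δ ≤ 1 := min_le_left _ _
  have hδ2 : δ * (Φ u₁ * M₁) ≤ 1 / 2 := by
    have h1 : δ ≤ 1 / (2 * (Φ u₁ * M₁)) := min_le_right _ _
    rw [le_div_iff₀ (by positivity)] at h1
    linarith
  have hR1 : 1 ≤ m * (k + 1) := Nat.mul_pos hm (by omega)
  refine ⟨sc 1 δ u₁, ?_, ?_⟩
  · have hV : V (sc 1 δ u₁) = v := by
      rw [V_sc, hu₁, glue_V]
      funext i; ring
    have hW : W (sc 1 δ u₁) = w := by
      rw [W_sc, hu₁, glue_W]
      funext i; ring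
    have hQ : Qv (sc 1 δ u₁) = fun _ => δ := by
      rw [Qv_sc, hu₁, glue_Qv]
      funext i; simp
    refine ⟨?_, ?_, ?_, ?_, ?_, ?_⟩
    · unfold SR
      rw [hV, hW, e1, e2, e3]
      norm_num
    · rw [hV, hW, e4]; norm_num
    · rw [hV, hW, e4]; exact hexp
    · rw [hV, hW, e1, e2]; norm_num
    · rw [hQ]
      intro h
      have := congrFun h (⟨0, hm⟩, 0)
      simp only [Pi.zero_apply] at this
      linarith
    · rw [hQ, pi_norm_const, Real.norm_eq_abs, abs_of_pos hδ0]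
      linarith
  · rw [hΦ.scal 1 δ one_pos hδ0 u₁ hOm, one_pow, one_mul]
    have h1 : δ ^ (m * (k + 1)) ≤ δ := by
      calc δ ^ (m * (k + 1)) ≤ δ ^ 1 := pow_le_pow_of_le_one hδ0.le hδ1 hR1
        _ = δ := pow_one δ
    have h2 : 0 < Φ u₁ * M₁ := by positivity
    calc δ ^ (m * (k + 1)) * Φ u₁ * M₁ = δ ^ (m * (k + 1)) * (Φ u₁ * M₁) := by ring
      _ ≤ δ * (Φ u₁ * M₁) := mul_le_mul_of_nonneg_right h1 h2.le
      _ < 1 := by linarith

/-- the lower bound for a cell -/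
theorem cell_lower {e : ℕ} (he : 2 * N = 2 * e + m * k * (k + 1)) (hkm : 2 ≤ k * m) (hm : 1 ≤ m)
    (hN : 3 ≤ N) {Φ : (Ix k m N → ℝ) → ℝ} (hΦ : RH k m N e Φ) {S₀ : Finset ℕ}
    {f : (Ix k m N → ℤ) → ℝ} (hf : FH k m N S₀ f) (hSI : SI Φ f) {RR : Set (Ix k m N → ℤ)}
    (hR : Reps RR) : ∃ c₀ L : ℝ, 0 < c₀ ∧ 0 < L ∧ ∀ Y Z : ℝ, L ≤ Y → L ≤ Z →
      c₀ * (Y ^ (2 * N) * Z ^ (m * (k + 1))) ≤ (Fs RR Φ f Y Z).ncard := by
  classical
  have hR2 : 2 ≤ m * (k + 1) := by nlinarith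
  obtain ⟨m₁, M₁, hm₁, hbd⟩ := hf.bd
  set M₂ : ℝ := max M₁ 1 with hM₂
  have hM₂0 : 0 < M₂ := by positivity
  obtain ⟨u₀, hu₀, hu₀'⟩ := exists_pt hm (by omega) hΦ M₂ hM₂0
  obtain ⟨Cc, hCc, hcc⟩ := cell_crude he hm (by omega) hΦ hf hR
  -- the box
  obtain ⟨r, hr, hball⟩ : ∃ r : ℝ, 0 < r ∧ ∀ u ∈ Metric.ball u₀ r, u ∈ Dm k m N 2 2 ∧
      Φ u * M₂ < 1 := by
    have h1 : Dm k m N 2 2 ∈ nhds u₀ := (Dm_open 2 2).mem_nhds hu₀
    have h2 : ContinuousAt (fun u => Φ u * M₂) u₀ :=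
      ((hΦ.cont.mono (Dm_sub_Om 2 2)).continuousAt h1).mul continuousAt_const
    have h3 : ∀ᶠ u in nhds u₀, Φ u * M₂ < 1 := h2.eventually (gt_mem_nhds hu₀')
    obtain ⟨r, hr, h4⟩ := Metric.eventually_nhds_iff_ball.1 (Filter.Eventually.and h1 h3)
    exact ⟨r, hr, h4⟩
  set 𝔹 : Set (Ix k m N → ℝ) := Metric.ball u₀ r with h𝔹
  have hvol : 0 < volume.real 𝔹 := by
    rw [measureReal_def]
    exact ENNReal.toReal_pos (Metric.measure_ball_pos volume u₀ hr).ne' measure_ball_lt_top.ne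
  obtain ⟨c₁, hc₁, hdens⟩ := dens_prod (k := k) hN hm hR2
  set vc : ℝ := volume.real 𝔹 * c₁ with hvc
  have hvc0 : 0 < vc := by positivity
  obtain ⟨C, hC, herr⟩ := err hN hkm hR2 2 2 two_pos
  -- the primes
  obtain ⟨P₀, hP₀1, hP₀C, hP₀S⟩ : ∃ P₀ : ℕ, 1 ≤ P₀ ∧ C / P₀ ≤ vc / 4 ∧ ∀ p ∈ S₀, p ≤ P₀ := by
    obtain ⟨n, hn⟩ := exists_nat_ge (4 * C / vc)
    refine ⟨n + 1 + ∑ p ∈ S₀, p, by omega, ?_, fun p hp => ?_⟩
    · rw [div_le_iff₀ (by positivity)]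
      push_cast
      rw [div_le_iff₀ hvc0] at hn
      have h1 : (0 : ℝ) ≤ ∑ p ∈ S₀, (p : ℝ) := by positivity
      nlinarith
    · have := single_le_sum (f := fun p : ℕ => p) (fun _ _ => Nat.zero_le _) hp
      omega
  obtain ⟨L₂, hL₂, herr'⟩ := herr P₀ hP₀1
  obtain ⟨q, hq⟩ : ∃ q : ℕ, q = ∏ p ∈ Pr P₀, p := ⟨_, rfl⟩
  obtain ⟨U, hU, hUc⟩ : ∃ U : Set (Ix k m N → ZMod q), (∀ z : Ix k m N → ℤ,
      (fun i => (z i : ZMod q)) ∈ U ↔ ∀ p ∈ Pr P₀, (fun i => (z i : ZMod p)) ∈ Tp k m N p) ∧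
      U.ncard = ∏ p ∈ Pr P₀, (Tp k m N p).ncard := by
    subst hq
    exact Pool.Agent.Y379.KF.crt (Ix k m N) (Pr P₀)
      (fun p hp => (mem_Pr.1 hp).2) (fun p => Tp k m N p)
  have hq0 : 0 < q := by
    rw [hq]
    exact prod_pos fun p hp => (mem_Pr.1 hp).2.pos
  have hUd : c₁ ≤ (U.ncard : ℝ) / (q : ℝ) ^ Fintype.card (Ix k m N) := by
    have h1 : (U.ncard : ℝ) / (q : ℝ) ^ Fintype.card (Ix k m N) = ∏ p ∈ Pr P₀, dn k m N p := by
      rw [hUc, hq, card_Ix]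
      push_cast
      rw [← Finset.prod_pow, ← Finset.prod_div_distrib]
      rfl
    rw [h1]
    exact hdens _ fun p hp => (mem_Pr.1 hp).2
  obtain ⟨L₃, hL₃, hlpc⟩ := Pool.Agent.Y592.KE.LPC.lpc (Ix k m N) 𝔹 Metric.isBounded_ball
    Metric.isOpen_ball.measurableSet ((convex_ball u₀ r).addHaar_frontier volume) q hq0 U (vc / 4)
    (by positivity)
  refine ⟨vc / 8, max L₂ (max L₃ 1), by positivity, by positivity, fun Y Z hY hZ => ?_⟩
  have hY2 : L₂ ≤ Y := (le_max_left _ _).trans hY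
  have hZ2 : L₂ ≤ Z := (le_max_left _ _).trans hZ
  have hY3 : L₃ ≤ Y := (le_max_left _ _).trans ((le_max_right _ _).trans hY)
  have hZ3 : L₃ ≤ Z := (le_max_left _ _).trans ((le_max_right _ _).trans hZ)
  have hY0 : 0 < Y := by linarith
  have hZ0 : 0 < Z := by linarith
  obtain ⟨hEf, hEc⟩ := herr' Y Z hY2 hZ2
  have h1 := hlpc (ys k m N Y Z) (by
    intro i
    unfold ys
    rcases i with i | i
    · exact hY3
    · exact hZ3)
  rw [prod_ys] at h1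
  set t : ℝ := Y ^ (2 * N) * Z ^ (m * (k + 1)) with ht
  have ht0 : 0 < t := by positivity
  set Es : Set (Ix k m N → ℤ) := {z | sd Y Z z ∈ Dm k m N 2 2 ∧
    ((∃ p : ℕ, p.Prime ∧ P₀ < p ∧ ¬ Lc p z) ∨ ¬ NZ (fun j i => ((Qc z j i : ℤ) : ℚ)))} with hEs
  set Bs : Set (Ix k m N → ℤ) := {z | (fun i => (z i : ZMod q)) ∈ U ∧
    (fun i => (z i : ℝ) / ys k m N Y Z i) ∈ 𝔹} with hBs
  set P : (Ix k m N → ℤ) → Prop := fun z => sd Y Z z ∈ Dm k m N 2 2 ∧ Φ (sd Y Z z) * f z ≤ 1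
    with hP
  set Gs : Set (Ix k m N → ℤ) := {z | GG z ∧ SR (V z) (W z) ∧ P z} with hGs
  have hSRD : ∀ z : Ix k m N → ℤ, sd Y Z z ∈ Dm k m N 2 2 → SR (V z) (W z) := by
    intro z hz
    have h1 := hz.1
    rw [sd_eq, SR_sc (inv_pos.2 hY0)] at h1
    exact SR_cr.1 h1
  have hsub : Bs ⊆ Gs ∪ Es := by
    rintro z ⟨hz1, hz2⟩
    have hz3 := hball _ hz2
    have hz4 : sd Y Z z ∈ Dm k m N 2 2 := hz3.1
    by_cases hg : GG z
    · refine Or.inl ⟨hg, hSRD z hz4, hz4, ?_⟩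
      have h2 := (hbd z fun p hp => hg.lc (hf.prime p hp)).2
      have h3 := hΦ.pos _ (Dm_sub_Om 2 2 hz4)
      have h4 : Φ (sd Y Z z) * M₂ < 1 := hz3.2
      calc Φ (sd Y Z z) * f z ≤ Φ (sd Y Z z) * M₂ :=
            mul_le_mul_of_nonneg_left (h2.trans (le_max_left _ _)) h3.le
        _ ≤ 1 := h4.le
    · refine Or.inr ⟨hz4, ?_⟩
      rw [GG_iff, not_and_or] at hg
      rcases hg with hg | hg
      · left
        push Not at hg
        obtain ⟨p, hp, hL⟩ := hg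
        refine ⟨p, hp, ?_, hL⟩
        by_contra hc
        have h5 := (hU z).1 hz1 p (mem_Pr.2 ⟨by omega, hp⟩)
        exact hL (mem_Tp.1 h5)
      · exact Or.inr hg
  have hGf : Gs.Finite := by
    have h1 : Gs ⊆ (((bx N ⌊B₁ 2 * Y⌋₊ ×ˢ bx N ⌊B₁ 2 * Y⌋₊) ×ˢ
        bq (Fin m × Fin (k + 1)) ⌊2 * Z⌋₊).image fun x => glue x.1.1 x.1.2 x.2 :
        Finset (Ix k m N → ℤ)) := by
      rintro z ⟨_, _, h2, _⟩
      obtain ⟨⟨a1, a2⟩, a3⟩ := sd_vec hY0 hZ0 (Dm_sub_Dc 2 2 h2)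
      rw [mem_coe, mem_image]
      refine ⟨((V z, W z), fun ji => Qc z ji.1 ji.2), ?_, glue_eq z⟩
      rw [mem_product, mem_product]
      exact ⟨⟨a1, a2⟩, a3⟩
    exact (Finset.finite_toSet _).subset h1
  have hfour := four hR P (by
    intro z hg ε ε' hε hε' hz
    refine ⟨?_, ?_⟩
    · rw [sd_sg]
      exact (Dm_sg hε hε').2 hz.1
    · rw [← scale_iff hΦ (hg.sg hε hε') hY0 hZ0, hSI z hg ε ε' hε hε', scale_iff hΦ hg hY0 hZ0]
      exact hz.2) hGf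
  have hF : {z | z ∈ RR ∧ SR (V z) (W z) ∧ P z} ⊆ Fs RR Φ f Y Z := by
    rintro z ⟨h1, _, h2, h3⟩
    have hg := hR.good z h1
    have hGs := Gm_sd hY0 hZ0 z
    have hY4 : 0 < Y ^ 4 := by positivity
    refine ⟨h1, (scale_iff hΦ hg hY0 hZ0 _).2 h3, ?_, ?_⟩
    · rw [hGs]
      nlinarith [h2.2.1]
    · rw [hGs]
      nlinarith [h2.2.2.1]
  have h2 : (Bs.ncard : ℝ) ≤ Gs.ncard + Es.ncard := by
    exact_mod_cast (Set.ncard_le_ncard hsub (hGf.union hEf)).trans (Set.ncard_union_le _ _)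
  have h3 : (Gs.ncard : ℝ) ≤ 4 * (Fs RR Φ f Y Z).ncard := by
    rw [hfour]
    exact_mod_cast Nat.mul_le_mul_left 4 (Set.ncard_le_ncard hF (hcc Y Z hY0 hZ0).1)
  have h4 : (Es.ncard : ℝ) ≤ vc / 4 * t := hEc.trans (mul_le_mul_of_nonneg_right hP₀C ht0.le)
  have h5 : vc - vc / 4 ≤ (Bs.ncard : ℝ) / t := by
    have h6 := (abs_le.1 h1).1
    have h7 : vc ≤ volume.real 𝔹 * U.ncard / (q : ℝ) ^ Fintype.card (Ix k m N) := by
      rw [hvc, mul_div_assoc]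
      exact mul_le_mul_of_nonneg_left hUd hvol.le
    linarith
  rw [le_div_iff₀ ht0] at h5
  linarith

end Pool.Agent.K6.H78.MF
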