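import Pool.Agent.K6.H78.MF.Arc

/-!
The p-adic parts of the height.
-/

set_option autoImplicit false
set_option linter.unusedSectionVars false
set_option linter.deprecated false
set_option linter.unusedVariables false

namespace Pool.Agent.K6.H78.MF

open Finset Filter Topology

variable {k m N : ℕ}

theorem FH_one : FH k m N ∅ fun _ => 1 := by
  refine ⟨fun p hp => absurd hp (notMem_empty p), ⟨1, 1, one_pos, fun z _ => ⟨le_rfl, le_rfl⟩⟩,
    fun ε hε => ⟨1, one_pos, fun z z' _ _ _ => ?_⟩⟩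
  simpa using hε.le

theorem FH.mul {S₁ S₂ : Finset ℕ} {f₁ f₂ : (Ix k m N → ℤ) → ℝ} (h₁ : FH k m N S₁ f₁)
    (h₂ : FH k m N S₂ f₂) : FH k m N (S₁ ∪ S₂) fun z => f₁ z * f₂ z := by
  obtain ⟨m₁, M₁, hm₁, hb₁⟩ := h₁.bd
  obtain ⟨m₂, M₂, hm₂, hb₂⟩ := h₂.bd
  refine ⟨?_, ⟨m₁ * m₂, M₁ * M₂, by positivity, fun z hz => ?_⟩, fun ε hε => ?_⟩
  · intro p hp
    rcases mem_union.1 hp with h | h
    · exact h₁.prime p h
    · exact h₂.prime p h
  · obtain ⟨a1, a2⟩ := hb₁ z fun p hp => hz p (mem_union_left _ hp)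
    obtain ⟨b1, b2⟩ := hb₂ z fun p hp => hz p (mem_union_right _ hp)
    exact ⟨mul_le_mul a1 b1 hm₂.le (by linarith), mul_le_mul a2 b2 (by linarith) (by linarith)⟩
  · set A : ℝ := |M₁| + |M₂| + 1 with hA
    have hA0 : 0 < A := by positivity
    obtain ⟨q₁, hq₁, h3⟩ := h₁.apx (ε / (2 * A)) (by positivity)
    obtain ⟨q₂, hq₂, h4⟩ := h₂.apx (ε / (2 * A)) (by positivity)
    refine ⟨q₁ * q₂, Nat.mul_pos hq₁ hq₂, fun z z' hz hz' hc => ?_⟩
    have hdvd : ∀ i, ((q₁ * q₂ : ℕ) : ℤ) ∣ z i - z' i := by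
      intro i
      rw [← ZMod.intCast_zmod_eq_zero_iff_dvd]
      push_cast
      rw [hc i, sub_self]
    have hc1 : ∀ i, (z i : ZMod q₁) = (z' i : ZMod q₁) := by
      intro i
      have h5 := (Int.natCast_dvd_natCast.2 (Dvd.intro q₂ rfl : q₁ ∣ q₁ * q₂)).trans (hdvd i)
      have h6 := (ZMod.intCast_zmod_eq_zero_iff_dvd (z i - z' i) q₁).2 h5
      push_cast at h6
      exact sub_eq_zero.1 h6
    have hc2 : ∀ i, (z i : ZMod q₂) = (z' i : ZMod q₂) := by
      intro i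
      have h5 := (Int.natCast_dvd_natCast.2 (Dvd.intro_left q₁ rfl : q₂ ∣ q₁ * q₂)).trans (hdvd i)
      have h6 := (ZMod.intCast_zmod_eq_zero_iff_dvd (z i - z' i) q₂).2 h5
      push_cast at h6
      exact sub_eq_zero.1 h6
    have e1 := h3 z z' (fun p hp => hz p (mem_union_left _ hp))
      (fun p hp => hz' p (mem_union_left _ hp)) hc1
    have e2 := h4 z z' (fun p hp => hz p (mem_union_right _ hp))
      (fun p hp => hz' p (mem_union_right _ hp)) hc2
    obtain ⟨a1, a2⟩ := hb₁ z fun p hp => hz p (mem_union_left _ hp)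
    obtain ⟨b1, b2⟩ := hb₂ z' fun p hp => hz' p (mem_union_right _ hp)
    have a3 : |f₁ z| ≤ A := by
      rw [abs_of_pos (by linarith)]
      have := le_abs_self M₁
      have := abs_nonneg M₂
      linarith
    have b3 : |f₂ z'| ≤ A := by
      rw [abs_of_pos (by linarith)]
      have := le_abs_self M₂
      have := abs_nonneg M₁
      linarith
    calc |f₁ z * f₂ z - f₁ z' * f₂ z'| = |f₁ z * (f₂ z - f₂ z') + (f₁ z - f₁ z') * f₂ z'| := by
          congr 1; ring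
      _ ≤ |f₁ z * (f₂ z - f₂ z')| + |(f₁ z - f₁ z') * f₂ z'| := abs_add_le _ _
      _ = |f₁ z| * |f₂ z - f₂ z'| + |f₁ z - f₁ z'| * |f₂ z'| := by rw [abs_mul, abs_mul]
      _ ≤ A * (ε / (2 * A)) + (ε / (2 * A)) * A := by gcongr
      _ = ε := by field_simp; ring

section padic

variable {p : ℕ} [hp : Fact p.Prime]

/-- integer vectors as p-adic vectors -/
noncomputable def cp (p : ℕ) [Fact p.Prime] {J : Type*} (v : J → ℤ) : J → ℚ_[p] := fun i => (v i : ℚ_[p])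

theorem T_cp (v w : Fin N → ℤ) (q : Fin m → Fin (k + 1) → ℤ) :
    T (cp p v) (cp p w) (fun j => cp p (q j)) = cp p (T v w q) := by
  classical
  funext r
  unfold T cp
  push_cast
  refine sum_congr rfl fun S _ => ?_
  congr 1

theorem pl_cp (v w : Fin N → ℤ) : pl (cp p v) (cp p w) = cp p (pl v w) := by
  funext r
  unfold pl cp
  push_cast
  rfl

theorem norm_cp {J : Type*} [Fintype J] {v : J → ℤ} (h : ¬ ∀ i, (p : ℤ) ∣ v i) : ‖cp p v‖ = 1 := by
  apply le_antisymm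
  · rw [pi_norm_le_iff_of_nonneg (by norm_num)]
    intro i
    exact Padic.norm_int_le_one _
  · by_contra hcon
    rw [not_le] at hcon
    apply h
    intro i
    rw [← Padic.norm_intCast_lt_one_iff (p := p)]
    exact lt_of_le_of_lt (norm_le_pi_norm (cp p v) i) hcon

/-- the compact set of primitive triples -/
def Kp (k m N p : ℕ) [Fact p.Prime] : Set (Ix k m N → ℚ_[p]) :=
  {u | ‖u‖ ≤ 1 ∧ ‖pl (V u) (W u)‖ = 1 ∧
    ‖(fun ji : Fin m × Fin (k + 1) => u (Sum.inr ji))‖ = 1}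

theorem Kp_compact : IsCompact (Kp k m N p) := by
  refine Metric.isCompact_of_isClosed_isBounded ?_ ?_
  · have e : Kp k m N p = {u | ‖u‖ ≤ 1} ∩ {u | ‖pl (V u) (W u)‖ = 1} ∩
        {u | ‖(fun ji : Fin m × Fin (k + 1) => u (Sum.inr ji))‖ = 1} := by
      ext u
      simp only [Kp, Set.mem_setOf_eq, Set.mem_inter_iff]
      tauto
    rw [e]
    refine ((isClosed_le continuous_norm continuous_const).inter
      (isClosed_eq cont_pl'.norm continuous_const)).inter (isClosed_eq ?_ continuous_const)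
    exact Continuous.norm (by fun_prop)
  · rw [isBounded_iff_forall_norm_le]
    exact ⟨1, fun u hu => hu.1⟩

theorem Kp_mem {u : Ix k m N → ℚ_[p]} (hu : u ∈ Kp k m N p) :
    (pl (V u) (W u), T (V u) (W u) (Qc u)) ∈ Cn k m N ℚ_[p] := by
  refine mem_Cn ?_ (Qc_ne ?_)
  · intro h0
    have := hu.2.1
    rw [h0, norm_zero] at this
    norm_num at this
  · intro h0
    have h1 := hu.2.2
    have h2 : (fun ji : Fin m × Fin (k + 1) => u (Sum.inr ji)) = 0 := h0
    rw [h2, norm_zero] at h1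
    norm_num at h1

theorem cp_mem {z : Ix k m N → ℤ} (h : Lc p z) : cp p z ∈ Kp k m N p := by
  refine ⟨?_, ?_, ?_⟩
  · rw [pi_norm_le_iff_of_nonneg (by norm_num)]
    intro i
    exact Padic.norm_int_le_one _
  · have h1 : pl (V (cp p z)) (W (cp p z)) = cp p (pl (V z) (W z)) := pl_cp _ _
    rw [h1]
    exact norm_cp h.1
  · exact norm_cp (v := fun ji : Fin m × Fin (k + 1) => z (Sum.inr ji)) h.2

/-- the local factor at an integer triple -/
noncomputable def fp (p : ℕ) [Fact p.Prime]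
    (φ : (Fin N × Fin N → ℚ_[p]) → (Fin m × (Fin k → Fin N) → ℚ_[p]) → ℝ) (z : Ix k m N → ℤ) : ℝ :=
  φ (cp p (pl (V z) (W z))) (cp p (T (V z) (W z) (Qc z)))

theorem FH_of_LF {φ : (Fin N × Fin N → ℚ_[p]) → (Fin m × (Fin k → Fin N) → ℚ_[p]) → ℝ}
    (h : LF k m N φ) : FH k m N {p} (fp p φ) := by
  set ψ : (Ix k m N → ℚ_[p]) → ℝ := fun u => φ (pl (V u) (W u)) (T (V u) (W u) (Qc u)) with hψ
  have hψz : ∀ z : Ix k m N → ℤ, fp p φ z = ψ (cp p z) := by
    intro z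
    rw [hψ]
    unfold fp
    simp only
    have h1 : pl (V (cp p z)) (W (cp p z)) = cp p (pl (V z) (W z)) := pl_cp _ _
    have h2 : T (V (cp p z)) (W (cp p z)) (Qc (cp p z)) = cp p (T (V z) (W z) (Qc z)) :=
      T_cp _ _ _
    rw [h1, h2]
  have hcont : ContinuousOn ψ (Kp k m N p) :=
    h.continuous.comp (f := fun u : Ix k m N → ℚ_[p] => (pl (V u) (W u),
      T (V u) (W u) (Qc u))) (s := Kp k m N p) (cont_pl'.prodMk cont_T').continuousOn
      (fun u hu => Kp_mem hu)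
  have hpos : ∀ u ∈ Kp k m N p, 0 < ψ u := fun u hu => h.positive _ (Kp_mem hu)
  have hLc : ∀ z : Ix k m N → ℤ, (∀ r ∈ ({p} : Finset ℕ), Lc r z) → cp p z ∈ Kp k m N p :=
    fun z hz => cp_mem (hz p (mem_singleton_self p))
  refine ⟨fun r hr => by rw [mem_singleton.1 hr]; exact hp.out, ?_, ?_⟩
  · by_cases hne : (Kp k m N p).Nonempty
    · obtain ⟨u₀, hu₀, hmin⟩ := Kp_compact.exists_isMinOn hne hcont
      obtain ⟨u₁, hu₁, hmax⟩ := Kp_compact.exists_isMaxOn hne hcont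
      refine ⟨ψ u₀, ψ u₁, hpos u₀ hu₀, fun z hz => ?_⟩
      rw [hψz]
      exact ⟨hmin (hLc z hz), hmax (hLc z hz)⟩
    · exact ⟨1, 1, one_pos, fun z hz => absurd ⟨_, hLc z hz⟩ hne⟩
  · intro ε hε
    have h3 := Kp_compact.uniformContinuousOn_of_continuous hcont
    rw [Metric.uniformContinuousOn_iff] at h3
    obtain ⟨δ, hδ, h4⟩ := h3 ε hε
    have hp1 : (1 : ℝ) < p := by exact_mod_cast hp.out.one_lt
    obtain ⟨n, hn⟩ := exists_pow_lt_of_lt_one hδ (inv_lt_one_of_one_lt₀ hp1)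
    have hn' : (p : ℝ) ^ (-n : ℤ) < δ := by
      rw [zpow_neg, zpow_natCast, ← inv_pow]
      exact hn
    refine ⟨p ^ n, pow_pos hp.out.pos n, fun z z' hz hz' hc => ?_⟩
    rw [hψz, hψz]
    have h5 := h4 _ (hLc z hz) _ (hLc z' hz') (by
      rw [dist_eq_norm]
      refine lt_of_le_of_lt ?_ hn'
      have hp0 : (0 : ℝ) < p := by linarith
      rw [pi_norm_le_iff_of_nonneg (by positivity)]
      intro i
      have h2 : (cp p z - cp p z') i = ((z i - z' i : ℤ) : ℚ_[p]) := by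
        rw [Pi.sub_apply]
        unfold cp
        push_cast
        rfl
      rw [h2, Padic.norm_int_le_pow_iff_dvd]
      have h6 : ((p ^ n : ℕ) : ℤ) ∣ z i - z' i := by
        rw [← ZMod.intCast_zmod_eq_zero_iff_dvd, Int.cast_sub, hc i, sub_self]
      exact_mod_cast h6)
    rw [Real.dist_eq] at h5
    exact h5.le

end padic

instance primes_fact (p : Nat.Primes) : Fact (p : ℕ).Prime := ⟨p.2⟩

theorem FH_prod (S : Finset Nat.Primes)
    (φ : ∀ p : Nat.Primes, (Fin N × Fin N → ℚ_[p]) → (Fin m × (Fin k → Fin N) → ℚ_[p]) → ℝ)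
    (h : ∀ p ∈ S, LF k m N (φ p)) :
    ∃ S₀ : Finset ℕ, FH k m N S₀ fun z => ∏ p ∈ S, fp p (φ p) z := by
  classical
  induction S using Finset.induction_on with
  | empty => exact ⟨∅, by simpa using FH_one⟩
  | insert a S ha ih =>
    obtain ⟨S₀, hS₀⟩ := ih fun p hp => h p (mem_insert_of_mem hp)
    refine ⟨{(a : ℕ)} ∪ S₀, ?_⟩
    have h1 := (FH_of_LF (h a (mem_insert_self a S))).mul hS₀
    have h2 : (fun z : Ix k m N → ℤ => ∏ p ∈ insert a S, fp p (φ p) z) =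
        fun z => fp a (φ a) z * ∏ p ∈ S, fp p (φ p) z := by
      funext z
      rw [prod_insert ha]
    rw [h2]
    exact h1

/-- extension of scalars -/
def ext (K : Type*) [Field K] {J : Type*} (v : J → ℚ) : J → K := fun i => (v i : K)

theorem ext_smul {K : Type*} [Field K] [CharZero K] {J : Type*} (c : ℚ) (x : J → ℤ) :
    ext K (fun i => c * (x i : ℤ)) = (c : K) • fun i => (x i : K) := by
  funext i
  unfold ext
  rw [Pi.smul_apply, smul_eq_mul]
  push_cast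
  rfl

/-- the height of a point with primitive integer coordinates -/
theorem mulHeight_eq {J : Type} [Fintype J] {P : Projectivization ℚ (J → ℚ)} {x : J → ℤ} {c : ℚ}
    (hc : c ≠ 0) (hx : Pm x) (h : P.rep = fun i => c * (x i : ℤ)) : P.mulHeight = ‖cr x‖ := by
  classical
  have hJ : Nonempty J := by
    by_contra hcon
    rw [not_nonempty_iff] at hcon
    exact hx.ne (funext fun i => isEmptyElim i)
  have h1 : P.rep = c • (((↑) : ℤ → ℚ) ∘ x) := by
    rw [h]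
    rfl
  conv_lhs => rw [← P.mk_rep, Projectivization.mulHeight_mk]
  rw [h1, Height.mulHeight_smul_eq_mulHeight _ hc, Rat.mulHeight_eq_max_abs_of_gcd_eq_one (pm_iff.1 hx)]
  obtain ⟨i₀, hi₀⟩ := Finite.exists_max fun i => |x i|
  have h3 : (⨆ i, |x i|) = |x i₀| := by
    apply le_antisymm
    · exact ciSup_le hi₀
    · exact le_ciSup (Set.finite_range fun i => |x i|).bddAbove i₀
  rw [h3]
  apply le_antisymm
  · have h4 := norm_le_pi_norm (cr x) i₀
    rw [Real.norm_eq_abs] at h4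
    refine le_trans ?_ h4
    unfold cr
    push_cast
    exact le_rfl
  · rw [pi_norm_le_iff_of_nonneg (by positivity)]
    intro i
    rw [Real.norm_eq_abs]
    unfold cr
    have h5 := hi₀ i
    have h6 : ((|x i| : ℤ) : ℝ) ≤ ((|x i₀| : ℤ) : ℝ) := by exact_mod_cast h5
    push_cast at h6 ⊢
    exact h6

/-- **the asymptotic formula for all adelic heights** -/
theorem main_all {e : ℕ} (he : 2 * N = 2 * e + m * k * (k + 1)) (hkm : 2 ≤ k * m) (hm : 1 ≤ m)
    (hN : 3 ≤ N) (S : Finset Nat.Primes)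
    (φ₀ : (Fin N × Fin N → ℝ) → (Fin m × (Fin k → Fin N) → ℝ) → ℝ) (h₀ : LF k m N φ₀)
    (φ : ∀ p : Nat.Primes, (Fin N × Fin N → ℚ_[p]) → (Fin m × (Fin k → Fin N) → ℚ_[p]) → ℝ)
    (h : ∀ p ∈ S, LF k m N (φ p)) :
    ∃ c : ℝ, 0 < c ∧ Tendsto (fun B : ℝ => ({P : PP k m N | P ∈ UU k m N ∧
      P.1.mulHeight ^ e * P.2.mulHeight ^ (m * (k + 1)) * (φ₀ (ext ℝ P.1.rep) (ext ℝ P.2.rep) *
        ∏ p ∈ S, φ p (ext ℚ_[p] P.1.rep) (ext ℚ_[p] P.2.rep)) ≤ B}.ncard : ℝ) /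
          (B * Real.log B)) atTop (𝓝 c) := by
  obtain ⟨S₀, hS₀⟩ := FH_prod S φ h
  refine count_points he hkm hm hN (RH_of_LF he h₀) hS₀ (fun P => P.1.mulHeight ^ e *
    P.2.mulHeight ^ (m * (k + 1)) * (φ₀ (ext ℝ P.1.rep) (ext ℝ P.2.rep) *
      ∏ p ∈ S, φ p (ext ℚ_[p] P.1.rep) (ext ℚ_[p] P.2.rep))) ?_
  rintro P hP z ⟨hg, ⟨c, hc, h1⟩, d, hd, h2⟩
  have hT := (pm_T hg.hpl).2 hg.hq
  rw [mulHeight_eq hc hg.hpl h1, mulHeight_eq hd hT h2]
  have e1 : pl (V (cr z)) (W (cr z)) = cr (pl (V z) (W z)) := pl_cr _ _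
  have e2 : T (V (cr z)) (W (cr z)) (Qc (cr z)) = cr (T (V z) (W z) (Qc z)) := T_cr _ _ _
  unfold Ph
  rw [e1, e2, h1, h2, ext_smul, ext_smul]
  have e3 : φ₀ ((c : ℝ) • fun i => ((pl (V z) (W z) i : ℤ) : ℝ))
      ((d : ℝ) • fun i => ((T (V z) (W z) (Qc z) i : ℤ) : ℝ)) =
      φ₀ (cr (pl (V z) (W z))) (cr (T (V z) (W z) (Qc z))) := by
    have hmem := Om_mem hg.om
    rw [e1, e2] at hmem
    exact h₀.invariant _ hmem _ _ (by exact_mod_cast hc) (by exact_mod_cast hd)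
  rw [e3]
  have e4 : ∏ p ∈ S, φ p (ext ℚ_[p] fun i => c * ((pl (V z) (W z) i : ℤ) : ℚ))
      (ext ℚ_[p] fun i => d * ((T (V z) (W z) (Qc z) i : ℤ) : ℚ)) = ∏ p ∈ S, fp p (φ p) z := by
    refine prod_congr rfl fun p hp => ?_
    rw [ext_smul, ext_smul]
    have hmem := Kp_mem (cp_mem (hg.lc p.2))
    have e5 : pl (V (cp p z)) (W (cp p z)) = cp p (pl (V z) (W z)) := pl_cp _ _
    have e6 : T (V (cp p z)) (W (cp p z)) (Qc (cp p z)) = cp p (T (V z) (W z) (Qc z)) :=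
      T_cp _ _ _
    rw [e5, e6] at hmem
    exact (h p hp).invariant _ hmem _ _ (by exact_mod_cast hc) (by exact_mod_cast hd)
  rw [e4]
  ring

end Pool.Agent.K6.H78.MF
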