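import Pool.Agent.K6.H78.MF.Rl

/-!
Counting reduced pairs.
-/

set_option autoImplicit false
set_option linter.unusedSectionVars false

namespace Pool.Agent.K6.H78.MF

open Finset

variable {k m N : ℕ}

/-- a set of integers of small diameter -/
theorem card_diam (S : Finset ℤ) (L : ℕ) (h : ∀ x ∈ S, ∀ y ∈ S, |x - y| ≤ L) :
    S.card ≤ L + 1 := by
  rcases S.eq_empty_or_nonempty with rfl | hne
  · simp
  · have : S ⊆ Finset.Icc (S.min' hne) (S.min' hne + L) := by
      intro x hx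
      have h1 := S.min'_le x hx
      have h2 := h x hx _ (S.min'_mem hne)
      rw [Finset.mem_Icc]
      exact ⟨h1, by have := le_abs_self (x - S.min' hne); linarith⟩
    calc S.card ≤ _ := card_le_card this
      _ = L + 1 := by rw [Int.card_Icc]; omega

/-- the box -/
noncomputable def bx (N W : ℕ) : Finset (Fin N → ℤ) := Fintype.piFinset fun _ => Icc (-(W : ℤ)) W

theorem mem_bx {W : ℕ} {v : Fin N → ℤ} : v ∈ bx N W ↔ ∀ i, (v i).natAbs ≤ W := by
  unfold bx
  rw [Fintype.mem_piFinset]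
  refine forall_congr' fun i => ?_
  rw [mem_Icc]
  omega

theorem card_pi_one (i : Fin N) (s : Finset ℤ) (W : ℕ) :
    (Fintype.piFinset fun j => if j = i then s else Icc (-(W : ℤ)) W).card =
      s.card * (2 * W + 1) ^ (N - 1) := by
  classical
  rw [Fintype.card_piFinset, ← mul_prod_erase univ _ (mem_univ i), if_pos rfl]
  congr 1
  have h1 : ∀ j ∈ univ.erase i, (if j = i then s else Icc (-(W : ℤ)) W).card = 2 * W + 1 := by
    intro j hj
    rw [if_neg (ne_of_mem_erase hj), Int.card_Icc]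
    omega
  rw [prod_congr rfl h1, prod_const, card_erase_of_mem (mem_univ i), card_univ, Fintype.card_fin]

theorem slab (v : Fin N → ℤ) (n W : ℕ) (i₀ : Fin N) (h0 : (v i₀).natAbs = n) (hn : 1 ≤ n)
    (hv : ∀ i, (v i).natAbs ≤ n) :
    ((bx N W).filter fun w => |2 * bl v w| ≤ sq v).card ≤ (N * n + 1) * (2 * W + 1) ^ (N - 1) := by
  classical
  set S := (bx N W).filter fun w => |2 * bl v w| ≤ sq v with hS
  have hsq : sq v ≤ N * n ^ 2 := by
    unfold sq
    calc ∑ i, v i * v i ≤ ∑ _i : Fin N, (n : ℤ) ^ 2 := by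
          refine sum_le_sum fun i _ => ?_
          have h1 : |v i| ≤ n := by
            have := hv i
            rw [← Int.natCast_natAbs]
            exact_mod_cast this
          rw [← pow_two, ← sq_abs]
          exact pow_le_pow_left₀ (abs_nonneg _) h1 2
      _ = N * n ^ 2 := by simp
  have h1 := Finset.card_le_mul_card_image (s := S) (f := fun w : Fin N → ℤ => Function.update w i₀ 0)
    (N * n + 1) (by
      intro u _
      set F := S.filter fun w => Function.update w i₀ 0 = u with hF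
      have hinj : Set.InjOn (fun w : Fin N → ℤ => w i₀) F := by
        intro w hw w' hw' he
        rw [hF, mem_coe, mem_filter] at hw hw'
        funext j
        by_cases hj : j = i₀
        · rw [hj]; exact he
        · have h2 := congrFun (hw.2.trans hw'.2.symm) j
          rwa [Function.update_of_ne hj, Function.update_of_ne hj] at h2
      rw [← card_image_of_injOn hinj]
      apply card_diam
      intro x hx y hy
      rw [mem_image] at hx hy
      obtain ⟨w, hw, rfl⟩ := hx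
      obtain ⟨w', hw', rfl⟩ := hy
      rw [hF, mem_filter] at hw hw'
      have hbl : bl v w - bl v w' = v i₀ * (w i₀ - w' i₀) := by
        unfold bl
        rw [← sum_sub_distrib, ← add_sum_erase univ _ (mem_univ i₀)]
        have h2 : ∀ j ∈ univ.erase i₀, v j * w j - v j * w' j = 0 := by
          intro j hj
          have h3 := congrFun (hw.2.trans hw'.2.symm) j
          rw [Function.update_of_ne (ne_of_mem_erase hj), Function.update_of_ne (ne_of_mem_erase hj)]
            at h3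
          rw [h3]
          ring
        rw [sum_eq_zero h2]
        ring
      have h3 := (mem_filter.1 hw.1).2
      have h4 := (mem_filter.1 hw'.1).2
      have h5 : |2 * (bl v w - bl v w')| ≤ 2 * sq v := by
        have : 2 * (bl v w - bl v w') = 2 * bl v w - 2 * bl v w' := by ring
        rw [this]
        exact (abs_sub _ _).trans (by linarith)
      rw [hbl, abs_mul, abs_mul] at h5
      have h6 : |v i₀| = n := by
        rw [← h0]
        exact (Int.natCast_natAbs _).symm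
      rw [h6] at h5
      have h7 : (n : ℤ) * |w i₀ - w' i₀| ≤ n * (N * n : ℕ) := by
        have : |(2 : ℤ)| = 2 := rfl
        rw [this] at h5
        push_cast
        nlinarith
      have h8 : (0 : ℤ) < n := by exact_mod_cast hn
      exact le_of_mul_le_mul_left h7 h8)
  refine h1.trans ?_
  refine Nat.mul_le_mul_left _ ?_
  calc (S.image fun w : Fin N → ℤ => Function.update w i₀ 0).card ≤
      (Fintype.piFinset fun j => if j = i₀ then ({0} : Finset ℤ) else Icc (-(W : ℤ)) W).card := by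
        refine card_le_card ?_
        intro u hu
        rw [mem_image] at hu
        obtain ⟨w, hw, rfl⟩ := hu
        rw [Fintype.mem_piFinset]
        intro j
        by_cases hj : j = i₀
        · rw [hj]; simp
        · rw [if_neg hj, Function.update_of_ne hj]
          have := (mem_filter.1 hw).1
          unfold bx at this
          rw [Fintype.mem_piFinset] at this
          exact this j
    _ = (2 * W + 1) ^ (N - 1) := by rw [card_pi_one]; simp

/-- the sup norm of an integer vector -/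
def hN (v : Fin N → ℤ) : ℕ := univ.sup fun i => (v i).natAbs

theorem le_hN (v : Fin N → ℤ) (i : Fin N) : (v i).natAbs ≤ hN v :=
  le_sup (f := fun i => (v i).natAbs) (mem_univ i)

theorem exists_hN {v : Fin N → ℤ} (h : v ≠ 0) : ∃ i, (v i).natAbs = hN v ∧ 1 ≤ hN v := by
  obtain ⟨i₀, hi₀⟩ := Function.ne_iff.1 h
  obtain ⟨i, _, hi⟩ := Finset.exists_mem_eq_sup univ ⟨i₀, mem_univ _⟩ fun i => (v i).natAbs
  refine ⟨i, hi.symm, ?_⟩
  have h1 := le_hN v i₀
  have h2 : 1 ≤ (v i₀).natAbs := Int.natAbs_pos.2 hi₀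
  omega

theorem card_shell (n : ℕ) (hn : 1 ≤ n) : ((bx N n).filter fun v => hN v = n ∧ v ≠ 0).card ≤
    N * (2 * (2 * n + 1) ^ (N - 1)) := by
  classical
  have h1 : ((bx N n).filter fun v => hN v = n ∧ v ≠ 0) ⊆ univ.biUnion fun i : Fin N =>
      Fintype.piFinset fun j => if j = i then ({(n : ℤ), -(n : ℤ)} : Finset ℤ)
        else Icc (-(n : ℤ)) n := by
    intro v hv
    rw [mem_filter] at hv
    obtain ⟨hb, hn', h0⟩ := hv
    obtain ⟨i, hi, _⟩ := exists_hN h0
    rw [mem_biUnion]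
    refine ⟨i, mem_univ i, ?_⟩
    rw [Fintype.mem_piFinset]
    intro j
    by_cases hj : j = i
    · subst hj
      rw [if_pos rfl, mem_insert, mem_singleton]
      rw [hn'] at hi
      omega
    · rw [if_neg hj]
      unfold bx at hb
      rw [Fintype.mem_piFinset] at hb
      exact hb j
  refine (card_le_card h1).trans (card_biUnion_le.trans ?_)
  simp only [card_pi_one]
  rw [sum_const, card_univ, Fintype.card_fin, smul_eq_mul]
  refine Nat.mul_le_mul_left _ (Nat.mul_le_mul_right _ ?_)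
  exact card_le_two

theorem hN_le_nv (v : Fin N → ℤ) : (hN v : ℝ) ≤ nv (cr v) := by
  by_cases h : v = 0
  · subst h
    have : hN (0 : Fin N → ℤ) = 0 := by
      unfold hN
      rw [← Nat.le_zero]
      exact Finset.sup_le fun i _ => by simp
    rw [this]
    simpa using nv_nonneg _
  · obtain ⟨i, hi, _⟩ := exists_hN h
    rw [← hi]
    have h1 := abs_le_nv (cr v) i
    unfold cr at h1 ⊢
    rw [Nat.cast_natAbs]
    push_cast
    exact h1

/-- **Counting reduced pairs.** -/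
theorem pairs (hN1 : 1 ≤ N) : ∃ C : ℝ, 0 < C ∧ ∀ Q K : ℝ, 0 < Q → 1 ≤ K →
    {p : (Fin N → ℤ) × (Fin N → ℤ) | p.1 ≠ 0 ∧ WR p.1 p.2 ∧ nv (cr p.1) * nv (cr p.2) ≤ Q ∧
      K * nv (cr p.1) ≤ nv (cr p.2)}.Finite ∧
    ({p : (Fin N → ℤ) × (Fin N → ℤ) | p.1 ≠ 0 ∧ WR p.1 p.2 ∧ nv (cr p.1) * nv (cr p.2) ≤ Q ∧
      K * nv (cr p.1) ≤ nv (cr p.2)}.ncard : ℝ) ≤ C * Q ^ N / K := by
  classical
  refine ⟨4 * N ^ 2 * 9 ^ (N - 1), by positivity, ?_⟩
  intro Q K hQ hK
  have hK0 : 0 < K := by linarith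
  set P : Set ((Fin N → ℤ) × (Fin N → ℤ)) := {p | p.1 ≠ 0 ∧ WR p.1 p.2 ∧
    nv (cr p.1) * nv (cr p.2) ≤ Q ∧ K * nv (cr p.1) ≤ nv (cr p.2)} with hP
  set M : ℕ := ⌊Real.sqrt (Q / K)⌋₊ with hM
  have hM2 : (M : ℝ) ^ 2 ≤ Q / K := by
    have h1 : (M : ℝ) ≤ Real.sqrt (Q / K) := Nat.floor_le (Real.sqrt_nonneg _)
    calc (M : ℝ) ^ 2 ≤ Real.sqrt (Q / K) ^ 2 := pow_le_pow_left₀ (by positivity) h1 2
      _ = Q / K := Real.sq_sqrt (by positivity)
  set A : (Fin N → ℤ) → Finset (Fin N → ℤ) := fun v =>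
    (bx N ⌊Q / hN v⌋₊).filter fun w => |2 * bl v w| ≤ sq v with hA
  set VB : ℕ → Finset (Fin N → ℤ) := fun n => (bx N n).filter fun v => hN v = n ∧ v ≠ 0 with hVB
  set F : Finset ((Fin N → ℤ) × (Fin N → ℤ)) := (Icc 1 M).biUnion fun n =>
    (VB n).biUnion fun v => (A v).image fun w => (v, w) with hF
  have hfacts : ∀ p ∈ P, 1 ≤ hN p.1 ∧ hN p.1 ≤ M ∧ (1 : ℝ) ≤ Q / hN p.1 ∧ p.2 ∈ A p.1 := by
    rintro ⟨v, w⟩ ⟨h0, hr, h1, h2⟩
    simp only at h0 hr h1 h2 ⊢
    obtain ⟨i, hi, hn⟩ := exists_hN h0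
    have hnR : (1 : ℝ) ≤ hN v := by exact_mod_cast hn
    have h3 := hN_le_nv v
    have h4 : nv (cr v) ≤ nv (cr w) := by nlinarith
    have h5 : K * (hN v : ℝ) ^ 2 ≤ Q := by
      calc K * (hN v : ℝ) ^ 2 ≤ K * nv (cr v) ^ 2 := by
            apply mul_le_mul_of_nonneg_left _ hK0.le
            exact pow_le_pow_left₀ (by positivity) h3 2
        _ = nv (cr v) * (K * nv (cr v)) := by ring
        _ ≤ nv (cr v) * nv (cr w) := mul_le_mul_of_nonneg_left h2 (nv_nonneg _)
        _ ≤ Q := h1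
    have h6 : (hN v : ℝ) * nv (cr w) ≤ Q :=
      (mul_le_mul_of_nonneg_right h3 (nv_nonneg _)).trans h1
    have h7 : nv (cr w) ≤ Q / hN v := by
      rw [le_div_iff₀ (by linarith)]
      linarith
    refine ⟨hn, ?_, by linarith, ?_⟩
    · rw [hM]
      apply Nat.le_floor
      apply Real.le_sqrt_of_sq_le
      rw [le_div_iff₀ hK0]
      linarith
    · rw [hA]
      simp only
      rw [mem_filter, mem_bx]
      refine ⟨fun j => ?_, ?_⟩
      · apply Nat.le_floor
        have h8 := abs_le_nv (cr w) j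
        unfold cr at h8
        rw [Nat.cast_natAbs]
        push_cast
        exact h8.trans h7
      · obtain ⟨r1, r2, r3⟩ := hr
        rw [abs_of_nonneg (by linarith)]
        exact r3
  have hsub : P ⊆ F := by
    rintro ⟨v, w⟩ hp
    obtain ⟨h1, h2, _, h4⟩ := hfacts _ hp
    rw [hF, mem_coe, mem_biUnion]
    refine ⟨hN v, mem_Icc.2 ⟨h1, h2⟩, ?_⟩
    rw [mem_biUnion]
    refine ⟨v, ?_, mem_image.2 ⟨w, h4, rfl⟩⟩
    rw [hVB, mem_filter, mem_bx]
    exact ⟨le_hN v, rfl, hp.1⟩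
  have hfin : P.Finite := F.finite_toSet.subset hsub
  refine ⟨hfin, ?_⟩
  have hcard : P.ncard ≤ F.card := by
    rw [← Set.ncard_coe_finset]
    exact Set.ncard_le_ncard hsub F.finite_toSet
  -- the bound for one vector
  have hQM : ∀ n ∈ Icc 1 M, (1 : ℝ) ≤ Q / n := by
    intro n hn
    rw [mem_Icc] at hn
    have hn1 : (1 : ℝ) ≤ n := by exact_mod_cast hn.1
    have hn2 : (n : ℝ) ≤ M := by exact_mod_cast hn.2
    rw [le_div_iff₀ (by linarith), one_mul]
    have h1 : (n : ℝ) ^ 2 ≤ Q / K := (pow_le_pow_left₀ (by linarith) hn2 2).trans hM2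
    have h2 : Q / K ≤ Q := div_le_self hQ.le hK
    nlinarith
  have hone : ∀ n ∈ Icc 1 M, ∀ v ∈ VB n, ((A v).card : ℝ) ≤ 2 * N * n * (3 * (Q / n)) ^ (N - 1) := by
    intro n hn v hv
    rw [hVB, mem_filter] at hv
    obtain ⟨_, hvn, hv0⟩ := hv
    obtain ⟨i, hi, hn1⟩ := exists_hN hv0
    have h1 := slab v (hN v) ⌊Q / hN v⌋₊ i hi hn1 (le_hN v)
    rw [hvn] at h1
    have hQn := hQM n hn
    have hn1' : (1 : ℝ) ≤ n := by exact_mod_cast (mem_Icc.1 hn).1
    have hN1' : (1 : ℝ) ≤ N := by exact_mod_cast hN1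
    have h2 : ((A v).card : ℝ) ≤ ((N : ℝ) * n + 1) * (2 * (⌊Q / n⌋₊ : ℝ) + 1) ^ (N - 1) := by
      rw [hA]
      simp only
      rw [hvn]
      exact_mod_cast h1
    refine h2.trans ?_
    have h3 : (⌊Q / n⌋₊ : ℝ) ≤ Q / n := Nat.floor_le (by positivity)
    refine mul_le_mul ?_ (pow_le_pow_left₀ (by positivity) (by linarith) _) (by positivity)
      (by positivity)
    nlinarith
  have hFc : (F.card : ℝ) ≤ ∑ n ∈ Icc 1 M, ∑ v ∈ VB n, 2 * N * n * (3 * (Q / n)) ^ (N - 1) := by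
    have h1 : F.card ≤ ∑ n ∈ Icc 1 M, ∑ v ∈ VB n, (A v).card := by
      refine card_biUnion_le.trans (sum_le_sum fun n _ => card_biUnion_le.trans
        (sum_le_sum fun v _ => card_image_le))
    have h2 : (F.card : ℝ) ≤ ∑ n ∈ Icc 1 M, ∑ v ∈ VB n, ((A v).card : ℝ) := by exact_mod_cast h1
    exact h2.trans (sum_le_sum fun n hn => sum_le_sum fun v hv => hone n hn v hv)
  have hterm : ∀ n ∈ Icc 1 M, ∑ v ∈ VB n, 2 * N * n * (3 * (Q / n)) ^ (N - 1) ≤
      4 * N ^ 2 * 9 ^ (N - 1) * Q ^ (N - 1) * n := by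
    intro n hn
    have hn1 := (mem_Icc.1 hn).1
    have hn0 : (0 : ℝ) < n := by exact_mod_cast hn1
    have hn1' : (1 : ℝ) ≤ n := by exact_mod_cast hn1
    rw [sum_const, nsmul_eq_mul]
    have h1 : ((VB n).card : ℝ) ≤ N * (2 * (3 * n) ^ (N - 1)) := by
      have h2 := card_shell (N := N) n hn1
      have h3 : ((VB n).card : ℝ) ≤ N * (2 * (2 * n + 1) ^ (N - 1)) := by exact_mod_cast h2
      refine h3.trans ?_
      have h4 : (2 * (n : ℝ) + 1) ^ (N - 1) ≤ (3 * n) ^ (N - 1) :=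
        pow_le_pow_left₀ (by positivity) (by linarith) _
      gcongr
    have h5 : (0 : ℝ) ≤ 2 * N * n * (3 * (Q / n)) ^ (N - 1) := by positivity
    refine (mul_le_mul_of_nonneg_right h1 h5).trans (le_of_eq ?_)
    rw [mul_pow, mul_pow, div_pow]
    have h6 : (9 : ℝ) ^ (N - 1) = 3 ^ (N - 1) * 3 ^ (N - 1) := by rw [← mul_pow]; norm_num
    rw [h6]
    field_simp
    ring
  have hsum : ∑ n ∈ Icc 1 M, (n : ℝ) ≤ M ^ 2 := by
    calc ∑ n ∈ Icc 1 M, (n : ℝ) ≤ ∑ _n ∈ Icc 1 M, (M : ℝ) :=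
          sum_le_sum fun n hn => by exact_mod_cast (mem_Icc.1 hn).2
      _ = M ^ 2 := by rw [sum_const, Nat.card_Icc, nsmul_eq_mul, Nat.add_sub_cancel]; ring
  calc (P.ncard : ℝ) ≤ F.card := by exact_mod_cast hcard
    _ ≤ _ := hFc
    _ ≤ ∑ n ∈ Icc 1 M, 4 * N ^ 2 * 9 ^ (N - 1) * Q ^ (N - 1) * (n : ℝ) := sum_le_sum hterm
    _ = 4 * N ^ 2 * 9 ^ (N - 1) * Q ^ (N - 1) * ∑ n ∈ Icc 1 M, (n : ℝ) := by rw [mul_sum]
    _ ≤ 4 * N ^ 2 * 9 ^ (N - 1) * Q ^ (N - 1) * (Q / K) := by
      apply mul_le_mul_of_nonneg_left (hsum.trans hM2) (by positivity)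
    _ = 4 * N ^ 2 * 9 ^ (N - 1) * Q ^ N / K := by
      have : Q ^ N = Q ^ (N - 1) * Q := by
        rw [← pow_succ]; congr 1; omega
      rw [this]
      ring

end Pool.Agent.K6.H78.MF
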