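import Pool.Agent.K6.H78.MF.Asm

/-!
Representatives of the rational points.
-/

set_option autoImplicit false
set_option linter.unusedSectionVars false
set_option linter.deprecated false
set_option linter.unusedVariables false

namespace Pool.Agent.K6.H78.MF

open Finset Filter Topology

variable {k m N : ℕ}

/-- the ambient space -/
abbrev PP (k m N : ℕ) : Type :=
  Projectivization ℚ (Fin N × Fin N → ℚ) × Projectivization ℚ (Fin m × (Fin k → Fin N) → ℚ)

/-- the points -/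
def UU (k m N : ℕ) : Set (PP k m N) :=
  {P | ∃ (v w : Fin N → ℚ) (q : Fin m → Fin (k + 1) → ℚ),
    P.1.rep = pl v w ∧ P.2.rep = T v w q ∧ NZ q}

/-- integer vectors as rational vectors -/
def cq {J : Type*} (v : J → ℤ) : J → ℚ := fun i => (v i : ℚ)

theorem T_cq (v w : Fin N → ℤ) (q : Fin m → Fin (k + 1) → ℤ) :
    T (cq v) (cq w) (fun j => cq (q j)) = cq (T v w q) := by
  classical
  funext p
  unfold T cq
  push_cast
  refine sum_congr rfl fun S _ => ?_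
  congr 1

theorem pl_cq (v w : Fin N → ℤ) : pl (cq v) (cq w) = cq (pl v w) := by
  funext p
  unfold pl cq
  push_cast
  rfl

theorem T_smulq {R : Type*} [CommRing R] (c : R) (v w : Fin N → R) (q : Fin m → Fin (k + 1) → R) :
    T v w (fun j i => c * q j i) = fun p => c * T v w q p := by
  classical
  funext p
  unfold T
  rw [mul_sum]
  exact sum_congr rfl fun S _ => by ring

theorem fv_smulq {R : Type*} [CommRing R] (c : R) (q : Fin (k + 1) → R) (x y : R) :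
    fv (fun i => c * q i) x y = c * fv q x y := by
  unfold fv
  rw [mul_sum]
  exact sum_congr rfl fun S _ => by ring

theorem NZ_smulq {c : ℚ} (hc : c ≠ 0) {q : Fin m → Fin (k + 1) → ℚ} :
    NZ (fun j i => c * q j i) ↔ NZ q := by
  unfold NZ
  refine forall₂_congr fun x y => imp_congr Iff.rfl (exists_congr fun j => ?_)
  rw [fv_smulq]
  simp [hc]

/-- the triple represents the point -/
def IsRep (z : Ix k m N → ℤ) (P : PP k m N) : Prop :=
  GG z ∧ (∃ c : ℚ, c ≠ 0 ∧ P.1.rep = fun i => c * (pl (V z) (W z) i : ℤ)) ∧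
    ∃ c : ℚ, c ≠ 0 ∧ P.2.rep = fun i => c * (T (V z) (W z) (Qc z) i : ℤ)

theorem Qc_glue (v w : Fin N → ℤ) (q : Fin m → Fin (k + 1) → ℤ) :
    Qc (glue v w fun p : Fin m × Fin (k + 1) => q p.1 p.2) = q := rfl

theorem V_glue' (v w : Fin N → ℤ) (q : Fin m × Fin (k + 1) → ℤ) : V (glue v w q) = v := rfl
theorem W_glue' (v w : Fin N → ℤ) (q : Fin m × Fin (k + 1) → ℤ) : W (glue v w q) = w := rfl

theorem exists_rep {P : PP k m N} (h : P ∈ UU k m N) : ∃ z, IsRep z P ∧ WR (V z) (W z) := by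
  classical
  obtain ⟨v, w, q, hpl, hT, hnz⟩ := h
  have hpl0 : pl v w ≠ 0 := by
    rw [← hpl]; exact P.1.rep_nonzero
  obtain ⟨z₀, c, hz₀, hc, hx⟩ := exists_pm (x := Sum.elim v w) (by
    intro h0
    apply hpl0
    have hv : v = 0 := by
      funext i
      exact congrFun h0 (Sum.inl i)
    funext p
    unfold pl
    rw [hv]
    simp)
  set v₀ : Fin N → ℤ := fun i => z₀ (Sum.inl i) with hv₀
  set w₀ : Fin N → ℤ := fun i => z₀ (Sum.inr i) with hw₀
  have hv : v = fun i => c * (v₀ i : ℚ) := by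
    funext i
    exact congrFun hx (Sum.inl i)
  have hw : w = fun i => c * (w₀ i : ℚ) := by
    funext i
    exact congrFun hx (Sum.inr i)
  have hp₀ : pl v w = fun p => c ^ 2 * (pl v₀ w₀ p : ℤ) := by
    funext p
    rw [hv, hw]
    unfold pl
    push_cast
    ring
  have hp₀0 : pl v₀ w₀ ≠ 0 := by
    intro h0
    apply hpl0
    rw [hp₀, h0]
    funext p
    simp
  obtain ⟨v', w', α, β, γ, δ, hPm, hv', hw', hdet⟩ := exists_prim v₀ w₀ hp₀0
  set q₁ : Fin m → Fin (k + 1) → ℚ := fun j => cb (c * α) (c * β) (c * γ) (c * δ) (q j) with hq₁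
  have hdet' : (α : ℚ) * δ - β * γ ≠ 0 := by exact_mod_cast hdet
  have hnz₁ : NZ q₁ := by
    refine NZ_cb ?_ hnz
    have : c * (α : ℚ) * (c * δ) - c * β * (c * γ) = c ^ 2 * ((α : ℚ) * δ - β * γ) := by ring
    rw [this]
    exact mul_ne_zero (pow_ne_zero 2 hc) hdet'
  have hT₁ : T v w q = T (cq v') (cq w') q₁ := by
    rw [hq₁, ← T_cb]
    congr 1
    · rw [hv, hv']
      funext i
      unfold cq
      push_cast
      ring
    · rw [hw, hw']
      funext i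
      unfold cq
      push_cast
      ring
  obtain ⟨zq, c', hzq, hc', hx'⟩ := exists_pm (x := fun p : Fin m × Fin (k + 1) => q₁ p.1 p.2) (by
    intro h0
    obtain ⟨j, hj⟩ := hnz₁ 1 0 (Or.inl one_ne_zero)
    apply hj
    unfold fv
    refine sum_eq_zero fun i _ => ?_
    have : q₁ j i = 0 := congrFun h0 (j, i)
    rw [this]
    ring)
  set q' : Fin m → Fin (k + 1) → ℤ := fun j i => zq (j, i) with hq'
  have hq₁' : q₁ = fun j i => c' * (cq (q' j) i) := by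
    funext j i
    exact congrFun hx' (j, i)
  have hG : Good v' w' q' := by
    refine ⟨hPm, ?_, ?_⟩
    · exact hzq
    · rw [hq₁'] at hnz₁
      exact (NZ_smulq hc' (q := fun j => cq (q' j))).1 hnz₁
  obtain ⟨v'', w'', q'', hG'', hWR, hT'', hpl''⟩ := hG.exists_wr
  refine ⟨glue v'' w'' fun p => q'' p.1 p.2, ⟨?_, ?_, ?_⟩, ?_⟩
  · unfold GG
    rw [Qc_glue, V_glue', W_glue']
    exact hG''
  · rw [V_glue', W_glue']
    have h1 : P.1.rep = fun p => (c ^ 2 * ((α : ℚ) * δ - β * γ)) * (pl v' w' p : ℤ) := by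
      rw [hpl, hp₀]
      funext p
      rw [hv', hw', pl_comb]
      push_cast
      ring
    have hne : c ^ 2 * ((α : ℚ) * δ - β * γ) ≠ 0 := mul_ne_zero (pow_ne_zero 2 hc) hdet'
    rcases hpl'' with h | h
    · exact ⟨_, hne, by rw [h1, h]⟩
    · refine ⟨_, neg_ne_zero.2 hne, ?_⟩
      rw [h1, h]
      funext p
      simp
  · rw [V_glue', W_glue', Qc_glue]
    refine ⟨c', hc', ?_⟩
    rw [hT, hT₁, hq₁', T_smulq, T_cq, ← hT'']
    rfl
  · rw [V_glue', W_glue']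
    exact hWR

theorem exists_point {z : Ix k m N → ℤ} (h : GG z) : ∃ P ∈ UU k m N, IsRep z P := by
  classical
  have hp0 : cq (pl (V z) (W z)) ≠ 0 := by
    intro h0
    apply h.hpl.ne
    funext p
    have h1 : ((pl (V z) (W z) p : ℤ) : ℚ) = 0 := congrFun h0 p
    have h2 : pl (V z) (W z) p = 0 := by exact_mod_cast h1
    exact h2
  have hT0 : cq (T (V z) (W z) (Qc z)) ≠ 0 := by
    intro h0
    apply ((pm_T h.hpl).2 h.hq).ne
    funext p
    have h1 : ((T (V z) (W z) (Qc z) p : ℤ) : ℚ) = 0 := congrFun h0 p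
    have h2 : T (V z) (W z) (Qc z) p = 0 := by exact_mod_cast h1
    exact h2
  obtain ⟨a, ha⟩ := Projectivization.exists_smul_eq_mk_rep ℚ _ hp0
  obtain ⟨b, hb⟩ := Projectivization.exists_smul_eq_mk_rep ℚ _ hT0
  refine ⟨(Projectivization.mk ℚ _ hp0, Projectivization.mk ℚ _ hT0), ?_, h, ?_, ?_⟩
  · have ha0 : (a : ℚ) ≠ 0 := a.ne_zero
    have hb0 : (b : ℚ) ≠ 0 := b.ne_zero
    refine ⟨fun i => (a : ℚ) * ((V z i : ℤ) : ℚ), cq (W z), fun j => cb (a : ℚ)⁻¹ 0 0 1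
      (fun i => (b : ℚ) * ((Qc z j i : ℤ) : ℚ)), ?_, ?_, ?_⟩
    · simp only
      rw [← ha, Units.smul_def]
      funext p
      unfold pl cq
      rw [Pi.smul_apply, smul_eq_mul]
      push_cast
      ring
    · simp only
      rw [← hb, Units.smul_def, ← T_cb]
      have h1 : (fun i => (a : ℚ)⁻¹ * ((a : ℚ) * ((V z i : ℤ) : ℚ)) + 0 * cq (W z) i) = cq (V z) := by
        funext i
        unfold cq
        field_simp
        ring
      have h2 : (fun i => 0 * ((a : ℚ) * ((V z i : ℤ) : ℚ)) + 1 * cq (W z) i) = cq (W z) := by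
        funext i
        ring
      rw [h1, h2]
      have h3 := T_smulq (b : ℚ) (cq (V z)) (cq (W z)) (fun j => cq (Qc z j))
      rw [T_cq] at h3
      exact h3.symm
    · refine NZ_cb ?_ ((NZ_smulq hb0 (q := fun j => cq (Qc z j))).2 h.hnz)
      simpa using inv_ne_zero ha0
  · refine ⟨a, a.ne_zero, ?_⟩
    simp only
    rw [← ha, Units.smul_def]
    funext p
    unfold cq
    rw [Pi.smul_apply, smul_eq_mul]
  · refine ⟨b, b.ne_zero, ?_⟩
    simp only
    rw [← hb, Units.smul_def]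
    funext p
    unfold cq
    rw [Pi.smul_apply, smul_eq_mul]

theorem proj_eq {J : Type} {P P' : Projectivization ℚ (J → ℚ)} {x : J → ℤ} {c c' : ℚ} (hc : c ≠ 0)
    (hc' : c' ≠ 0) (h : P.rep = fun i => c * (x i : ℤ)) (h' : P'.rep = fun i => c' * (x i : ℤ)) :
    P = P' := by
  rw [← P.mk_rep, ← P'.mk_rep, Projectivization.mk_eq_mk_iff']
  refine ⟨c / c', ?_⟩
  rw [h, h']
  funext i
  rw [Pi.smul_apply, smul_eq_mul]
  field_simp

theorem IsRep.pt_unique {z : Ix k m N → ℤ} {P P' : PP k m N} (h : IsRep z P) (h' : IsRep z P') :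
    P = P' := by
  obtain ⟨_, ⟨c, hc, h1⟩, d, hd, h2⟩ := h
  obtain ⟨_, ⟨c', hc', h1'⟩, d', hd', h2'⟩ := h'
  exact Prod.ext (proj_eq hc hc' h1 h1') (proj_eq hd hd' h2 h2')

theorem pm_rel {J : Type} [Fintype J] {x y : J → ℤ} (hx : Pm x) (hy : Pm y) {P : J → ℚ} {c c' : ℚ}
    (hc : c ≠ 0) (hc' : c' ≠ 0) (h : P = fun i => c * (x i : ℤ)) (h' : P = fun i => c' * (y i : ℤ)) :
    y = x ∨ y = -x := by
  have h1 : ∀ i, (y i : ℚ) = c / c' * x i := by
    intro i
    have h2 : c * (x i : ℤ) = c' * (y i : ℤ) := by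
      have := congrFun (h.symm.trans h') i
      exact this
    field_simp
    linarith
  rcases pm_unique hx hy h1 with h2 | h2
  · exact Or.inl h2.1
  · exact Or.inr h2.1

theorem IsRep.rel {z z' : Ix k m N → ℤ} {P : PP k m N} (h : IsRep z P) (h' : IsRep z' P) :
    (pl (V z') (W z') = pl (V z) (W z) ∨ pl (V z') (W z') = -pl (V z) (W z)) ∧
    (T (V z') (W z') (Qc z') = T (V z) (W z) (Qc z) ∨
      T (V z') (W z') (Qc z') = -T (V z) (W z) (Qc z)) := by
  obtain ⟨hg, ⟨c, hc, h1⟩, d, hd, h2⟩ := h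
  obtain ⟨hg', ⟨c', hc', h1'⟩, d', hd', h2'⟩ := h'
  exact ⟨pm_rel hg.hpl hg'.hpl hc hc' h1 h1',
    pm_rel ((pm_T hg.hpl).2 hg.hq) ((pm_T hg'.hpl).2 hg'.hq) hd hd' h2 h2'⟩

theorem IsRep.sg {z : Ix k m N → ℤ} {P : PP k m N} (h : IsRep z P) {ε ε' : ℤ}
    (hε : ε = 1 ∨ ε = -1) (hε' : ε' = 1 ∨ ε' = -1) : IsRep (MF.sg ε ε' z) P := by
  obtain ⟨hg, ⟨c, hc, h1⟩, d, hd, h2⟩ := h
  refine ⟨hg.sg hε hε', ⟨c, hc, ?_⟩, ?_⟩
  · rw [h1]
    funext p
    have : pl (V (MF.sg ε ε' z)) (W (MF.sg ε ε' z)) p = ε ^ 2 * pl (V z) (W z) p := by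
      unfold pl V W MF.sg
      simp only [Sum.elim_inl]
      ring
    rw [this]
    rcases hε with h | h <;> rw [h] <;> norm_num
  · have h3 : T (V (MF.sg ε ε' z)) (W (MF.sg ε ε' z)) (Qc (MF.sg ε ε' z)) =
        fun p => (ε' * ε ^ k) * T (V z) (W z) (Qc z) p := T_smul' ε ε' (V z) (W z) (Qc z)
    have h4 : ((ε' * ε ^ k : ℤ) : ℚ) * ((ε' * ε ^ k : ℤ) : ℚ) = 1 := by
      have h5 : (ε' * ε ^ k) * (ε' * ε ^ k) = (ε' * ε') * (ε * ε) ^ k := by ring
      have h6 : (ε' * ε ^ k) * (ε' * ε ^ k) = 1 := by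
        rw [h5]
        rcases hε with h | h <;> rcases hε' with h' | h' <;> rw [h, h'] <;> norm_num
      exact_mod_cast h6
    refine ⟨d * ((ε' * ε ^ k : ℤ) : ℚ), mul_ne_zero hd ?_, ?_⟩
    · intro h0
      rw [h0] at h4
      norm_num at h4
    · rw [h2, h3]
      funext p
      rw [Int.cast_mul]
      calc d * ((T (V z) (W z) (Qc z) p : ℤ) : ℚ) =
          d * (((ε' * ε ^ k : ℤ) : ℚ) * ((ε' * ε ^ k : ℤ) : ℚ)) *
            ((T (V z) (W z) (Qc z) p : ℤ) : ℚ) := by rw [h4, mul_one]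
        _ = _ := by push_cast; ring

/-- the asymptotic formula for the points -/
theorem count_points {e : ℕ} (he : 2 * N = 2 * e + m * k * (k + 1)) (hkm : 2 ≤ k * m) (hm : 1 ≤ m)
    (hN : 3 ≤ N) {Φ : (Ix k m N → ℝ) → ℝ} (hΦ : RH k m N e Φ) {S₀ : Finset ℕ}
    {f : (Ix k m N → ℤ) → ℝ} (hf : FH k m N S₀ f) (H : PP k m N → ℝ)
    (hH : ∀ P ∈ UU k m N, ∀ z, IsRep z P → H P = Φ (cr z) * f z) : ∃ c : ℝ, 0 < c ∧
      Tendsto (fun B : ℝ => ({P | P ∈ UU k m N ∧ H P ≤ B}.ncard : ℝ) / (B * Real.log B))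
        atTop (𝓝 c) := by
  classical
  have hex : ∀ P : PP k m N, ∃ z, P ∈ UU k m N → IsRep z P ∧ WR (V z) (W z) := by
    intro P
    by_cases h : P ∈ UU k m N
    · obtain ⟨z, hz⟩ := exists_rep h
      exact ⟨z, fun _ => hz⟩
    · exact ⟨0, fun h' => absurd h' h⟩
  choose ρ hρ using hex
  set RR : Set (Ix k m N → ℤ) := ρ '' UU k m N with hRR
  have hR : Reps RR := by
    refine ⟨?_, ?_, ?_, ?_⟩
    · rintro _ ⟨P, hP, rfl⟩
      exact (hρ P hP).1.1
    · rintro _ ⟨P, hP, rfl⟩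
      exact (hρ P hP).2
    · intro z hz hs
      obtain ⟨P, hP, hr⟩ := exists_point hz
      obtain ⟨hr', hw⟩ := hρ P hP
      obtain ⟨h1, h2⟩ := hr.rel hr'
      obtain ⟨ε, ε', hε, hε', e1, e2, e3⟩ := hz.unique hs hr'.1 hw h1 h2
      refine ⟨ε, ε', hε, hε', P, hP, ?_⟩
      funext i
      rcases i with (i | i) | ji
      · exact congrFun e1 i
      · exact congrFun e2 i
      · exact congrFun (congrFun e3 ji.1) ji.2
    · rintro z ⟨P, hP, rfl⟩ hs ε ε' hε hε' ⟨P', hP', h'⟩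
      have h1 : IsRep (sg ε ε' (ρ P)) P := (hρ P hP).1.sg hε hε'
      have h2 : IsRep (sg ε ε' (ρ P)) P' := by
        rw [← h']
        exact (hρ P' hP').1
      have h3 := h1.pt_unique h2
      rw [← h', h3]
  have hSI : SI Φ f := by
    intro z hz ε ε' hε hε'
    obtain ⟨P, hP, hr⟩ := exists_point hz
    rw [← hH P hP z hr, ← hH P hP _ (hr.sg hε hε')]
  obtain ⟨c, hc, hlim⟩ := asm he hkm hm hN hΦ hf hSI hR
  refine ⟨c, hc, ?_⟩
  refine hlim.congr fun B => ?_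
  congr 2
  have h1 : {z | z ∈ RR ∧ Φ (cr z) * f z ≤ B} = ρ '' {P | P ∈ UU k m N ∧ H P ≤ B} := by
    ext z
    constructor
    · rintro ⟨⟨P, hP, rfl⟩, h2⟩
      refine ⟨P, ⟨hP, ?_⟩, rfl⟩
      rw [hH P hP _ (hρ P hP).1]
      exact h2
    · rintro ⟨P, ⟨hP, h2⟩, rfl⟩
      refine ⟨⟨P, hP, rfl⟩, ?_⟩
      rw [← hH P hP _ (hρ P hP).1]
      exact h2
  rw [h1, Set.ncard_image_of_injOn]
  rintro P ⟨hP, _⟩ P' ⟨hP', _⟩ he
  have h2 := (hρ P hP).1
  rw [he] at h2
  exact h2.pt_unique (hρ P' hP').1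

end Pool.Agent.K6.H78.MF
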