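import Pool.Agent.K6.H78.MF.Prim
import Pool.Agent.Y714.KF.Gauss

/-!
Reduced bases of planes.
-/

set_option autoImplicit false
set_option linter.unusedSectionVars false

namespace Pool.Agent.K6.H78.MF

open Finset

variable {k m N : ℕ}

section ring

variable {R : Type*} [CommRing R]

/-- the square of the length -/
def sq (v : Fin N → R) : R := ∑ i, v i * v i

/-- the scalar product -/
def bl (v w : Fin N → R) : R := ∑ i, v i * w i

/-- the Gram determinant -/
def Gm (v w : Fin N → R) : R := sq v * sq w - bl v w ^ 2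

theorem bl_comm (v w : Fin N → R) : bl v w = bl w v := by
  unfold bl
  exact sum_congr rfl fun i _ => mul_comm _ _

theorem lagrange (v w : Fin N → R) : ∑ p, pl v w p ^ 2 = 2 * Gm v w := by
  rw [Fintype.sum_prod_type]
  have h1 : ∀ i j, pl v w (i, j) ^ 2 =
      (v i * v i) * (w j * w j) + (v j * v j) * (w i * w i) - 2 * ((v i * w i) * (v j * w j)) := by
    intro i j
    unfold pl
    ring
  simp only [h1, sum_sub_distrib, sum_add_distrib]
  have h2 : ∑ i, ∑ j, (v i * v i) * (w j * w j) = sq v * sq w := by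
    unfold sq
    rw [sum_mul_sum]
  have h3 : ∑ i, ∑ j, (v j * v j) * (w i * w i) = sq v * sq w := by
    unfold sq
    rw [sum_comm, sum_mul_sum]
  have h4 : ∑ i : Fin N, ∑ j : Fin N, 2 * ((v i * w i) * (v j * w j)) = 2 * bl v w ^ 2 := by
    have h5 : ∀ i : Fin N, ∑ j : Fin N, 2 * ((v i * w i) * (v j * w j)) =
        2 * ((v i * w i) * ∑ j : Fin N, (v j * w j)) := by
      intro i
      rw [mul_sum, mul_sum]
    simp only [h5]
    rw [← mul_sum, ← sum_mul]
    unfold bl
    ring
  rw [h2, h3, h4]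
  unfold Gm
  ring

theorem sq_comb (a b : R) (v w : Fin N → R) :
    sq (fun i => a * v i + b * w i) = a ^ 2 * sq v + 2 * a * b * bl v w + b ^ 2 * sq w := by
  unfold sq bl
  rw [mul_sum, mul_sum, mul_sum, ← sum_add_distrib, ← sum_add_distrib]
  exact sum_congr rfl fun i _ => by ring

theorem bl_comb (a b c d : R) (v w : Fin N → R) :
    bl (fun i => a * v i + b * w i) (fun i => c * v i + d * w i) =
      a * c * sq v + (a * d + b * c) * bl v w + b * d * sq w := by
  unfold sq bl
  rw [mul_sum, mul_sum, mul_sum, ← sum_add_distrib, ← sum_add_distrib]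
  exact sum_congr rfl fun i _ => by ring

theorem Gm_comb (a b c d : R) (v w : Fin N → R) :
    Gm (fun i => a * v i + b * w i) (fun i => c * v i + d * w i) =
      (a * d - b * c) ^ 2 * Gm v w := by
  unfold Gm
  rw [sq_comb, sq_comb, bl_comb]
  ring

theorem pl_comb (a b c d : R) (v w : Fin N → R) :
    pl (fun i => a * v i + b * w i) (fun i => c * v i + d * w i) =
      fun p => (a * d - b * c) * pl v w p := by
  funext p
  unfold pl
  ring

end ring

section order

variable {R : Type*} [CommRing R] [LinearOrder R] [IsStrictOrderedRing R]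

/-- reduced (weak inequalities) -/
def WR (v w : Fin N → R) : Prop := sq v ≤ sq w ∧ 0 ≤ bl v w ∧ 2 * bl v w ≤ sq v

/-- reduced (strict inequalities) -/
def SR (v w : Fin N → R) : Prop := sq v < sq w ∧ 0 < bl v w ∧ 2 * bl v w < sq v

theorem SR.wr {v w : Fin N → R} (h : SR v w) : WR v w := ⟨h.1.le, h.2.1.le, h.2.2.le⟩

theorem sq_nonneg' (v : Fin N → R) : 0 ≤ sq v := sum_nonneg fun _ _ => mul_self_nonneg _

theorem sq_pos' {v : Fin N → R} (h : v ≠ 0) : 0 < sq v := by
  obtain ⟨i, hi⟩ := Function.ne_iff.1 h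
  refine lt_of_lt_of_le (b := v i * v i) ?_ ?_
  · exact mul_self_pos.2 hi
  · exact single_le_sum (f := fun i => v i * v i) (fun i _ => mul_self_nonneg _) (mem_univ i)

end order

/-- integer vectors as real vectors -/
def cr {J : Type*} (v : J → ℤ) : J → ℝ := fun i => (v i : ℝ)

theorem sq_cr (v : Fin N → ℤ) : sq (cr v) = (sq v : ℤ) := by
  unfold sq cr
  push_cast
  rfl

theorem bl_cr (v w : Fin N → ℤ) : bl (cr v) (cr w) = (bl v w : ℤ) := by
  unfold bl cr
  push_cast
  rfl

theorem Gm_cr (v w : Fin N → ℤ) : Gm (cr v) (cr w) = (Gm v w : ℤ) := by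
  unfold Gm
  rw [sq_cr, sq_cr, bl_cr]
  push_cast
  rfl

theorem WR_cr {v w : Fin N → ℤ} : WR (cr v) (cr w) ↔ WR v w := by
  unfold WR
  rw [sq_cr, sq_cr, bl_cr]
  norm_cast

theorem SR_cr {v w : Fin N → ℤ} : SR (cr v) (cr w) ↔ SR v w := by
  unfold SR
  rw [sq_cr, sq_cr, bl_cr]
  norm_cast

theorem T_cr (v w : Fin N → ℤ) (q : Fin m → Fin (k + 1) → ℤ) :
    T (cr v) (cr w) (fun j => cr (q j)) = cr (T v w q) := by
  classical
  funext p
  unfold T cr
  push_cast
  refine sum_congr rfl fun S _ => ?_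
  congr 1

theorem pl_cr (v w : Fin N → ℤ) : pl (cr v) (cr w) = cr (pl v w) := by
  funext p
  unfold pl cr
  push_cast
  rfl

/-- good integer triples -/
structure Good (v w : Fin N → ℤ) (q : Fin m → Fin (k + 1) → ℤ) : Prop where
  hpl : Pm (pl v w)
  hq : Pm (fun p : Fin m × Fin (k + 1) => q p.1 p.2)
  hnz : NZ (fun j i => (q j i : ℚ))

theorem cb_cast (α β γ δ : ℤ) (q : Fin (k + 1) → ℤ) :
    (fun i => ((cb α β γ δ q i : ℤ) : ℚ)) = cb (α : ℚ) β γ δ (fun i => (q i : ℚ)) := by
  classical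
  funext i
  unfold cb Bf
  push_cast
  refine sum_congr rfl fun S _ => ?_
  congr 1

theorem NZ_cb {α β γ δ : ℚ} (hdet : α * δ - β * γ ≠ 0) {q : Fin m → Fin (k + 1) → ℚ} (h : NZ q) :
    NZ (fun j => cb α β γ δ (q j)) := by
  intro x y hxy
  have h1 : α * x + β * y ≠ 0 ∨ γ * x + δ * y ≠ 0 := by
    by_contra hcon
    push Not at hcon
    obtain ⟨h1, h2⟩ := hcon
    have h3 : (α * δ - β * γ) * x = 0 := by linear_combination δ * h1 - β * h2
    have h4 : (α * δ - β * γ) * y = 0 := by linear_combination α * h2 - γ * h1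
    rcases hxy with h | h
    · exact h ((mul_eq_zero.1 h3).resolve_left hdet)
    · exact h ((mul_eq_zero.1 h4).resolve_left hdet)
  obtain ⟨j, hj⟩ := h _ _ h1
  refine ⟨j, ?_⟩
  rw [fv_cb]
  exact hj

/-- change of basis of good triples -/
theorem Good.cb {v w v' w' : Fin N → ℤ} {q : Fin m → Fin (k + 1) → ℤ} (h : Good v w q)
    {a b c d : ℤ} (hdet : a * d - b * c = 1 ∨ a * d - b * c = -1)
    (hv : v = fun i => a * v' i + b * w' i) (hw : w = fun i => c * v' i + d * w' i) :
    Good v' w' (fun j => cb a b c d (q j)) ∧ T v' w' (fun j => MF.cb a b c d (q j)) = T v w q ∧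
      (pl v' w' = pl v w ∨ pl v' w' = -pl v w) := by
  have hT : T v' w' (fun j => MF.cb a b c d (q j)) = T v w q := by
    rw [← T_cb, ← hv, ← hw]
  have hpl : pl v w = fun p => (a * d - b * c) * pl v' w' p := by
    rw [hv, hw, pl_comb]
  have hpl' : pl v' w' = pl v w ∨ pl v' w' = -pl v w := by
    rcases hdet with h1 | h1
    · left; rw [hpl, h1]; funext p; simp
    · right; rw [hpl, h1]; funext p; simp
  have hP : Pm (MF.pl v' w') := by
    rcases hpl' with h1 | h1
    · rw [h1]; exact h.hpl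
    · rw [h1]; exact h.hpl.neg
  refine ⟨⟨hP, ?_, ?_⟩, hT, hpl'⟩
  · refine (pm_T (q := fun j => MF.cb a b c d (q j)) hP).1 ?_
    rw [hT]
    exact (pm_T h.hpl).2 h.hq
  · have h1 := NZ_cb (α := (a : ℚ)) (β := b) (γ := c) (δ := d) (by
      have : ((a * d - b * c : ℤ) : ℚ) ≠ 0 := by
        rcases hdet with h1 | h1 <;> rw [h1] <;> norm_num
      push_cast at this
      exact this) h.hnz
    simp only [← cb_cast] at h1
    exact h1

/-- existence of reduced good triples -/
theorem Good.exists_wr {v w : Fin N → ℤ} {q : Fin m → Fin (k + 1) → ℤ} (h : Good v w q) :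
    ∃ (v' w' : Fin N → ℤ) (q' : Fin m → Fin (k + 1) → ℤ), Good v' w' q' ∧ WR v' w' ∧
      T v' w' q' = T v w q ∧ (MF.pl v' w' = MF.pl v w ∨ MF.pl v' w' = -MF.pl v w) := by
  obtain ⟨ξ, η, ⟨e1, e2, e3, e4⟩, _⟩ := dual_of_pm h.hpl
  set L : ℝ := ((sq ξ + sq η : ℤ) : ℝ) with hL
  have hξ : ξ ≠ 0 := by
    rintro rfl
    simp at e1
  have hL0 : 0 < L := by
    rw [hL]
    have h1 := sq_pos' hξ
    have h2 := sq_nonneg' η
    exact_mod_cast by linarith
  have hcs : ∀ x y : Fin N → ℤ, (∑ i, x i * y i) ^ 2 ≤ sq x * sq y := by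
    intro x y
    have := Finset.sum_mul_sq_le_sq_mul_sq univ x y
    unfold sq
    simpa [pow_two] using this
  obtain ⟨a, b, c, d, hdet, r1, r2, r3⟩ := Pool.Agent.Y714.KF.red_exists (sq v : ℤ) (bl v w : ℤ)
    (sq w : ℤ) (1 / L) (by positivity) (by
      intro x y
      have h1 := hcs (fun i => x * v i + y * w i) ξ
      have h2 := hcs (fun i => x * v i + y * w i) η
      have h3 : ∑ i, (x * v i + y * w i) * ξ i = x := by
        have : ∀ i, (x * v i + y * w i) * ξ i = x * (v i * ξ i) + y * (w i * ξ i) := fun i => by ring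
        simp only [this, sum_add_distrib, ← mul_sum, e1, e2]
        ring
      have h4 : ∑ i, (x * v i + y * w i) * η i = y := by
        have : ∀ i, (x * v i + y * w i) * η i = x * (v i * η i) + y * (w i * η i) := fun i => by ring
        simp only [this, sum_add_distrib, ← mul_sum, e3, e4]
        ring
      rw [h3] at h1
      rw [h4] at h2
      rw [sq_comb] at h1 h2
      have h5 : x ^ 2 + y ^ 2 ≤ (x ^ 2 * sq v + 2 * x * y * bl v w + y ^ 2 * sq w) *
          (sq ξ + sq η) := by linarith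
      have h6 : ((x ^ 2 + y ^ 2 : ℤ) : ℝ) ≤ (((x ^ 2 * sq v + 2 * x * y * bl v w + y ^ 2 * sq w) *
          (sq ξ + sq η) : ℤ) : ℝ) := by exact_mod_cast h5
      rw [Int.cast_mul, ← hL] at h6
      push_cast at h6
      rw [one_div, inv_mul_le_iff₀ hL0]
      linarith)
  have s1 : sq (fun i => a * v i + b * w i) ≤ sq (fun i => c * v i + d * w i) := by
    rw [sq_comb, sq_comb]
    exact_mod_cast r1
  have s2 : 0 ≤ bl (fun i => a * v i + b * w i) (fun i => c * v i + d * w i) := by
    rw [bl_comb]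
    have : (0 : ℝ) ≤ 2 * ((a * c * sq v + (a * d + b * c) * bl v w + b * d * sq w : ℤ) : ℝ) := by
      push_cast
      exact r2
    have h2 : (0 : ℤ) ≤ 2 * (a * c * sq v + (a * d + b * c) * bl v w + b * d * sq w) := by
      exact_mod_cast this
    linarith
  have s3 : 2 * bl (fun i => a * v i + b * w i) (fun i => c * v i + d * w i) ≤
      sq (fun i => a * v i + b * w i) := by
    rw [bl_comb, sq_comb]
    exact_mod_cast r3
  -- the inverse matrix
  set ε : ℤ := a * d - b * c with hε
  have hε2 : ε * ε = 1 := by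
    rcases hdet with h1 | h1 <;> rw [h1] <;> norm_num
  have h1 := h.cb (v' := fun i => a * v i + b * w i) (w' := fun i => c * v i + d * w i)
    (a := ε * d) (b := -(ε * b)) (c := -(ε * c)) (d := ε * a) (by
      have : ε * d * (ε * a) - -(ε * b) * -(ε * c) = (ε * ε) * (a * d - b * c) := by ring
      rw [this, hε2, one_mul]
      exact hdet) (by
      funext i
      have : ε * d * (a * v i + b * w i) + -(ε * b) * (c * v i + d * w i) =
        ε * (a * d - b * c) * v i := by ring
      rw [this, ← hε, hε2, one_mul]) (by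
      funext i
      have : -(ε * c) * (a * v i + b * w i) + ε * a * (c * v i + d * w i) =
        ε * (a * d - b * c) * w i := by ring
      rw [this, ← hε, hε2, one_mul])
  exact ⟨_, _, _, h1.1, ⟨s1, s2, s3⟩, h1.2.1, h1.2.2⟩

/-- uniqueness of strictly reduced good triples up to signs -/
theorem Good.unique {v w v' w' : Fin N → ℤ} {q q' : Fin m → Fin (k + 1) → ℤ} (h : Good v w q)
    (hs : SR v w) (h' : Good v' w' q') (hw : WR v' w')
    (hpl : MF.pl v' w' = MF.pl v w ∨ MF.pl v' w' = -MF.pl v w)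
    (hT : T v' w' q' = T v w q ∨ T v' w' q' = -T v w q) :
    ∃ ε ε' : ℤ, (ε = 1 ∨ ε = -1) ∧ (ε' = 1 ∨ ε' = -1) ∧ (v' = fun i => ε * v i) ∧
      (w' = fun i => ε * w i) ∧ (q' = fun j i => ε' * q j i) := by
  obtain ⟨ξ, η, ⟨e1, e2, e3, e4⟩, hd⟩ := dual_of_pm h.hpl
  obtain ⟨a, b, hv⟩ : ∃ a b : ℤ, v' = fun i => a * v i + b * w i := ⟨_, _, hd v' w' hpl⟩
  obtain ⟨c, d, hw'⟩ : ∃ c d : ℤ, w' = fun i => c * v i + d * w i := by
    refine ⟨_, _, hd w' v' ?_⟩
    have h1 : MF.pl w' v' = -MF.pl v' w' := by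
      funext p
      unfold MF.pl
      rw [Pi.neg_apply]
      ring
    rw [h1]
    rcases hpl with h2 | h2
    · right; rw [h2]
    · left; rw [h2, neg_neg]
  have hdet : a * d - b * c = 1 ∨ a * d - b * c = -1 := by
    obtain ⟨p, hp⟩ := Function.ne_iff.1 h.hpl.ne
    have hp' : MF.pl v w p ≠ 0 := hp
    have h1 : MF.pl v' w' p = (a * d - b * c) * MF.pl v w p := by
      rw [hv, hw', pl_comb]
    rcases hpl with h2 | h2
    · left
      rw [h2] at h1
      have h3 : (a * d - b * c - 1) * MF.pl v w p = 0 := by linear_combination -h1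
      have := (mul_eq_zero.1 h3).resolve_right hp'
      linarith
    · right
      rw [h2, Pi.neg_apply] at h1
      have h3 : (a * d - b * c + 1) * MF.pl v w p = 0 := by linear_combination -h1
      have := (mul_eq_zero.1 h3).resolve_right hp'
      linarith
  obtain ⟨w1, w2, w3⟩ := hw
  obtain ⟨s1, s2, s3⟩ := hs
  rw [hv, hw', sq_comb, sq_comb] at w1
  rw [hv, hw', bl_comb] at w2
  rw [hv, hw', bl_comb, sq_comb] at w3
  have h4 := Pool.Agent.Y714.KF.red_unique (A := (sq v : ℤ)) (S := (bl v w : ℤ)) (C := (sq w : ℤ))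
    (by exact_mod_cast s1) (by exact_mod_cast (by linarith : 0 < 2 * bl v w))
    (by exact_mod_cast s3) a b c d hdet (by exact_mod_cast w1)
    (by exact_mod_cast (by linarith : 0 ≤ 2 * (a * c * sq v + (a * d + b * c) * bl v w +
      b * d * sq w)))
    (by exact_mod_cast w3)
  obtain ⟨ε, hε, hav, haw⟩ : ∃ ε : ℤ, (ε = 1 ∨ ε = -1) ∧ (v' = fun i => ε * v i) ∧
      (w' = fun i => ε * w i) := by
    rcases h4 with ⟨r1, r2, r3, r4⟩ | ⟨r1, r2, r3, r4⟩
    · refine ⟨1, Or.inl rfl, ?_, ?_⟩
      · rw [hv, r1, r2]; funext i; ring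
      · rw [hw', r3, r4]; funext i; ring
    · refine ⟨-1, Or.inr rfl, ?_, ?_⟩
      · rw [hv, r1, r2]; funext i; ring
      · rw [hw', r3, r4]; funext i; ring
  -- the coefficients
  have hT' : ∃ ε' : ℤ, (ε' = 1 ∨ ε' = -1) ∧ T v w q' = fun p => ε' * T v w q p := by
    have h5 : T v' w' q' = fun p => ε ^ k * T v w q' p := by
      have := T_smul' ε 1 v w q'
      simp only [one_mul] at this
      rw [hav, haw, this]
    have h6 : ε ^ k = 1 ∨ ε ^ k = -1 := by
      rcases hε with h | h
      · left; rw [h, one_pow]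
      · rw [h]; exact neg_one_pow_eq_or ℤ k
    rw [h5] at hT
    rcases h6 with h6 | h6 <;> rcases hT with hT | hT
    · refine ⟨1, Or.inl rfl, ?_⟩
      funext p
      have := congrFun hT p
      rw [h6] at this
      linarith
    · refine ⟨-1, Or.inr rfl, ?_⟩
      funext p
      have := congrFun hT p
      rw [h6, Pi.neg_apply] at this
      linarith
    · refine ⟨-1, Or.inr rfl, ?_⟩
      funext p
      have := congrFun hT p
      rw [h6] at this
      linarith
    · refine ⟨1, Or.inl rfl, ?_⟩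
      funext p
      have := congrFun hT p
      rw [h6, Pi.neg_apply] at this
      linarith
  obtain ⟨ε', hε', hTT⟩ := hT'
  refine ⟨ε, ε', hε, hε', hav, haw, ?_⟩
  funext j i
  obtain ⟨S, hS⟩ := exists_ci i
  have h7 := q_eq v w q' j S ξ η e1 e2 e3 e4
  have h8 := q_eq v w q j S ξ η e1 e2 e3 e4
  rw [hS] at h7 h8
  rw [h7, h8, mul_sum]
  refine sum_congr rfl fun f _ => ?_
  rw [congrFun hTT (j, f)]
  ring

/-- sign changes of good triples -/
theorem Good.signs {v w : Fin N → ℤ} {q : Fin m → Fin (k + 1) → ℤ} (h : Good v w q) {ε ε' : ℤ}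
    (hε : ε = 1 ∨ ε = -1) (hε' : ε' = 1 ∨ ε' = -1) :
    Good (fun i => ε * v i) (fun i => ε * w i) (fun j i => ε' * q j i) := by
  refine ⟨?_, ?_, ?_⟩
  · have h1 : MF.pl (fun i => ε * v i) (fun i => ε * w i) = MF.pl v w := by
      funext p
      unfold MF.pl
      rcases hε with h | h <;> rw [h] <;> ring
    rw [h1]
    exact h.hpl
  · rcases hε' with h1 | h1
    · simpa [h1] using h.hq
    · have := h.hq.neg
      rw [h1]
      intro p hp hd
      exact this p hp fun i => by simpa using hd i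
  · intro x y hxy
    obtain ⟨j, hj⟩ := h.hnz x y hxy
    refine ⟨j, ?_⟩
    have h1 : fv (fun i => ((ε' * q j i : ℤ) : ℚ)) x y = ε' * fv (fun i => (q j i : ℚ)) x y := by
      unfold fv
      rw [mul_sum]
      refine sum_congr rfl fun i _ => ?_
      push_cast
      ring
    rw [h1]
    refine mul_ne_zero ?_ hj
    rcases hε' with h | h <;> rw [h] <;> norm_num

end Pool.Agent.K6.H78.MF
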