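import Pool.Agent.K6.H78.MF.Red

/-!
Real inequalities for reduced bases.
-/

set_option autoImplicit false
set_option linter.unusedSectionVars false

namespace Pool.Agent.K6.H78.MF

open Finset

variable {k m N : ℕ}

/-- the length -/
noncomputable def nv (v : Fin N → ℝ) : ℝ := Real.sqrt (sq v)

theorem nv_nonneg (v : Fin N → ℝ) : 0 ≤ nv v := Real.sqrt_nonneg _

theorem nv_sq (v : Fin N → ℝ) : nv v ^ 2 = sq v := Real.sq_sqrt (sq_nonneg' v)

theorem nv_pos {v : Fin N → ℝ} (h : 0 < sq v) : 0 < nv v := Real.sqrt_pos.2 h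

theorem abs_le_nv (v : Fin N → ℝ) (i : Fin N) : |v i| ≤ nv v := by
  apply Real.abs_le_sqrt
  unfold sq
  rw [pow_two]
  exact single_le_sum (f := fun i => v i * v i) (fun i _ => mul_self_nonneg _) (mem_univ i)

theorem Gm_ge {v w : Fin N → ℝ} (h : WR v w) : 3 * (sq v * sq w) ≤ 4 * Gm v w := by
  obtain ⟨h1, h2, h3⟩ := h
  have h4 := sq_nonneg' v
  unfold Gm
  have h5 : (2 * bl v w) ^ 2 ≤ sq v * sq w := by
    calc (2 * bl v w) ^ 2 ≤ sq v ^ 2 := pow_le_pow_left₀ (by linarith) h3 2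
      _ = sq v * sq v := by ring
      _ ≤ sq v * sq w := mul_le_mul_of_nonneg_left h1 h4
  nlinarith

theorem Gm_le (v w : Fin N → ℝ) : Gm v w ≤ sq v * sq w := by
  unfold Gm
  nlinarith [sq_nonneg (bl v w)]

theorem WR.pos {v w : Fin N → ℝ} (h : WR v w) (hG : 0 < Gm v w) : 0 < sq v ∧ 0 < sq w := by
  have h1 := sq_nonneg' v
  have h2 : 0 < sq v := by
    rcases h1.lt_or_eq with h3 | h3
    · exact h3
    · exfalso
      have h4 := Gm_le v w
      rw [← h3, zero_mul] at h4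
      linarith
  exact ⟨h2, lt_of_lt_of_le h2 h.1⟩

/-- dual vectors -/
theorem exists_dual {v w : Fin N → ℝ} (h : WR v w) (hG : 0 < Gm v w) :
    ∃ ξ η : Fin N → ℝ, (∑ i, v i * ξ i = 1 ∧ ∑ i, w i * ξ i = 0 ∧ ∑ i, v i * η i = 0 ∧
      ∑ i, w i * η i = 1) ∧ (∀ i, |ξ i| * nv v ≤ 2) ∧ ∀ i, |η i| * nv w ≤ 2 := by
  obtain ⟨hv, hw⟩ := h.pos hG
  have hG' := hG.ne'
  have e1 : ∀ a b : ℝ, ∀ x : Fin N → ℝ, ∑ i, x i * ((a * v i - b * w i) / Gm v w) =
      (a * bl x v - b * bl x w) / Gm v w := by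
    intro a b x
    unfold bl
    rw [mul_sum, mul_sum, ← sum_sub_distrib, Finset.sum_div]
    refine sum_congr rfl fun i _ => by ring
  have e2 : ∀ a b : ℝ, ∀ x : Fin N → ℝ, ∑ i, x i * ((a * w i - b * v i) / Gm v w) =
      (a * bl x w - b * bl x v) / Gm v w := by
    intro a b x
    unfold bl
    rw [mul_sum, mul_sum, ← sum_sub_distrib, Finset.sum_div]
    refine sum_congr rfl fun i _ => by ring
  have hvv : bl v v = sq v := rfl
  have hww : bl w w = sq w := rfl
  have hwv : bl w v = bl v w := bl_comm w v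
  have h3 : 3 * (sq v * sq w) ≤ 4 * Gm v w := Gm_ge h
  refine ⟨fun i => (sq w * v i - bl v w * w i) / Gm v w,
    fun i => (sq v * w i - bl v w * v i) / Gm v w, ⟨?_, ?_, ?_, ?_⟩, ?_, ?_⟩
  · rw [e1, hvv, div_eq_one_iff_eq hG']
    unfold Gm; ring
  · rw [e1, hwv, hww, div_eq_zero_iff]
    left; ring
  · rw [e2, hvv, div_eq_zero_iff]
    left; ring
  · rw [e2, hwv, hww, div_eq_one_iff_eq hG']
    unfold Gm; ring
  · intro i
    have h1 := abs_le_nv (fun i => (sq w * v i - bl v w * w i) / Gm v w) i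
    have h2 : sq (fun i => (sq w * v i - bl v w * w i) / Gm v w) = sq w / Gm v w := by
      have h5 : (fun i => (sq w * v i - bl v w * w i) / Gm v w) =
          fun i => (sq w / Gm v w) * v i + (-(bl v w / Gm v w)) * w i := by
        funext i; ring
      rw [h5, sq_comb]
      field_simp
      unfold Gm
      ring
    have h4 : |(sq w * v i - bl v w * w i) / Gm v w| * nv v ≤ nv (fun i => (sq w * v i - bl v w * w i) / Gm v w) * nv v :=
      mul_le_mul_of_nonneg_right h1 (nv_nonneg v)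
    refine h4.trans ?_
    unfold nv
    rw [h2, ← Real.sqrt_mul (by positivity), Real.sqrt_le_iff]
    refine ⟨by norm_num, ?_⟩
    rw [div_mul_eq_mul_div, div_le_iff₀ hG]
    nlinarith
  · intro i
    have h1 := abs_le_nv (fun i => (sq v * w i - bl v w * v i) / Gm v w) i
    have h2 : sq (fun i => (sq v * w i - bl v w * v i) / Gm v w) = sq v / Gm v w := by
      have h5 : (fun i => (sq v * w i - bl v w * v i) / Gm v w) =
          fun i => (-(bl v w / Gm v w)) * v i + (sq v / Gm v w) * w i := by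
        funext i; ring
      rw [h5, sq_comb]
      field_simp
      unfold Gm
      ring
    have h4 : |(sq v * w i - bl v w * v i) / Gm v w| * nv w ≤ nv (fun i => (sq v * w i - bl v w * v i) / Gm v w) * nv w :=
      mul_le_mul_of_nonneg_right h1 (nv_nonneg w)
    refine h4.trans ?_
    unfold nv
    rw [h2, ← Real.sqrt_mul (by positivity), Real.sqrt_le_iff]
    refine ⟨by norm_num, ?_⟩
    rw [div_mul_eq_mul_div, div_le_iff₀ hG]
    nlinarith

/-- the coefficients are bounded by the tensor -/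
theorem q_bound {v w : Fin N → ℝ} (h : WR v w) (hG : 0 < Gm v w) (q : Fin m → Fin (k + 1) → ℝ)
    (j : Fin m) (i : Fin (k + 1)) :
    |q j i| * (nv v ^ (k - i) * nv w ^ (i : ℕ)) ≤ (2 * N) ^ k * ‖T v w q‖ := by
  classical
  obtain ⟨ξ, η, ⟨e1, e2, e3, e4⟩, hξ, hη⟩ := exists_dual h hG
  obtain ⟨S, hS⟩ := exists_ci i
  have hSc : S.card = (i : ℕ) := by rw [← hS]; rfl
  have h1 := q_eq v w q j S ξ η e1 e2 e3 e4
  rw [hS] at h1
  have h2 : nv v ^ (k - (i : ℕ)) * nv w ^ (i : ℕ) = ∏ l : Fin k, if l ∈ S then nv w else nv v := by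
    rw [prod_ite, prod_const, prod_const]
    have h2 : (univ.filter fun l => l ∈ S) = S := by ext; simp
    have h3 : (univ.filter fun l => l ∉ S) = Sᶜ := by ext; simp
    rw [h2, h3, card_compl, Fintype.card_fin, mul_comm, hSc]
  have h3 : 0 ≤ ∏ l : Fin k, if l ∈ S then nv w else nv v := by
    refine prod_nonneg fun l _ => ?_
    split_ifs <;> exact nv_nonneg _
  rw [h2, ← abs_of_nonneg h3, ← abs_mul, h1, sum_mul]
  refine (Finset.abs_sum_le_sum_abs _ _).trans ?_
  have h4 : ∀ f ∈ (univ : Finset (Fin k → Fin N)), |T v w q (j, f) *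
      (∏ l, (if l ∈ S then η (f l) else ξ (f l))) * ∏ l, (if l ∈ S then nv w else nv v)| ≤
      ‖T v w q‖ * 2 ^ k := by
    intro f _
    rw [mul_assoc, ← prod_mul_distrib, abs_mul, Finset.abs_prod]
    refine mul_le_mul ?_ ?_ (prod_nonneg fun _ _ => abs_nonneg _) (norm_nonneg _)
    · rw [← Real.norm_eq_abs]
      exact norm_le_pi_norm (T v w q) (j, f)
    · calc ∏ l, |(if l ∈ S then η (f l) else ξ (f l)) * (if l ∈ S then nv w else nv v)| ≤
          ∏ _l : Fin k, (2 : ℝ) := by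
            refine prod_le_prod (fun _ _ => abs_nonneg _) fun l _ => ?_
            by_cases hl : l ∈ S
            · simp only [hl, if_true]
              rw [abs_mul, abs_of_nonneg (nv_nonneg w)]
              exact hη _
            · simp only [hl, if_false]
              rw [abs_mul, abs_of_nonneg (nv_nonneg v)]
              exact hξ _
        _ = 2 ^ k := by simp
  refine (sum_le_sum h4).trans ?_
  rw [sum_const, card_univ, Fintype.card_fun, Fintype.card_fin, Fintype.card_fin, nsmul_eq_mul]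
  push_cast
  rw [mul_pow]
  apply le_of_eq
  ring

/-- the minors are bounded below -/
theorem pl_bound (v w : Fin N → ℝ) : Gm v w ≤ N ^ 2 * ‖pl v w‖ ^ 2 := by
  have h1 := lagrange v w
  have h2 : ∑ p, pl v w p ^ 2 ≤ ∑ _p : Fin N × Fin N, ‖pl v w‖ ^ 2 := by
    refine sum_le_sum fun p _ => ?_
    rw [← Real.norm_of_nonneg (sq_nonneg (pl v w p)), norm_pow]
    exact pow_le_pow_left₀ (norm_nonneg _) (norm_le_pi_norm _ _) 2
  rw [sum_const, card_univ, Fintype.card_prod, Fintype.card_fin, nsmul_eq_mul] at h2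
  push_cast at h2
  have h3 : 0 ≤ Gm v w := by
    have : 0 ≤ ∑ p, pl v w p ^ 2 := sum_nonneg fun _ _ => sq_nonneg _
    linarith
  nlinarith

/-- the minors are bounded above -/
theorem pl_upper (v w : Fin N → ℝ) (p : Fin N × Fin N) : |pl v w p| ≤ Real.sqrt (2 * Gm v w) := by
  apply Real.abs_le_sqrt
  rw [← lagrange]
  exact single_le_sum (f := fun p => pl v w p ^ 2) (fun _ _ => sq_nonneg _) (mem_univ p)

theorem prod_weights (a b : ℝ) (ha : 0 ≤ a) (hb : 0 ≤ b) :
    (∏ i : Fin (k + 1), a ^ (k - (i : ℕ)) * b ^ (i : ℕ)) ^ 2 = (a * b) ^ (k * (k + 1)) := by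
  have h1 : ∏ i : Fin (k + 1), a ^ (k - (i : ℕ)) * b ^ (i : ℕ) =
      ∏ i : Fin (k + 1), a ^ (i : ℕ) * b ^ (k - (i : ℕ)) := by
    rw [← Equiv.prod_comp Fin.revPerm]
    refine prod_congr rfl fun i _ => ?_
    have hi := i.2
    have h2 : ((Fin.revPerm i : Fin (k + 1)) : ℕ) = k - i := by
      rw [Fin.revPerm_apply, Fin.val_rev]
      omega
    rw [h2]
    congr 2
    omega
  rw [pow_two]
  nth_rewrite 2 [h1]
  rw [← prod_mul_distrib]
  have h2 : ∀ i : Fin (k + 1), a ^ (k - (i : ℕ)) * b ^ (i : ℕ) * (a ^ (i : ℕ) * b ^ (k - (i : ℕ))) =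
      (a * b) ^ k := by
    intro i
    have hi := i.2
    have h3 : a ^ (k - (i : ℕ)) * b ^ (i : ℕ) * (a ^ (i : ℕ) * b ^ (k - (i : ℕ))) =
        (a ^ (k - (i : ℕ)) * a ^ (i : ℕ)) * (b ^ (i : ℕ) * b ^ (k - (i : ℕ))) := by ring
    rw [h3, ← pow_add, ← pow_add, mul_pow]
    congr 2 <;> omega
  rw [prod_congr rfl fun i _ => h2 i, prod_const, card_univ, Fintype.card_fin, ← pow_mul]

end Pool.Agent.K6.H78.MF
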