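import Pool.Agent.K6.H78.MF.Zero
import Pool.Agent.K6.H78.MF.Crude
import Pool.Agent.Y379.KF.Box

/-!
Divisibility by large primes.
-/

set_option autoImplicit false
set_option linter.unusedSectionVars false

namespace Pool.Agent.K6.H78.MF

open Finset

variable {k m N : ℕ}

theorem tail_sum (P n : ℕ) (hP : 1 ≤ P) : ∑ i ∈ Ioc P n, ((i : ℝ) ^ 2)⁻¹ ≤ (P : ℝ)⁻¹ := by
  rcases le_total P n with h | h
  · have h1 := sum_Ioc_inv_sq_le_sub (α := ℝ) (by omega : P ≠ 0) h
    have h2 : (0 : ℝ) ≤ (n : ℝ)⁻¹ := by positivity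
    linarith
  · rw [Finset.Ioc_eq_empty (by omega), sum_empty]
    positivity

section one

variable {J : Type} [Fintype J] [DecidableEq J]

open scoped Classical in
/-- E1: all coordinates divisible by a large prime -/
theorem tail_one (hJ : 2 ≤ Fintype.card J) (P B : ℕ) (hP : 1 ≤ P) :
    (((bq J B).filter fun q => q ≠ 0 ∧ ∃ p : ℕ, p.Prime ∧ P < p ∧ ∀ j, (p : ℤ) ∣ q j).card : ℝ) ≤
      (3 * B) ^ Fintype.card J / P := by
  set S := (bq J B).filter fun q => q ≠ 0 ∧ ∃ p : ℕ, p.Prime ∧ P < p ∧ ∀ j, (p : ℤ) ∣ q j with hS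
  have hsub : S ⊆ (Ioc P B).biUnion fun p =>
      Fintype.piFinset fun _ : J => (Icc (-(B : ℤ)) B).filter fun x => (p : ℤ) ∣ x := by
    intro q hq
    rw [hS, mem_filter] at hq
    obtain ⟨hb, h0, p, hp, hPp, hd⟩ := hq
    obtain ⟨j, hj⟩ := Function.ne_iff.1 h0
    have hj' : q j ≠ 0 := hj
    have h1 := Nat.le_of_dvd (Int.natAbs_pos.2 hj') (Int.natCast_dvd.1 (hd j))
    have h2 := mem_bq.1 hb j
    rw [mem_biUnion]
    refine ⟨p, mem_Ioc.2 ⟨hPp, by omega⟩, ?_⟩
    rw [Fintype.mem_piFinset]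
    intro i
    rw [mem_filter, mem_Icc]
    exact ⟨mem_bq.1 hb i, hd i⟩
  have h1 : (S.card : ℝ) ≤ ∑ p ∈ Ioc P B, ((Fintype.piFinset fun _ : J =>
      (Icc (-(B : ℤ)) B).filter fun x => (p : ℤ) ∣ x).card : ℝ) := by
    exact_mod_cast (card_le_card hsub).trans card_biUnion_le
  refine h1.trans ?_
  have h2 : ∀ p ∈ Ioc P B, ((Fintype.piFinset fun _ : J =>
      (Icc (-(B : ℤ)) B).filter fun x => (p : ℤ) ∣ x).card : ℝ) ≤
      (3 * B) ^ Fintype.card J * ((p : ℝ) ^ 2)⁻¹ := by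
    intro p hp
    rw [mem_Ioc] at hp
    rw [Fintype.card_piFinset, prod_const, card_univ]
    push_cast
    have h3 := card_mult B p (by omega) hp.2
    have hp1 : (1 : ℝ) ≤ p := by exact_mod_cast (by omega : 1 ≤ p)
    refine (pow_le_pow_left₀ (Nat.cast_nonneg _) h3 _).trans ?_
    rw [div_pow, div_eq_mul_inv]
    apply mul_le_mul_of_nonneg_left _ (by positivity)
    apply inv_anti₀ (by positivity)
    exact pow_le_pow_right₀ hp1 hJ
  refine (sum_le_sum h2).trans ?_
  rw [← mul_sum, div_eq_mul_inv]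
  exact mul_le_mul_of_nonneg_left (tail_sum P B hP) (by positivity)

end one

/-! ### pairs of vectors -/

/-- at most two large prime divisors -/
theorem two_primes (A M : ℕ) (hA : 3 ≤ A) (hM : M ≠ 0) (hMA : M ≤ 2 * A ^ 2) :
    (M.primeFactors.filter fun p => A < p).card ≤ 2 := by
  by_contra hcon
  rw [not_le] at hcon
  set s := M.primeFactors.filter fun p => A < p with hs
  have h1 : A ^ s.card ≤ ∏ p ∈ s, p :=
    Finset.pow_card_le_prod s (fun p => p) A fun p hp => ((mem_filter.1 hp).2).le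
  have h2 : ∏ p ∈ s, p ∣ M :=
    (Finset.prod_dvd_prod_of_subset _ _ (fun p => p) (filter_subset _ _)).trans
      (Nat.prod_primeFactors_dvd M)
  have h3 := Nat.le_of_dvd (Nat.pos_of_ne_zero hM) h2
  have h4 : A ^ 3 ≤ A ^ s.card := Nat.pow_le_pow_right (by omega) hcon
  have h5 : A ^ 3 = A * A ^ 2 := by ring
  have h6 : 0 < A ^ 2 := by positivity
  nlinarith

open scoped Classical in
/-- E2, very large primes -/
theorem big_prime (A : ℕ) (hA : 3 ≤ A) :
    (((bx N A) ×ˢ (bx N A)).filter fun x : (Fin N → ℤ) × (Fin N → ℤ) => pl x.1 x.2 ≠ 0 ∧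
      ∃ p : ℕ, p.Prime ∧ A < p ∧ ∀ r, (p : ℤ) ∣ pl x.1 x.2 r).card ≤
      N ^ 2 * ((2 * 2 ^ N) * (2 * A + 1) ^ (N + 2)) := by
  set S := ((bx N A) ×ˢ (bx N A)).filter fun x : (Fin N → ℤ) × (Fin N → ℤ) => pl x.1 x.2 ≠ 0 ∧
      ∃ p : ℕ, p.Prime ∧ A < p ∧ ∀ r, (p : ℤ) ∣ pl x.1 x.2 r with hS
  set Sr : Fin N × Fin N → Finset ((Fin N → ℤ) × (Fin N → ℤ)) := fun r =>
    S.filter fun x => pl x.1 x.2 r ≠ 0 with hSr
  have hsub : S ⊆ univ.biUnion Sr := by
    intro x hx
    have h1 := (mem_filter.1 hx).2.1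
    obtain ⟨r, hr⟩ := Function.ne_iff.1 h1
    rw [mem_biUnion]
    exact ⟨r, mem_univ r, mem_filter.2 ⟨hx, hr⟩⟩
  have hone : ∀ r ∈ (univ : Finset (Fin N × Fin N)), (Sr r).card ≤
      (2 * 2 ^ N) * (2 * A + 1) ^ (N + 2) := by
    rintro ⟨i, j⟩ _
    set g : (Fin N → ℤ) × (Fin N → ℤ) → (Fin N → ℤ) × (ℤ × ℤ) := fun x => (x.1, (x.2 i, x.2 j))
      with hg
    have himg : ((Sr (i, j)).image g).card ≤ (2 * A + 1) ^ (N + 2) := by
      have h1 : (Sr (i, j)).image g ⊆ (bx N A) ×ˢ ((Icc (-(A : ℤ)) A) ×ˢ (Icc (-(A : ℤ)) A)) := by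
        intro y hy
        rw [mem_image] at hy
        obtain ⟨x, hx, rfl⟩ := hy
        have h2 := (mem_filter.1 (mem_filter.1 hx).1).1
        rw [mem_product] at h2
        have h3 := mem_bx.1 h2.2
        have h4 := h3 i
        have h5 := h3 j
        rw [mem_product, mem_product, mem_Icc, mem_Icc]
        refine ⟨h2.1, ?_, ?_⟩ <;> simp only [hg] <;> omega
      refine (card_le_card h1).trans ?_
      have h6 : (bx N A).card = (2 * A + 1) ^ N := by
        unfold bx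
        rw [Fintype.card_piFinset, prod_const, card_Icc', card_univ, Fintype.card_fin]
      rw [card_product, card_product, card_Icc', h6]
      apply le_of_eq
      ring
    have h1 := Finset.card_le_mul_card_image (s := Sr (i, j)) (f := g) (2 * 2 ^ N) (by
      rintro ⟨v₀, a, b⟩ _
      set F := (Sr (i, j)).filter fun x => g x = (v₀, (a, b)) with hF
      set M : ℤ := v₀ i * b - v₀ j * a with hM
      rcases F.eq_empty_or_nonempty with hFe | ⟨x₀, hx₀⟩
      · rw [hFe]; simp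
      -- properties of the elements of the fibre
      have hprop : ∀ x ∈ F, x.1 = v₀ ∧ x.2 i = a ∧ x.2 j = b ∧ x.1 ∈ bx N A ∧ x.2 ∈ bx N A ∧
          M ≠ 0 ∧ ∃ p : ℕ, p.Prime ∧ A < p ∧ ∀ r, (p : ℤ) ∣ pl x.1 x.2 r := by
        intro x hx
        rw [hF, mem_filter] at hx
        obtain ⟨hx1, hx2⟩ := hx
        rw [hg] at hx2
        simp only [Prod.mk.injEq] at hx2
        obtain ⟨e1, e2, e3⟩ := hx2
        rw [hSr, mem_filter] at hx1
        obtain ⟨hx3, hx4⟩ := hx1
        rw [hS, mem_filter, mem_product] at hx3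
        obtain ⟨⟨b1, b2⟩, _, b4⟩ := hx3
        refine ⟨e1, e2, e3, b1, b2, ?_, b4⟩
        unfold pl at hx4
        simp only at hx4
        rw [e1, e2, e3] at hx4
        exact hx4
      obtain ⟨e1, e2, e3, b1, b2, hM0, _⟩ := hprop x₀ hx₀
      have hv0 : ∀ l, (v₀ l).natAbs ≤ A := e1 ▸ mem_bx.1 b1
      have haA : a.natAbs ≤ A := e2 ▸ mem_bx.1 b2 i
      have hbA : b.natAbs ≤ A := e3 ▸ mem_bx.1 b2 j
      have hMA : M.natAbs ≤ 2 * A ^ 2 := by
        rw [hM]
        refine (Int.natAbs_sub_le _ _).trans ?_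
        rw [Int.natAbs_mul, Int.natAbs_mul]
        have h2 := Nat.mul_le_mul (hv0 i) hbA
        have h3 := Nat.mul_le_mul (hv0 j) haA
        have h4 : A ^ 2 = A * A := by ring
        omega
      set Sl : ℕ → Fin N → Finset ℤ := fun p l => (Icc (-(A : ℤ)) A).filter fun x =>
        (p : ℤ) ∣ v₀ i * x - v₀ l * a ∧ (p : ℤ) ∣ v₀ j * x - v₀ l * b with hSl
      have hFsub : F ⊆ (M.natAbs.primeFactors.filter fun p => A < p).biUnion fun p =>
          (Fintype.piFinset (Sl p)).image fun w => (v₀, w) := by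
        intro x hx
        obtain ⟨e1, e2, e3, b1, b2, _, p, hp, hAp, hd⟩ := hprop x hx
        rw [mem_biUnion]
        refine ⟨p, ?_, ?_⟩
        · rw [mem_filter, Nat.mem_primeFactors]
          refine ⟨⟨hp, ?_, Int.natAbs_ne_zero.2 hM0⟩, hAp⟩
          have h2 := hd (i, j)
          unfold pl at h2
          simp only at h2
          rw [e1, e2, e3] at h2
          exact Int.natCast_dvd.1 h2
        · rw [mem_image]
          refine ⟨x.2, ?_, by rw [← e1]⟩
          rw [Fintype.mem_piFinset]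
          intro l
          rw [hSl, mem_filter, mem_Icc]
          have h3 := mem_bx.1 b2 l
          refine ⟨by omega, ?_, ?_⟩
          · have h2 := hd (i, l)
            unfold pl at h2
            simp only at h2
            rw [e1, e2] at h2
            exact h2
          · have h2 := hd (j, l)
            unfold pl at h2
            simp only at h2
            rw [e1, e3] at h2
            exact h2
      have hSlc : ∀ p ∈ (M.natAbs.primeFactors.filter fun p => A < p), ∀ l, (Sl p l).card ≤ 2 := by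
        intro p hp l
        rw [mem_filter, Nat.mem_primeFactors] at hp
        obtain ⟨⟨hpp, _, _⟩, hAp⟩ := hp
        have hpI : Prime (p : ℤ) := Nat.prime_iff_prime_int.1 hpp
        -- one of the coordinates of `v₀` is not divisible by `p`
        have hnd : ¬ (p : ℤ) ∣ v₀ i ∨ ¬ (p : ℤ) ∣ v₀ j := by
          by_contra hcon
          push Not at hcon
          have hz : ∀ l, (p : ℤ) ∣ v₀ l → v₀ l = 0 := by
            intro l hl
            by_contra h0
            have h2 := Nat.le_of_dvd (Int.natAbs_pos.2 h0) (Int.natCast_dvd.1 hl)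
            have h3 := hv0 l
            omega
          apply hM0
          rw [hM, hz i hcon.1, hz j hcon.2]
          ring
        have hdiff : ∀ x ∈ Sl p l, ∀ y ∈ Sl p l, (p : ℤ) ∣ x - y := by
          intro x hx y hy
          rw [hSl, mem_filter] at hx hy
          rcases hnd with h | h
          · have h2 : (p : ℤ) ∣ v₀ i * (x - y) := by
              have := dvd_sub hx.2.1 hy.2.1
              have e : v₀ i * x - v₀ l * a - (v₀ i * y - v₀ l * a) = v₀ i * (x - y) := by ring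
              rwa [e] at this
            exact (hpI.dvd_or_dvd h2).resolve_left h
          · have h2 : (p : ℤ) ∣ v₀ j * (x - y) := by
              have := dvd_sub hx.2.2 hy.2.2
              have e : v₀ j * x - v₀ l * b - (v₀ j * y - v₀ l * b) = v₀ j * (x - y) := by ring
              rwa [e] at this
            exact (hpI.dvd_or_dvd h2).resolve_left h
        rcases (Sl p l).eq_empty_or_nonempty with he | hne
        · rw [he]; simp
        · set x₀ := (Sl p l).min' hne with hx₀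
          have hsub2 : Sl p l ⊆ {x₀, x₀ + p} := by
            intro x hx
            obtain ⟨c, hc⟩ := hdiff x hx x₀ ((Sl p l).min'_mem hne)
            have h2 := (Sl p l).min'_le x hx
            have h3 := mem_Icc.1 (mem_filter.1 hx).1
            have h4 := mem_Icc.1 (mem_filter.1 ((Sl p l).min'_mem hne)).1
            rw [← hx₀] at h2 h4
            have hp0 : (0 : ℤ) < p := by exact_mod_cast hpp.pos
            have hAp' : (A : ℤ) < p := by exact_mod_cast hAp
            have h5 : 0 ≤ c := by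
              by_contra hneg
              rw [not_le] at hneg
              nlinarith
            have h6 : c < 2 := by
              by_contra hneg
              rw [not_lt] at hneg
              nlinarith
            rw [mem_insert, mem_singleton]
            have h7 : c = 0 ∨ c = 1 := by omega
            rcases h7 with h7 | h7
            · left; rw [h7] at hc; linarith
            · right; rw [h7] at hc; linarith
          exact (card_le_card hsub2).trans card_le_two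
      refine (card_le_card hFsub).trans (card_biUnion_le.trans ?_)
      have h2 : ∀ p ∈ (M.natAbs.primeFactors.filter fun p => A < p),
          ((Fintype.piFinset (Sl p)).image fun w => (v₀, w)).card ≤ 2 ^ N := by
        intro p hp
        refine card_image_le.trans ?_
        rw [Fintype.card_piFinset]
        calc ∏ l, (Sl p l).card ≤ ∏ _l : Fin N, 2 := prod_le_prod' fun l _ => hSlc p hp l
          _ = 2 ^ N := by simp
      refine (sum_le_sum h2).trans ?_
      rw [sum_const, smul_eq_mul]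
      exact Nat.mul_le_mul_right _ (two_primes A M.natAbs hA (Int.natAbs_ne_zero.2 hM0) hMA))
    exact h1.trans (Nat.mul_le_mul_left _ himg)
  refine (card_le_card hsub).trans (card_biUnion_le.trans ((sum_le_sum hone).trans ?_))
  rw [sum_const, card_univ, Fintype.card_prod, Fintype.card_fin, smul_eq_mul, pow_two]

/-- dependent pairs modulo `p` -/
def Dp (N p : ℕ) : Set (Fin N ⊕ Fin N → ZMod p) :=
  {t | pl (fun i => t (Sum.inl i)) (fun i => t (Sum.inr i)) = 0}

theorem card_Dp (p : ℕ) (hp : p.Prime) : (Dp N p).ncard ≤ 2 * p ^ (N + 1) := by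
  classical
  have : Fact p.Prime := ⟨hp⟩
  set f₁ : (Fin N → ZMod p) × ZMod p → (Fin N ⊕ Fin N → ZMod p) :=
    fun x => Sum.elim x.1 (fun i => x.2 * x.1 i) with hf₁
  set f₂ : (Fin N → ZMod p) → (Fin N ⊕ Fin N → ZMod p) :=
    fun w => Sum.elim (fun _ => 0) w with hf₂
  have hsub : Dp N p ⊆ ((univ.image f₁ ∪ univ.image f₂ : Finset _) : Set _) := by
    intro t ht
    rw [mem_coe, mem_union, mem_image, mem_image]
    by_cases hv : ∀ i, t (Sum.inl i) = 0
    · right
      refine ⟨fun i => t (Sum.inr i), mem_univ _, ?_⟩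
      funext i
      rcases i with i | i
      · simp [hf₂, hv i]
      · simp [hf₂]
    · left
      push Not at hv
      obtain ⟨i₀, hi₀⟩ := hv
      refine ⟨(fun i => t (Sum.inl i), t (Sum.inr i₀) / t (Sum.inl i₀)), mem_univ _, ?_⟩
      funext i
      rcases i with i | i
      · simp [hf₁]
      · simp only [hf₁, Sum.elim_inr]
        have h1 := congrFun ht (i₀, i)
        unfold pl at h1
        simp only [Pi.zero_apply] at h1
        rw [div_mul_eq_mul_div, div_eq_iff hi₀]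
        linear_combination -h1
  have h1 := Set.ncard_le_ncard hsub (Finset.finite_toSet _)
  rw [Set.ncard_coe_finset] at h1
  have h2 : (univ.image f₁).card ≤ p ^ (N + 1) := by
    refine card_image_le.trans (le_of_eq ?_)
    rw [card_univ, Fintype.card_prod, Fintype.card_fun, ZMod.card, Fintype.card_fin, pow_succ]
  have h3 : (univ.image f₂).card ≤ p ^ (N + 1) := by
    refine card_image_le.trans ?_
    rw [card_univ, Fintype.card_fun, ZMod.card, Fintype.card_fin]
    exact Nat.pow_le_pow_right hp.pos (by omega)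
  have h4 := card_union_le (univ.image f₁) (univ.image f₂)
  omega

open scoped Classical in
/-- E2, primes of middle size -/
theorem mid_prime (hN : 3 ≤ N) : ∃ C : ℝ, 0 < C ∧ ∀ P A : ℕ, 1 ≤ P →
    ((((bx N A) ×ˢ (bx N A)).filter fun x : (Fin N → ℤ) × (Fin N → ℤ) =>
      ∃ p : ℕ, p.Prime ∧ P < p ∧ p ≤ A ∧ ∀ r, (p : ℤ) ∣ pl x.1 x.2 r).card : ℝ) ≤
      C * (A : ℝ) ^ (2 * N) / P := by
  obtain ⟨C, hC, hbox⟩ := Pool.Agent.Y379.KF.box (Fin N ⊕ Fin N) 1 one_pos
  refine ⟨C * 2, by positivity, fun P A hP => ?_⟩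
  set F : ℕ → Finset ((Fin N → ℤ) × (Fin N → ℤ)) := fun p =>
    ((bx N A) ×ˢ (bx N A)).filter fun x => ∀ r, (p : ℤ) ∣ pl x.1 x.2 r with hF
  have hsub : (((bx N A) ×ˢ (bx N A)).filter fun x : (Fin N → ℤ) × (Fin N → ℤ) =>
      ∃ p : ℕ, p.Prime ∧ P < p ∧ p ≤ A ∧ ∀ r, (p : ℤ) ∣ pl x.1 x.2 r) ⊆
      ((Ioc P A).filter Nat.Prime).biUnion F := by
    intro x hx
    rw [mem_filter] at hx
    obtain ⟨hb, p, hp, h1, h2, h3⟩ := hx
    rw [mem_biUnion]
    exact ⟨p, mem_filter.2 ⟨mem_Ioc.2 ⟨h1, h2⟩, hp⟩, mem_filter.2 ⟨hb, h3⟩⟩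
  have hone : ∀ p ∈ (Ioc P A).filter Nat.Prime, ((F p).card : ℝ) ≤
      (C * 2 * (A : ℝ) ^ (2 * N)) * ((p : ℝ) ^ 2)⁻¹ := by
    intro p hp
    rw [mem_filter, mem_Ioc] at hp
    obtain ⟨⟨_, hpA⟩, hpp⟩ := hp
    have hp1 : (1 : ℝ) ≤ p := by exact_mod_cast hpp.one_le
    obtain ⟨hfin, hb⟩ := hbox p hpp.one_le A (by exact_mod_cast hpA) (Dp N p)
    set g : (Fin N → ℤ) × (Fin N → ℤ) → (Fin N ⊕ Fin N → ℤ) := fun x => Sum.elim x.1 x.2 with hg
    have hinj : Function.Injective g := by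
      rintro ⟨a, b⟩ ⟨a', b'⟩ h
      have h1 : a = a' := by funext i; exact congrFun h (Sum.inl i)
      have h2 : b = b' := by funext i; exact congrFun h (Sum.inr i)
      rw [h1, h2]
    have h1 : ((F p).card : ℝ) ≤ ({z : Fin N ⊕ Fin N → ℤ | ‖z‖ ≤ 1 * (A : ℝ) ∧
        (fun i => (z i : ZMod p)) ∈ Dp N p}.ncard : ℝ) := by
      rw [← card_image_of_injective _ hinj, ← Set.ncard_coe_finset]
      refine Nat.cast_le.2 (Set.ncard_le_ncard ?_ hfin)
      intro z hz
      rw [mem_coe, mem_image] at hz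
      obtain ⟨x, hx, rfl⟩ := hz
      rw [hF, mem_filter, mem_product] at hx
      obtain ⟨⟨b1, b2⟩, hd⟩ := hx
      refine ⟨?_, ?_⟩
      · rw [one_mul, pi_norm_le_iff_of_nonneg (by positivity)]
        intro i
        rw [Int.norm_eq_abs]
        rcases i with i | i
        · have := mem_bx.1 b1 i
          simp only [hg, Sum.elim_inl]
          rw [← Int.cast_abs, ← Int.natCast_natAbs]
          exact_mod_cast this
        · have := mem_bx.1 b2 i
          simp only [hg, Sum.elim_inr]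
          rw [← Int.cast_abs, ← Int.natCast_natAbs]
          exact_mod_cast this
      · funext r
        have := hd r
        unfold pl at this ⊢
        simp only [hg, Sum.elim_inl, Sum.elim_inr, Pi.zero_apply]
        rw [← ZMod.intCast_zmod_eq_zero_iff_dvd] at this
        push_cast at this
        exact this
    refine h1.trans (hb.trans ?_)
    have h2 : ((Dp N p).ncard : ℝ) ≤ 2 * (p : ℝ) ^ (N + 1) := by exact_mod_cast card_Dp p hpp
    have hcard : Fintype.card (Fin N ⊕ Fin N) = 2 * N := by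
      rw [Fintype.card_sum, Fintype.card_fin]; ring
    rw [hcard]
    calc C * ((Dp N p).ncard : ℝ) * ((A : ℝ) / p) ^ (2 * N) ≤
        C * (2 * (p : ℝ) ^ (N + 1)) * ((A : ℝ) / p) ^ (2 * N) := by
          apply mul_le_mul_of_nonneg_right _ (by positivity)
          exact mul_le_mul_of_nonneg_left h2 hC.le
      _ = (C * 2 * (A : ℝ) ^ (2 * N)) * ((p : ℝ) ^ (N + 1) / (p : ℝ) ^ (2 * N)) := by
        rw [div_pow]; ring
      _ ≤ (C * 2 * (A : ℝ) ^ (2 * N)) * ((p : ℝ) ^ 2)⁻¹ := by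
        apply mul_le_mul_of_nonneg_left _ (by positivity)
        rw [div_le_iff₀ (by positivity), ← div_eq_inv_mul, le_div_iff₀ (by positivity), ← pow_add]
        exact pow_le_pow_right₀ hp1 (by omega)
  have h1 : ((((bx N A) ×ˢ (bx N A)).filter fun x : (Fin N → ℤ) × (Fin N → ℤ) =>
      ∃ p : ℕ, p.Prime ∧ P < p ∧ p ≤ A ∧ ∀ r, (p : ℤ) ∣ pl x.1 x.2 r).card : ℝ) ≤
      ∑ p ∈ (Ioc P A).filter Nat.Prime, ((F p).card : ℝ) := by
    exact_mod_cast (card_le_card hsub).trans card_biUnion_le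
  refine h1.trans ((sum_le_sum hone).trans ?_)
  rw [← mul_sum, div_eq_mul_inv]
  apply mul_le_mul_of_nonneg_left _ (by positivity)
  refine le_trans ?_ (tail_sum P A hP)
  exact sum_le_sum_of_subset_of_nonneg (filter_subset _ _) fun _ _ _ => by positivity

open scoped Classical in
/-- E2 -/
theorem tail_pl (hN : 3 ≤ N) : ∃ C : ℝ, 0 < C ∧ ∀ P A : ℕ, 1 ≤ P → 3 ≤ A →
    ((((bx N A) ×ˢ (bx N A)).filter fun x : (Fin N → ℤ) × (Fin N → ℤ) => pl x.1 x.2 ≠ 0 ∧
      ∃ p : ℕ, p.Prime ∧ P < p ∧ ∀ r, (p : ℤ) ∣ pl x.1 x.2 r).card : ℝ) ≤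
      C * (A : ℝ) ^ (2 * N) * (1 / P + 1 / A) := by
  obtain ⟨C, hC, hmid⟩ := mid_prime hN
  refine ⟨C + N ^ 2 * (2 * 2 ^ N) * 3 ^ (N + 2), by positivity, fun P A hP hA => ?_⟩
  have hA0 : (0 : ℝ) < A := by exact_mod_cast (by omega : 0 < A)
  have hA1 : (1 : ℝ) ≤ A := by exact_mod_cast (by omega : 1 ≤ A)
  have hP0 : (0 : ℝ) < P := by exact_mod_cast (by omega : 0 < P)
  have h1 := hmid P A hP
  have h2 := big_prime (N := N) A hA
  have hsub : (((bx N A) ×ˢ (bx N A)).filter fun x : (Fin N → ℤ) × (Fin N → ℤ) => pl x.1 x.2 ≠ 0 ∧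
      ∃ p : ℕ, p.Prime ∧ P < p ∧ ∀ r, (p : ℤ) ∣ pl x.1 x.2 r) ⊆
      (((bx N A) ×ˢ (bx N A)).filter fun x : (Fin N → ℤ) × (Fin N → ℤ) =>
        ∃ p : ℕ, p.Prime ∧ P < p ∧ p ≤ A ∧ ∀ r, (p : ℤ) ∣ pl x.1 x.2 r) ∪
      (((bx N A) ×ˢ (bx N A)).filter fun x : (Fin N → ℤ) × (Fin N → ℤ) => pl x.1 x.2 ≠ 0 ∧
        ∃ p : ℕ, p.Prime ∧ A < p ∧ ∀ r, (p : ℤ) ∣ pl x.1 x.2 r) := by
    intro x hx
    rw [mem_filter] at hx
    obtain ⟨hb, h0, p, hp, hPp, hd⟩ := hx
    rcases le_or_gt p A with h | h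
    · exact mem_union_left _ (mem_filter.2 ⟨hb, p, hp, hPp, h, hd⟩)
    · exact mem_union_right _ (mem_filter.2 ⟨hb, h0, p, hp, h, hd⟩)
  have h3 := (card_le_card hsub).trans (card_union_le _ _)
  refine le_trans (Nat.cast_le.2 h3) ?_
  rw [Nat.cast_add]
  have h4 : ((((bx N A) ×ˢ (bx N A)).filter fun x : (Fin N → ℤ) × (Fin N → ℤ) => pl x.1 x.2 ≠ 0 ∧
        ∃ p : ℕ, p.Prime ∧ A < p ∧ ∀ r, (p : ℤ) ∣ pl x.1 x.2 r).card : ℝ) ≤
      N ^ 2 * (2 * 2 ^ N) * 3 ^ (N + 2) * ((A : ℝ) ^ (2 * N) / A) := by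
    have h5 : ((((bx N A) ×ˢ (bx N A)).filter fun x : (Fin N → ℤ) × (Fin N → ℤ) =>
        pl x.1 x.2 ≠ 0 ∧ ∃ p : ℕ, p.Prime ∧ A < p ∧ ∀ r, (p : ℤ) ∣ pl x.1 x.2 r).card : ℝ) ≤
        N ^ 2 * ((2 * 2 ^ N) * (2 * A + 1) ^ (N + 2)) := by exact_mod_cast h2
    refine h5.trans ?_
    have h6 : (2 * (A : ℝ) + 1) ^ (N + 2) ≤ 3 ^ (N + 2) * (A : ℝ) ^ (N + 2) := by
      rw [← mul_pow]
      exact pow_le_pow_left₀ (by positivity) (by linarith) _
    have h7 : (A : ℝ) ^ (N + 2) ≤ (A : ℝ) ^ (2 * N) / A := by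
      rw [le_div_iff₀ hA0, ← pow_succ]
      exact pow_le_pow_right₀ hA1 (by omega)
    calc (N : ℝ) ^ 2 * ((2 * 2 ^ N) * (2 * A + 1) ^ (N + 2)) ≤
        N ^ 2 * ((2 * 2 ^ N) * (3 ^ (N + 2) * (A : ℝ) ^ (N + 2))) := by gcongr
      _ ≤ N ^ 2 * ((2 * 2 ^ N) * (3 ^ (N + 2) * ((A : ℝ) ^ (2 * N) / A))) := by gcongr
      _ = _ := by ring
  have h8 : (0 : ℝ) ≤ (A : ℝ) ^ (2 * N) / A := by positivity
  have h9 : (0 : ℝ) ≤ (A : ℝ) ^ (2 * N) / P := by positivity
  have h10 : (0 : ℝ) ≤ N ^ 2 * (2 * 2 ^ N) * 3 ^ (N + 2) := by positivity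
  calc _ ≤ C * (A : ℝ) ^ (2 * N) / P +
        N ^ 2 * (2 * 2 ^ N) * 3 ^ (N + 2) * ((A : ℝ) ^ (2 * N) / A) := add_le_add h1 h4
    _ ≤ (C + N ^ 2 * (2 * 2 ^ N) * 3 ^ (N + 2)) * ((A : ℝ) ^ (2 * N) / P + (A : ℝ) ^ (2 * N) / A) := by
      have e1 : C * (A : ℝ) ^ (2 * N) / P = C * ((A : ℝ) ^ (2 * N) / P) := by ring
      rw [e1]
      nlinarith [mul_nonneg hC.le h8, mul_nonneg h10 h9]
    _ = _ := by ring

end Pool.Agent.K6.H78.MF
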