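import Pool.Agent.K6.H78.MF.Prim

/-!
Few forms have a rational zero.
-/

set_option autoImplicit false
set_option linter.unusedSectionVars false

namespace Pool.Agent.K6.H78.MF

open Finset

variable {k m : ℕ}

/-- the box in a general index set -/
noncomputable def bq (J : Type) [Fintype J] [DecidableEq J] (B : ℕ) : Finset (J → ℤ) :=
  Fintype.piFinset fun _ => Icc (-(B : ℤ)) B

theorem mem_bq {J : Type} [Fintype J] [DecidableEq J] {B : ℕ} {q : J → ℤ} :
    q ∈ bq J B ↔ ∀ i, -(B : ℤ) ≤ q i ∧ q i ≤ B := by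
  unfold bq
  rw [Fintype.mem_piFinset]
  simp only [mem_Icc]

theorem card_Icc' (B : ℕ) : (Icc (-(B : ℤ)) B).card = 2 * B + 1 := by
  rw [Int.card_Icc]; omega

theorem card_bq (J : Type) [Fintype J] [DecidableEq J] (B : ℕ) :
    (bq J B).card = (2 * B + 1) ^ Fintype.card J := by
  unfold bq
  rw [Fintype.card_piFinset, prod_const, card_Icc', card_univ]

/-- multiples of `y` -/
theorem card_mult (B y : ℕ) (hy : 1 ≤ y) (hyB : y ≤ B) :
    (((Icc (-(B : ℤ)) B).filter fun x => (y : ℤ) ∣ x).card : ℝ) ≤ 3 * B / y := by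
  have h1 : ((Icc (-(B : ℤ)) B).filter fun x => (y : ℤ) ∣ x) ⊆
      (Icc (-((B / y : ℕ) : ℤ)) ((B / y : ℕ) : ℤ)).image fun x => (y : ℤ) * x := by
    intro x hx
    rw [mem_filter, mem_Icc] at hx
    obtain ⟨⟨h1, h2⟩, c, rfl⟩ := hx
    rw [mem_image]
    refine ⟨c, ?_, rfl⟩
    have hy' : (0 : ℤ) < y := by exact_mod_cast hy
    rw [mem_Icc]
    push_cast
    constructor
    · have h3 : -c ≤ (B : ℤ) / y := by
        rw [Int.le_ediv_iff_mul_le hy']
        linarith
      linarith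
    · rw [Int.le_ediv_iff_mul_le hy']
      linarith
  have h2 := (card_le_card h1).trans card_image_le
  rw [card_Icc'] at h2
  have h3 : (((Icc (-(B : ℤ)) B).filter fun x => (y : ℤ) ∣ x).card : ℝ) ≤ 2 * (B / y : ℕ) + 1 := by
    exact_mod_cast h2
  refine h3.trans ?_
  have h4 : ((B / y : ℕ) : ℝ) ≤ (B : ℝ) / y := Nat.cast_div_le
  have hy0 : (0 : ℝ) < y := by exact_mod_cast hy
  have h5 : (1 : ℝ) ≤ (B : ℝ) / y := by
    rw [le_div_iff₀ hy0, one_mul]
    exact_mod_cast hyB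
  rw [mul_div_assoc]
  linarith

section

variable {J : Type} [Fintype J] [DecidableEq J]

/-- fixing one coordinate -/
theorem card_fix (B : ℕ) (i : J) (c : ℤ) :
    ((bq J B).filter fun q => q i = c).card ≤ (2 * B + 1) ^ (Fintype.card J - 1) := by
  have h1 : ((bq J B).filter fun q => q i = c) ⊆
      Fintype.piFinset fun j => if j = i then ({c} : Finset ℤ) else Icc (-(B : ℤ)) B := by
    intro q hq
    rw [mem_filter] at hq
    rw [Fintype.mem_piFinset]
    intro j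
    by_cases hj : j = i
    · rw [if_pos hj, hj, mem_singleton]; exact hq.2
    · rw [if_neg hj]
      exact Fintype.mem_piFinset.1 hq.1 j
  refine (card_le_card h1).trans ?_
  rw [Fintype.card_piFinset, ← mul_prod_erase univ _ (mem_univ i), if_pos rfl, card_singleton,
    one_mul]
  have h2 : ∀ j ∈ univ.erase i, (if j = i then ({c} : Finset ℤ) else Icc (-(B : ℤ)) B).card =
      2 * B + 1 := by
    intro j hj
    rw [if_neg (ne_of_mem_erase hj), card_Icc']
  rw [prod_congr rfl h2, prod_const, card_erase_of_mem (mem_univ i), card_univ]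

/-- one coordinate is determined by the others -/
theorem card_det (S : Finset (J → ℤ)) (A : J → Finset ℤ) (i : J) (hS : ∀ q ∈ S, ∀ j, q j ∈ A j)
    (hdet : ∀ q ∈ S, ∀ q' ∈ S, (∀ j, j ≠ i → q j = q' j) → q i = q' i) :
    S.card ≤ ∏ j ∈ univ.erase i, (A j).card := by
  have hinj : Set.InjOn (fun q : J → ℤ => Function.update q i 0) S := by
    intro q hq q' hq' he
    have h1 : ∀ j, j ≠ i → q j = q' j := by
      intro j hj
      have := congrFun he j
      simp only at this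
      rwa [Function.update_of_ne hj, Function.update_of_ne hj] at this
    funext j
    by_cases hj : j = i
    · rw [hj]; exact hdet q hq q' hq' h1
    · exact h1 j hj
  rw [← card_image_of_injOn hinj]
  have h1 : (S.image fun q : J → ℤ => Function.update q i 0) ⊆
      Fintype.piFinset fun j => if j = i then ({0} : Finset ℤ) else A j := by
    intro u hu
    rw [mem_image] at hu
    obtain ⟨q, hq, rfl⟩ := hu
    rw [Fintype.mem_piFinset]
    intro j
    by_cases hj : j = i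
    · rw [if_pos hj, hj]; simp
    · rw [if_neg hj, Function.update_of_ne hj]
      exact hS q hq j
  refine (card_le_card h1).trans ?_
  rw [Fintype.card_piFinset, ← mul_prod_erase univ _ (mem_univ i), if_pos rfl, card_singleton,
    one_mul]
  exact le_of_eq (prod_congr rfl fun j hj => by rw [if_neg (ne_of_mem_erase hj)])

end

theorem fv_zero_left (q : Fin (k + 1) → ℚ) (y : ℚ) : fv q 0 y = q (Fin.last k) * y ^ k := by
  unfold fv
  rw [Finset.sum_eq_single (Fin.last k)]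
  · simp
  · intro i _ hi
    have h1 : k - (i : ℕ) ≠ 0 := by
      have h2 := i.2
      have h3 : (i : ℕ) ≠ k := fun h => hi (Fin.ext h)
      omega
    rw [zero_pow h1]
    ring
  · simp

theorem fv_zero_right (q : Fin (k + 1) → ℚ) (x : ℚ) : fv q x 0 = q 0 * x ^ k := by
  unfold fv
  rw [Finset.sum_eq_single 0]
  · simp
  · intro i _ hi
    have h1 : (i : ℕ) ≠ 0 := fun h => hi (Fin.ext h)
    rw [zero_pow h1]
    ring
  · simp

/-- a rational zero is a coprime integral zero -/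
theorem exists_coprime_zero {q : Fin m → Fin (k + 1) → ℚ} (h : ¬ NZ q) :
    ∃ x y : ℤ, IsCoprime x y ∧ ∀ j, fv (q j) x y = 0 := by
  unfold NZ at h
  push Not at h
  obtain ⟨x, y, hxy, hz⟩ := h
  have hne : (![x, y] : Fin 2 → ℚ) ≠ 0 := by
    intro h0
    rcases hxy with h1 | h1
    · exact h1 (by simpa using congrFun h0 0)
    · exact h1 (by simpa using congrFun h0 1)
  obtain ⟨z, c, hz1, hc, hzc⟩ := exists_pm hne
  have hx : x = c * z 0 := by simpa using congrFun hzc 0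
  have hy : y = c * z 1 := by simpa using congrFun hzc 1
  obtain ⟨b, hb⟩ := hz1.bezout
  rw [Fin.sum_univ_two] at hb
  refine ⟨z 0, z 1, ⟨b 0, b 1, hb⟩, fun j => ?_⟩
  have h1 := hz j
  have h2 : fv (q j) x y = c ^ k * fv (q j) (z 0) (z 1) := by
    unfold fv
    rw [mul_sum]
    refine sum_congr rfl fun i _ => ?_
    rw [hx, hy, mul_pow, mul_pow]
    have h3 : c ^ k = c ^ (k - (i : ℕ)) * c ^ (i : ℕ) := by
      rw [← pow_add]
      congr 1
      have := i.2
      omega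
    rw [h3]
    ring
  rw [h2] at h1
  exact (mul_eq_zero.1 h1).resolve_left (pow_ne_zero _ hc)

/-- divisibility of the end coefficients -/
theorem end_dvd (hk : 1 ≤ k) {q : Fin (k + 1) → ℤ} {x y : ℤ} (hxy : IsCoprime x y)
    (h : fv (fun i => (q i : ℚ)) x y = 0) : y ∣ q 0 ∧ x ∣ q (Fin.last k) := by
  have h1 : ∑ i : Fin (k + 1), (k.choose i : ℤ) * q i * x ^ (k - (i : ℕ)) * y ^ (i : ℕ) = 0 := by
    have h0 : ((∑ i : Fin (k + 1), (k.choose i : ℤ) * q i * x ^ (k - (i : ℕ)) * y ^ (i : ℕ) : ℤ) :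
        ℚ) = 0 := by
      push_cast
      exact h
    exact_mod_cast h0
  constructor
  · have h2 : y ∣ q 0 * x ^ k := by
      rw [Fin.sum_univ_succ] at h1
      have h3 : q 0 * x ^ k = -∑ i : Fin k, (k.choose (i.succ : ℕ) : ℤ) * q i.succ *
          x ^ (k - (i.succ : ℕ)) * y ^ (i.succ : ℕ) := by
        simp only [Fin.val_zero, Nat.choose_zero_right, Nat.sub_zero, pow_zero, mul_one] at h1
        push_cast at h1
        linarith
      rw [h3, dvd_neg]
      refine Finset.dvd_sum fun i _ => ?_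
      rw [Fin.val_succ, pow_succ]
      exact ⟨(k.choose ((i : ℕ) + 1) : ℤ) * q i.succ * x ^ (k - ((i : ℕ) + 1)) * y ^ (i : ℕ),
        by ring⟩
    exact (IsCoprime.pow_right (IsCoprime.symm hxy)).dvd_of_dvd_mul_right h2
  · have h2 : x ∣ q (Fin.last k) * y ^ k := by
      rw [Fin.sum_univ_castSucc] at h1
      have h3 : q (Fin.last k) * y ^ k = -∑ i : Fin k, (k.choose (i.castSucc : ℕ) : ℤ) *
          q i.castSucc * x ^ (k - (i.castSucc : ℕ)) * y ^ (i.castSucc : ℕ) := by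
        simp only [Fin.val_last, Nat.choose_self, Nat.sub_self, pow_zero, mul_one] at h1
        push_cast at h1
        linarith
      rw [h3, dvd_neg]
      refine Finset.dvd_sum fun i _ => ?_
      have h4 : k - ((i.castSucc : Fin (k + 1)) : ℕ) = (k - 1 - (i : ℕ)) + 1 := by
        have := i.2
        rw [Fin.val_castSucc]
        omega
      rw [h4, pow_succ]
      exact ⟨(k.choose (i.castSucc : ℕ) : ℤ) * q i.castSucc * x ^ (k - 1 - (i : ℕ)) *
        y ^ (i.castSucc : ℕ), by ring⟩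
    exact (IsCoprime.pow_right hxy).dvd_of_dvd_mul_right h2

/-- forms with the zero `(x, ± y)` -/
theorem card_zero_xy (hk : 2 ≤ k) (j₀ : Fin m) (B x y : ℕ) (ε : ℤ) (hε : ε = 1 ∨ ε = -1)
    (hx : 1 ≤ x) (hxB : x ≤ B) (hy : 1 ≤ y) (hyB : y ≤ B) :
    (((bq (Fin m × Fin (k + 1)) B).filter fun q => (y : ℤ) ∣ q (j₀, 0) ∧
      (x : ℤ) ∣ q (j₀, Fin.last k) ∧ fv (fun i => (q (j₀, i) : ℚ)) x ((ε * y : ℤ) : ℚ) = 0).card : ℝ) ≤
      (3 * B / y) * (3 * B / x) * (3 * B) ^ (m * (k + 1) - 3) := by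
  classical
  set S := (bq (Fin m × Fin (k + 1)) B).filter fun q => (y : ℤ) ∣ q (j₀, 0) ∧
      (x : ℤ) ∣ q (j₀, Fin.last k) ∧ fv (fun i => (q (j₀, i) : ℚ)) x ((ε * y : ℤ) : ℚ) = 0 with hS
  set one : Fin (k + 1) := ⟨1, by omega⟩ with hone
  set A : Fin m × Fin (k + 1) → Finset ℤ := fun j => if j = (j₀, 0) then
    (Icc (-(B : ℤ)) B).filter fun u => (y : ℤ) ∣ u else if j = (j₀, Fin.last k) then
    (Icc (-(B : ℤ)) B).filter fun u => (x : ℤ) ∣ u else Icc (-(B : ℤ)) B with hA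
  have h0l : (0 : Fin (k + 1)) ≠ Fin.last k := by
    intro h
    have := congrArg Fin.val h
    simp at this
    omega
  have h01 : (0 : Fin (k + 1)) ≠ one := by
    intro h
    have := congrArg Fin.val h
    simp [hone] at this
  have hl1 : Fin.last k ≠ one := by
    intro h
    have := congrArg Fin.val h
    simp [hone] at this
    omega
  have h1 := card_det S A (j₀, one) (by
    intro q hq j
    rw [hS, mem_filter, mem_bq] at hq
    obtain ⟨hb, d1, d2, _⟩ := hq
    rw [hA]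
    simp only
    split_ifs with e1 e2
    · rw [mem_filter, mem_Icc]; exact ⟨hb j, e1 ▸ d1⟩
    · rw [mem_filter, mem_Icc]; exact ⟨hb j, e2 ▸ d2⟩
    · rw [mem_Icc]; exact hb j) (by
    intro q hq q' hq' hqq
    rw [hS, mem_filter] at hq hq'
    have e1 := hq.2.2.2
    have e2 := hq'.2.2.2
    have e3 : fv (fun i => (q (j₀, i) : ℚ)) x ((ε * y : ℤ) : ℚ) -
        fv (fun i => (q' (j₀, i) : ℚ)) x ((ε * y : ℤ) : ℚ) = 0 := by rw [e1, e2, sub_zero]
    unfold fv at e3
    rw [← sum_sub_distrib, Finset.sum_eq_single one] at e3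
    · have hx0 : (x : ℚ) ≠ 0 := by exact_mod_cast (by omega : x ≠ 0)
      have hy0 : (y : ℚ) ≠ 0 := by exact_mod_cast (by omega : y ≠ 0)
      have hk0 : (k.choose 1 : ℚ) ≠ 0 := by
        rw [Nat.choose_one_right]
        exact_mod_cast (by omega : k ≠ 0)
      have hε0 : ((ε * y : ℤ) : ℚ) ≠ 0 := by
        push_cast
        refine mul_ne_zero ?_ hy0
        rcases hε with h | h <;> rw [h] <;> norm_num
      have e4 : ((k.choose 1 : ℚ) * (x : ℚ) ^ (k - 1) * ((ε * y : ℤ) : ℚ) ^ 1) *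
          ((q (j₀, one) : ℚ) - q' (j₀, one)) = 0 := by
        have : (one : ℕ) = 1 := rfl
        rw [this] at e3
        linear_combination e3
      have e5 := (mul_eq_zero.1 e4).resolve_left
        (mul_ne_zero (mul_ne_zero hk0 (pow_ne_zero _ hx0)) (pow_ne_zero _ hε0))
      have : (q (j₀, one) : ℚ) = q' (j₀, one) := by linarith
      exact_mod_cast this
    · intro i _ hi
      have h9 := hqq (j₀, i) (fun h => hi (by simpa using h))
      simp only [h9]
      ring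
    · intro h; exact absurd (mem_univ _) h)
  have h2 : ∏ j ∈ univ.erase (j₀, one), (A j).card = (A (j₀, 0)).card *
      ((A (j₀, Fin.last k)).card * (2 * B + 1) ^ (m * (k + 1) - 3)) := by
    have m1 : (j₀, (0 : Fin (k + 1))) ∈ univ.erase (j₀, one) := by
      rw [mem_erase]; exact ⟨fun h => h01 (by simpa using h), mem_univ _⟩
    have m2 : (j₀, Fin.last k) ∈ (univ.erase (j₀, one)).erase (j₀, (0 : Fin (k + 1))) := by
      rw [mem_erase, mem_erase]
      exact ⟨fun h => h0l (by simpa using h.symm), fun h => hl1 (by simpa using h), mem_univ _⟩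
    rw [← mul_prod_erase _ _ m1, ← mul_prod_erase _ _ m2]
    congr 2
    have h3 : ∀ j ∈ ((univ.erase (j₀, one)).erase (j₀, (0 : Fin (k + 1)))).erase (j₀, Fin.last k),
        (A j).card = 2 * B + 1 := by
      intro j hj
      rw [mem_erase, mem_erase] at hj
      rw [hA]
      simp only
      rw [if_neg hj.2.1, if_neg hj.1, card_Icc']
    rw [prod_congr rfl h3, prod_const, card_erase_of_mem m2, card_erase_of_mem m1,
      card_erase_of_mem (mem_univ _), card_univ, Fintype.card_prod, Fintype.card_fin,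
      Fintype.card_fin]
    rfl
  rw [h2] at h1
  have h3 : (S.card : ℝ) ≤ (A (j₀, 0)).card *
      ((A (j₀, Fin.last k)).card * (2 * B + 1) ^ (m * (k + 1) - 3)) := by exact_mod_cast h1
  refine h3.trans ?_
  have hA1 : A (j₀, 0) = (Icc (-(B : ℤ)) B).filter fun u => (y : ℤ) ∣ u := by
    rw [hA]; simp
  have hA2 : A (j₀, Fin.last k) = (Icc (-(B : ℤ)) B).filter fun u => (x : ℤ) ∣ u := by
    rw [hA]
    simp only
    rw [if_neg (fun h => h0l (congrArg Prod.snd h).symm), if_true]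
  rw [hA1, hA2, mul_assoc]
  have hB1 : (1 : ℝ) ≤ B := by exact_mod_cast hx.trans hxB
  have hx0 : (0 : ℝ) < x := by exact_mod_cast hx
  have hy0 : (0 : ℝ) < y := by exact_mod_cast hy
  have hnn : (0 : ℝ) ≤ (2 * B + 1) ^ (m * (k + 1) - 3) := by positivity
  refine mul_le_mul (card_mult B y hy hyB) ?_ (mul_nonneg (Nat.cast_nonneg _) hnn) (by positivity)
  refine mul_le_mul (card_mult B x hx hxB) ?_ hnn (by positivity)
  exact pow_le_pow_left₀ (by positivity) (by linarith) _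

open scoped Classical in
theorem zeros_ge_two (hk : 2 ≤ k) (hm : 1 ≤ m) (B : ℕ) (hB : 1 ≤ B) :
    (((bq (Fin m × Fin (k + 1)) B).filter fun q : Fin m × Fin (k + 1) → ℤ =>
      ¬ NZ (fun j i => (q (j, i) : ℚ))).card : ℝ) ≤ 4 * 3 ^ (m * (k + 1)) * (B : ℝ) ^ (m * (k + 1) - 1) * (1 + Real.log B) ^ 2 := by
  classical
  set j₀ : Fin m := ⟨0, hm⟩ with hj₀
  set R := m * (k + 1) with hR
  have hR3 : 3 ≤ R := by
    rw [hR]
    nlinarith
  set Sxy : ℤ → ℕ → ℕ → Finset (Fin m × Fin (k + 1) → ℤ) := fun ε x y =>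
    (bq (Fin m × Fin (k + 1)) B).filter fun q => (y : ℤ) ∣ q (j₀, 0) ∧
      (x : ℤ) ∣ q (j₀, Fin.last k) ∧ fv (fun i => (q (j₀, i) : ℚ)) x ((ε * y : ℤ) : ℚ) = 0 with hSxy
  have hsub : ((bq (Fin m × Fin (k + 1)) B).filter fun q => ¬ NZ (fun j i => (q (j, i) : ℚ))) ⊆
      ((bq (Fin m × Fin (k + 1)) B).filter fun q => q (j₀, 0) = 0) ∪
      (((bq (Fin m × Fin (k + 1)) B).filter fun q => q (j₀, Fin.last k) = 0) ∪
      (({1, -1} : Finset ℤ) ×ˢ (Icc 1 B ×ˢ Icc 1 B)).biUnion fun t => Sxy t.1 t.2.1 t.2.2) := by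
    intro q hq
    rw [mem_filter] at hq
    obtain ⟨hqb, hnz⟩ := hq
    obtain ⟨x, y, hxy, hz⟩ := exists_coprime_zero hnz
    have hz0 := hz j₀
    obtain ⟨d1, d2⟩ := end_dvd (q := fun i => q (j₀, i)) (by omega) hxy hz0
    by_cases h1 : q (j₀, 0) = 0
    · exact mem_union_left _ (mem_filter.2 ⟨hqb, h1⟩)
    by_cases h2 : q (j₀, Fin.last k) = 0
    · exact mem_union_right _ (mem_union_left _ (mem_filter.2 ⟨hqb, h2⟩))
    refine mem_union_right _ (mem_union_right _ ?_)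
    have hx0 : x ≠ 0 := by
      rintro rfl
      exact h2 (zero_dvd_iff.1 d2)
    have hy0 : y ≠ 0 := by
      rintro rfl
      exact h1 (zero_dvd_iff.1 d1)
    have hqb' := mem_bq.1 hqb
    have hxB : x.natAbs ≤ B := by
      have h3 := Int.natAbs_dvd_natAbs.2 d2
      have h4 := Nat.le_of_dvd (Int.natAbs_pos.2 h2) h3
      have h5 := hqb' (j₀, Fin.last k)
      omega
    have hyB : y.natAbs ≤ B := by
      have h3 := Int.natAbs_dvd_natAbs.2 d1
      have h4 := Nat.le_of_dvd (Int.natAbs_pos.2 h1) h3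
      have h5 := hqb' (j₀, 0)
      omega
    rw [mem_biUnion]
    refine ⟨(x.sign * y.sign, x.natAbs, y.natAbs), ?_, ?_⟩
    · rw [mem_product, mem_product, mem_Icc, mem_Icc]
      refine ⟨?_, ⟨Int.natAbs_pos.2 hx0, hxB⟩, ⟨Int.natAbs_pos.2 hy0, hyB⟩⟩
      simp only [mem_insert, mem_singleton]
      rcases lt_or_gt_of_ne hx0 with h | h <;> rcases lt_or_gt_of_ne hy0 with h' | h' <;>
        simp [Int.sign_eq_one_of_pos, Int.sign_eq_neg_one_of_neg, h, h']
    · rw [hSxy, mem_filter]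
      simp only
      refine ⟨hqb, Int.natAbs_dvd.2 d1, Int.natAbs_dvd.2 d2, ?_⟩
      have e1 : ((x.natAbs : ℕ) : ℚ) = (x.sign : ℚ) * x := by
        have : ((x.natAbs : ℕ) : ℤ) = x.sign * x := by
          rw [Int.natCast_natAbs, Int.sign_mul_self_eq_abs]
        have h3 := congrArg (Int.cast : ℤ → ℚ) this
        push_cast at h3
        rw [Nat.cast_natAbs]
        exact_mod_cast this
      have e2 : ((x.sign * y.sign * (y.natAbs : ℕ) : ℤ) : ℚ) = (x.sign : ℚ) * y := by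
        have : x.sign * y.sign * ((y.natAbs : ℕ) : ℤ) = x.sign * y := by
          rw [mul_assoc, Int.sign_mul_natAbs]
        exact_mod_cast this
      rw [e1, e2]
      have e3 : fv (fun i => (q (j₀, i) : ℚ)) ((x.sign : ℚ) * x) ((x.sign : ℚ) * y) =
          (x.sign : ℚ) ^ k * fv (fun i => (q (j₀, i) : ℚ)) x y := by
        unfold fv
        rw [mul_sum]
        refine sum_congr rfl fun i _ => ?_
        rw [mul_pow, mul_pow]
        have h3 : (x.sign : ℚ) ^ k = (x.sign : ℚ) ^ (k - (i : ℕ)) * (x.sign : ℚ) ^ (i : ℕ) := by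
          rw [← pow_add]
          congr 1
          have := i.2
          omega
        rw [h3]
        ring
      rw [e3, hz0, mul_zero]
  have hcard := (card_le_card hsub).trans ((card_union_le _ _).trans
    (Nat.add_le_add_left (card_union_le _ _) _))
  have hB0 : (1 : ℝ) ≤ B := by exact_mod_cast hB
  have hJ : Fintype.card (Fin m × Fin (k + 1)) = R := by
    rw [Fintype.card_prod, Fintype.card_fin, Fintype.card_fin]
  have h1 := card_fix (J := Fin m × Fin (k + 1)) B (j₀, 0) 0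
  have h2 := card_fix (J := Fin m × Fin (k + 1)) B (j₀, Fin.last k) 0
  rw [hJ] at h1 h2
  have h3 : (((({1, -1} : Finset ℤ) ×ˢ (Icc 1 B ×ˢ Icc 1 B)).biUnion
      fun t => Sxy t.1 t.2.1 t.2.2).card : ℝ) ≤
      2 * ((3 * B) ^ (R - 1) * (1 + Real.log B) ^ 2) := by
    have h4 : (((({1, -1} : Finset ℤ) ×ˢ (Icc 1 B ×ˢ Icc 1 B)).biUnion
        fun t => Sxy t.1 t.2.1 t.2.2).card : ℝ) ≤
        ∑ t ∈ ({1, -1} : Finset ℤ) ×ˢ (Icc 1 B ×ˢ Icc 1 B), ((Sxy t.1 t.2.1 t.2.2).card : ℝ) := by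
      exact_mod_cast card_biUnion_le
    refine h4.trans ?_
    have h5 : ∀ t ∈ ({1, -1} : Finset ℤ) ×ˢ (Icc 1 B ×ˢ Icc 1 B),
        ((Sxy t.1 t.2.1 t.2.2).card : ℝ) ≤
        ((3 * B) ^ (R - 1) * ((t.2.1 : ℝ)⁻¹ * (t.2.2 : ℝ)⁻¹)) := by
      intro t ht
      rw [mem_product, mem_product, mem_Icc, mem_Icc, mem_insert, mem_singleton] at ht
      have h6 := card_zero_xy hk j₀ B t.2.1 t.2.2 t.1 ht.1 ht.2.1.1 ht.2.1.2 ht.2.2.1 ht.2.2.2
      refine h6.trans (le_of_eq ?_)
      have h7 : (3 * (B : ℝ)) ^ (R - 1) = (3 * B) * (3 * B) * (3 * B) ^ (R - 3) := by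
        rw [← pow_two, ← pow_add]
        congr 1
        omega
      rw [h7, ← hR]
      ring
    refine (sum_le_sum h5).trans ?_
    rw [← mul_sum, Finset.sum_product]
    have h6 : ∀ x : ℤ, ∑ y ∈ Icc 1 B ×ˢ Icc 1 B, ((y.1 : ℝ)⁻¹ * (y.2 : ℝ)⁻¹) =
        (∑ i ∈ Icc 1 B, (i : ℝ)⁻¹) * (∑ i ∈ Icc 1 B, (i : ℝ)⁻¹) := by
      intro x
      rw [sum_mul_sum, Finset.sum_product]
    rw [sum_congr rfl fun x _ => h6 x, sum_const, card_pair (by norm_num)]
    have h7 : ∑ i ∈ Icc 1 B, (i : ℝ)⁻¹ ≤ 1 + Real.log B := by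
      have h8 := harmonic_le_one_add_log B
      rw [harmonic_eq_sum_Icc] at h8
      push_cast at h8
      exact h8
    have h9 : 0 ≤ ∑ i ∈ Icc 1 B, (i : ℝ)⁻¹ := sum_nonneg fun _ _ => by positivity
    have h10 : (∑ i ∈ Icc 1 B, (i : ℝ)⁻¹) * (∑ i ∈ Icc 1 B, (i : ℝ)⁻¹) ≤ (1 + Real.log B) ^ 2 := by
      rw [← pow_two]
      exact pow_le_pow_left₀ h9 h7 2
    have h11 : (0 : ℝ) ≤ (3 * B) ^ (R - 1) := by positivity
    rw [nsmul_eq_mul]
    push_cast
    nlinarith
  have h4 : (((bq (Fin m × Fin (k + 1)) B).filter fun q => ¬ NZ (fun j i => (q (j, i) : ℚ))).card :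
      ℝ) ≤ (2 * B + 1) ^ (R - 1) + ((2 * B + 1) ^ (R - 1) +
        2 * ((3 * B) ^ (R - 1) * (1 + Real.log B) ^ 2)) := by
    refine le_trans (Nat.cast_le.2 hcard) ?_
    push_cast
    refine add_le_add ?_ (add_le_add ?_ h3)
    · exact_mod_cast h1
    · exact_mod_cast h2
  refine h4.trans ?_
  have h5 : (2 * (B : ℝ) + 1) ^ (R - 1) ≤ (3 * B) ^ (R - 1) :=
    pow_le_pow_left₀ (by positivity) (by linarith) _
  have h6 : (1 : ℝ) ≤ (1 + Real.log B) ^ 2 := by
    have := Real.log_nonneg hB0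
    nlinarith
  have h7 : (0 : ℝ) ≤ (3 * B) ^ (R - 1) := by positivity
  have h8 : (3 * (B : ℝ)) ^ (R - 1) ≤ 3 ^ R * (B : ℝ) ^ (R - 1) := by
    rw [mul_pow]
    apply mul_le_mul_of_nonneg_right _ (by positivity)
    exact pow_le_pow_right₀ (by norm_num) (by omega)
  calc (2 * (B : ℝ) + 1) ^ (R - 1) + ((2 * B + 1) ^ (R - 1) +
        2 * ((3 * B) ^ (R - 1) * (1 + Real.log B) ^ 2)) ≤
        4 * ((3 * B) ^ (R - 1) * (1 + Real.log B) ^ 2) := by nlinarith
    _ ≤ 4 * ((3 ^ R * (B : ℝ) ^ (R - 1)) * (1 + Real.log B) ^ 2) := by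
      have : (0 : ℝ) ≤ (1 + Real.log B) ^ 2 := by positivity
      have := mul_le_mul_of_nonneg_right h8 this
      linarith
    _ = _ := by ring

open scoped Classical in
theorem zeros_one (hm : 2 ≤ m) (B : ℕ) :
    ((bq (Fin m × Fin (1 + 1)) B).filter fun q : Fin m × Fin (1 + 1) → ℤ =>
      ¬ NZ (k := 1) (fun j i => (q (j, i) : ℚ))).card ≤ 2 * (2 * B + 1) ^ (m * (1 + 1) - 1) := by
  set j₀ : Fin m := ⟨0, by omega⟩ with hj₀
  set j₁ : Fin m := ⟨1, by omega⟩ with hj₁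
  have hj : j₀ ≠ j₁ := by
    intro h
    have := congrArg Fin.val h
    simp [hj₀, hj₁] at this
  have hfv : ∀ (q : Fin (1 + 1) → ℚ) (x y : ℚ), fv q x y = q 0 * x + q 1 * y := by
    intro q x y
    unfold fv
    rw [Fin.sum_univ_two]
    simp
  have hsub : ((bq (Fin m × Fin (1 + 1)) B).filter fun q : Fin m × Fin (1 + 1) → ℤ =>
      ¬ NZ (k := 1) (fun j i => (q (j, i) : ℚ))) ⊆
      ((bq (Fin m × Fin (1 + 1)) B).filter fun q => q (j₀, 0) = 0) ∪
      ((bq (Fin m × Fin (1 + 1)) B).filter fun q => q (j₀, 0) ≠ 0 ∧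
        q (j₀, 0) * q (j₁, 1) = q (j₀, 1) * q (j₁, 0)) := by
    intro q hq
    rw [mem_filter] at hq
    obtain ⟨hqb, hnz⟩ := hq
    by_cases h1 : q (j₀, 0) = 0
    · exact mem_union_left _ (mem_filter.2 ⟨hqb, h1⟩)
    refine mem_union_right _ (mem_filter.2 ⟨hqb, h1, ?_⟩)
    obtain ⟨x, y, ⟨a, b, hab⟩, hz⟩ := exists_coprime_zero hnz
    have e1 := hz j₀
    have e2 := hz j₁
    rw [hfv] at e1 e2
    have e3 : q (j₀, 0) * x + q (j₀, 1) * y = 0 := by exact_mod_cast e1
    have e4 : q (j₁, 0) * x + q (j₁, 1) * y = 0 := by exact_mod_cast e2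
    have e5 : (q (j₀, 0) * q (j₁, 1) - q (j₀, 1) * q (j₁, 0)) * x = 0 := by
      linear_combination q (j₁, 1) * e3 - q (j₀, 1) * e4
    have e6 : (q (j₀, 0) * q (j₁, 1) - q (j₀, 1) * q (j₁, 0)) * y = 0 := by
      linear_combination q (j₀, 0) * e4 - q (j₁, 0) * e3
    have e7 : q (j₀, 0) * q (j₁, 1) - q (j₀, 1) * q (j₁, 0) = 0 := by
      linear_combination a * e5 + b * e6 - (q (j₀, 0) * q (j₁, 1) - q (j₀, 1) * q (j₁, 0)) * hab
    linarith
  have h1 := card_fix (J := Fin m × Fin (1 + 1)) B (j₀, 0) 0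
  have hJ : Fintype.card (Fin m × Fin (1 + 1)) = m * (1 + 1) := by
    rw [Fintype.card_prod, Fintype.card_fin, Fintype.card_fin]
  rw [hJ] at h1
  have h2 := card_det ((bq (Fin m × Fin (1 + 1)) B).filter fun q => q (j₀, 0) ≠ 0 ∧
        q (j₀, 0) * q (j₁, 1) = q (j₀, 1) * q (j₁, 0)) (fun _ => Icc (-(B : ℤ)) B) (j₁, 1) (by
      intro q hq j
      rw [mem_Icc]
      exact mem_bq.1 (mem_filter.1 hq).1 j) (by
      intro q hq q' hq' hqq
      have e1 := (mem_filter.1 hq).2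
      have e2 := (mem_filter.1 hq').2
      have e3 := hqq (j₀, 0) (fun h => hj (congrArg Prod.fst h))
      have e4 := hqq (j₀, 1) (fun h => hj (congrArg Prod.fst h))
      have e5 := hqq (j₁, 0) (fun h => by
        have := congrArg (fun t : Fin m × Fin (1 + 1) => (t.2 : ℕ)) h
        simp at this)
      have e6 : q (j₀, 0) * (q (j₁, 1) - q' (j₁, 1)) = 0 := by
        have := e1.2
        have h7 := e2.2
        rw [← e3, ← e4, ← e5] at h7
        linear_combination this - h7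
      have := (mul_eq_zero.1 e6).resolve_left e1.1
      linarith)
  have h3 : ∏ j ∈ (univ : Finset (Fin m × Fin (1 + 1))).erase (j₁, 1),
      (Icc (-(B : ℤ)) (B : ℤ)).card = (2 * B + 1) ^ (m * (1 + 1) - 1) := by
    rw [prod_const, card_Icc', card_erase_of_mem (mem_univ _), card_univ, hJ]
  rw [h3] at h2
  have h4 := (card_le_card hsub).trans (card_union_le _ _)
  omega

open scoped Classical in
/-- **Few forms have a rational zero.** -/
theorem zeros (hkm : 2 ≤ k * m) : ∃ C : ℝ, 0 < C ∧ ∀ B : ℕ, 1 ≤ B →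
    (((bq (Fin m × Fin (k + 1)) B).filter fun q : Fin m × Fin (k + 1) → ℤ =>
      ¬ NZ (fun j i => (q (j, i) : ℚ))).card : ℝ) ≤
      C * ((B : ℝ) ^ (m * (k + 1) - 1) * (1 + Real.log B) ^ 2) := by
  have hm : 1 ≤ m := by
    by_contra h
    have : m = 0 := by omega
    rw [this] at hkm
    omega
  have hk : 1 ≤ k := by
    by_contra h
    have : k = 0 := by omega
    rw [this] at hkm
    omega
  rcases hk.lt_or_eq with hk2 | hk1
  · refine ⟨4 * 3 ^ (m * (k + 1)), by positivity, fun B hB => ?_⟩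
    rw [← mul_assoc]
    exact zeros_ge_two hk2 hm B hB
  · subst hk1
    refine ⟨2 * 3 ^ (m * (1 + 1) - 1), by positivity, fun B hB => ?_⟩
    have h1 := zeros_one (m := m) (by omega) B
    have hB0 : (1 : ℝ) ≤ B := by exact_mod_cast hB
    have h2 : (1 : ℝ) ≤ (1 + Real.log B) ^ 2 := by
      have := Real.log_nonneg hB0
      nlinarith
    have h3 : (2 * (B : ℝ) + 1) ^ (m * (1 + 1) - 1) ≤ 3 ^ (m * (1 + 1) - 1) *
        (B : ℝ) ^ (m * (1 + 1) - 1) := by
      rw [← mul_pow]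
      exact pow_le_pow_left₀ (by positivity) (by linarith) _
    have h4 : (((bq (Fin m × Fin (1 + 1)) B).filter fun q : Fin m × Fin (1 + 1) → ℤ =>
      ¬ NZ (fun j i => (q (j, i) : ℚ))).card : ℝ) ≤ 2 * (2 * (B : ℝ) + 1) ^ (m * (1 + 1) - 1) := by
      exact_mod_cast h1
    refine h4.trans ?_
    have h5 : (0 : ℝ) ≤ 3 ^ (m * (1 + 1) - 1) * (B : ℝ) ^ (m * (1 + 1) - 1) := by positivity
    calc 2 * (2 * (B : ℝ) + 1) ^ (m * (1 + 1) - 1) ≤
        2 * (3 ^ (m * (1 + 1) - 1) * (B : ℝ) ^ (m * (1 + 1) - 1)) := by linarith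
      _ ≤ 2 * (3 ^ (m * (1 + 1) - 1) * (B : ℝ) ^ (m * (1 + 1) - 1)) * (1 + Real.log B) ^ 2 :=
        le_mul_of_one_le_right (by positivity) h2
      _ = _ := by ring

end Pool.Agent.K6.H78.MF
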